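import Pool.Agent.Lib.MP_5f1e54_an.TB2.Cls

/-!
# TB-Aut: the matrix of an automorphism of the dimension group

`A` is invertible over `ℚ` (`det A = D > 0`), so every `v ∈ ℚ²` is `u A²`. The vectors with integral coordinates are in `DimGroup A`.
`e_i = Pi.single i 1`; `ψ e_i ∈ DimGroup A`: `ψ e_i A^(k_i)` is integral; `k = k_0 + k_1`; `Z` = the integral matrix with the rows `ψ e_i A^k`.
For `z ∈ ℤ²`: `ψ z = ∑ z_i ψ e_i` (additivity, extended to integer multiples by induction; `ψ 0 = 0`, `ψ (-v) = - ψ v`), so `ψ z A^k = z Z`.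
`A Z = Z A`: row `i` of `A Z` is `ψ (e_i A) A^k = ψ e_i A^(k+1)`. `v ∈ DimGroup A`, `v A^j = z` integral: `ψ v A^j = ψ (v A^j) = ψ z`
(`comm` iterated), so `ψ v A^(j+k) = z Z = v A^j Z = v Z A^j`, and `A^j` is invertible. `T`: surjectivity: `e_i = ψ w_i`, `w_i A^(m_i)` integral,
`m' = m_0 + m_1`, `T` = rows `w_i A^m'`; `T Z`: row `i` is `w_i A^m' Z = ψ (w_i A^m') A^k = e_i A^(m' + k)`: `m = m' + k`. So `det Z ≠ 0`.
Positivity: `e_0 ∈ DeltaPos A`, so `ψ e_0 ∈ DeltaPos A` (`pos`): `ψ e_0 A^j = z ≥ 0` integral; (row 0 of `Z`) `A^j = z A^k`; multiply with `rho A`: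
`lam^j (Z00 ρ_0 + Z01 ρ_1) = z A^k ρ = lam^k (z_0 ρ_0 + z_1 ρ_1) ≥ 0`, and it is `> 0` because `z ≠ 0` (otherwise row 0 of `Z` is 0).
(`DR/Aut2.lean` has the same argument for the matrices `IJ n m`; copy what is useful.)
-/

open Matrix

namespace Pool.Agent.DimRep.TB2

variable {t : ℕ} {D : ℤ} {A : Matrix (Fin 2) (Fin 2) ℕ} {ψ : (Fin 2 → ℚ) → (Fin 2 → ℚ)}

private theorem autB_range (B : Matrix (Fin 2) (Fin 2) ℚ) (hBA : B * toQ A = 1)
    (v : Fin 2 → ℚ) (k : ℕ) : v = (v ᵥ* B ^ k) ᵥ* toQ A ^ k := by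
  have hcomm : Commute B (toQ A) := by
    show B * toQ A = toQ A * B
    rw [hBA, mul_eq_one_comm.mp hBA]
  rw [Matrix.vecMul_vecMul, ← hcomm.mul_pow, hBA, one_pow, Matrix.vecMul_one]

private theorem autB_mem (B : Matrix (Fin 2) (Fin 2) ℚ) (hBA : B * toQ A = 1)
    (v : Fin 2 → ℚ) (h : ∃ (k : ℕ) (z : Fin 2 → ℤ), v ᵥ* toQ A ^ k = fun i => (z i : ℚ)) :
    v ∈ Delta A :=
  ⟨⟨v ᵥ* B ^ 2, autB_range B hBA v 2⟩, h⟩

private theorem autB_int (B : Matrix (Fin 2) (Fin 2) ℚ) (hBA : B * toQ A = 1)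
    (z : Fin 2 → ℤ) : (fun i => (z i : ℚ)) ∈ Delta A :=
  autB_mem B hBA _ ⟨0, z, by rw [pow_zero, Matrix.vecMul_one]⟩

private theorem autB_single (B : Matrix (Fin 2) (Fin 2) ℚ) (hBA : B * toQ A = 1)
    (i : Fin 2) : (Pi.single i 1 : Fin 2 → ℚ) ∈ Delta A := by
  have h := autB_int B hBA (Pi.single i 1 : Fin 2 → ℤ)
  have h2 : (fun j => ((Pi.single i 1 : Fin 2 → ℤ) j : ℚ)) = (Pi.single i 1 : Fin 2 → ℚ) := by
    funext j
    simp only [Pi.single_apply]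
    split_ifs <;> simp
  rwa [h2] at h

private theorem autB_closed (B : Matrix (Fin 2) (Fin 2) ℚ) (hBA : B * toQ A = 1)
    (v : Delta A) (k : ℕ) : (v : Fin 2 → ℚ) ᵥ* toQ A ^ k ∈ Delta A := by
  obtain ⟨_, l, z, hz⟩ := v.2
  refine autB_mem B hBA _ ⟨l, z ᵥ* toZ A ^ k, ?_⟩
  rw [Matrix.vecMul_vecMul, ← pow_add, add_comm k l, pow_add, ← Matrix.vecMul_vecMul, hz,
    cast_vecMul_pow]

/-- the matrix of a group homomorphism -/
private noncomputable def autB_X (B : Matrix (Fin 2) (Fin 2) ℚ) (hBA : B * toQ A = 1)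
    (φ : Delta A ≃+ Delta A) : Matrix (Fin 2) (Fin 2) ℚ :=
  Matrix.of fun i => (φ ⟨Pi.single i 1, autB_single B hBA i⟩ : Fin 2 → ℚ)

private theorem autB_X_int (B : Matrix (Fin 2) (Fin 2) ℚ) (hBA : B * toQ A = 1)
    (φ : Delta A ≃+ Delta A) (z : Fin 2 → ℤ) (v : Delta A)
    (hv : (v : Fin 2 → ℚ) = fun i => (z i : ℚ)) :
    (φ v : Fin 2 → ℚ) = (v : Fin 2 → ℚ) ᵥ* autB_X B hBA φ := by
  have h1 : v = ∑ i, z i • (⟨Pi.single i 1, autB_single B hBA i⟩ : Delta A) := by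
    apply Subtype.ext
    rw [AddSubgroup.val_finsetSum, hv]
    funext j
    rw [Finset.sum_apply]
    simp [Pi.single_apply]
  have h2 : φ v = ∑ i, z i • φ (⟨Pi.single i 1, autB_single B hBA i⟩ : Delta A) := by
    conv_lhs => rw [h1]
    rw [map_sum]
    exact Finset.sum_congr rfl fun i _ => map_zsmul φ _ _
  rw [h2, AddSubgroup.val_finsetSum, hv]
  funext j
  rw [Finset.sum_apply]
  simp only [Matrix.vecMul, dotProduct, autB_X, Matrix.of_apply]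
  refine Finset.sum_congr rfl fun i _ => ?_
  simp

private def autB_Comm (A : Matrix (Fin 2) (Fin 2) ℕ) (φ : Delta A ≃+ Delta A) : Prop :=
  ∀ v w : Delta A, (w : Fin 2 → ℚ) = (v : Fin 2 → ℚ) ᵥ* toQ A →
    (φ w : Fin 2 → ℚ) = (φ v : Fin 2 → ℚ) ᵥ* toQ A

private theorem autB_commk (B : Matrix (Fin 2) (Fin 2) ℚ) (hBA : B * toQ A = 1)
    (φ : Delta A ≃+ Delta A) (hφ : autB_Comm A φ) (k : ℕ) :
    ∀ v w : Delta A, (w : Fin 2 → ℚ) = (v : Fin 2 → ℚ) ᵥ* toQ A ^ k →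
    (φ w : Fin 2 → ℚ) = (φ v : Fin 2 → ℚ) ᵥ* toQ A ^ k := by
  induction k with
  | zero =>
    intro v w h
    rw [pow_zero, Matrix.vecMul_one] at h
    rw [pow_zero, Matrix.vecMul_one, Subtype.ext h]
  | succ k ih =>
    intro v w h
    have h1 := ih v ⟨(v : Fin 2 → ℚ) ᵥ* toQ A ^ k, autB_closed B hBA v k⟩ rfl
    have h2 := hφ ⟨(v : Fin 2 → ℚ) ᵥ* toQ A ^ k, autB_closed B hBA v k⟩ w (by
      rw [h, pow_succ, ← Matrix.vecMul_vecMul])
    rw [h2, h1, Matrix.vecMul_vecMul, ← pow_succ]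

private theorem autB_AX (B : Matrix (Fin 2) (Fin 2) ℚ) (hBA : B * toQ A = 1)
    (φ : Delta A ≃+ Delta A) (hφ : autB_Comm A φ) :
    toQ A * autB_X B hBA φ = autB_X B hBA φ * toQ A := by
  ext i j
  have h1 := autB_closed B hBA ⟨Pi.single i 1, autB_single B hBA i⟩ 1
  rw [pow_one] at h1
  have h2 := hφ ⟨Pi.single i 1, autB_single B hBA i⟩ ⟨_, h1⟩ rfl
  have h3 := autB_X_int B hBA φ (fun j => toZ A i j) ⟨_, h1⟩ (by
    funext j
    simp [toQ, toZ])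
  rw [h3] at h2
  have h4 := congrFun h2 j
  simp only at h4
  rw [Matrix.vecMul_vecMul, Matrix.single_one_vecMul] at h4
  exact h4

private theorem autB_vec (B : Matrix (Fin 2) (Fin 2) ℚ) (hBA : B * toQ A = 1)
    (φ : Delta A ≃+ Delta A) (hφ : autB_Comm A φ) (v : Delta A) :
    (φ v : Fin 2 → ℚ) = (v : Fin 2 → ℚ) ᵥ* autB_X B hBA φ := by
  obtain ⟨_, k, z, hz⟩ := v.2
  have h1 := autB_commk B hBA φ hφ k v ⟨_, autB_closed B hBA v k⟩ rfl
  have h2 := autB_X_int B hBA φ z ⟨_, autB_closed B hBA v k⟩ hz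
  have h3 : (φ v : Fin 2 → ℚ) ᵥ* toQ A ^ k =
      ((v : Fin 2 → ℚ) ᵥ* autB_X B hBA φ) ᵥ* toQ A ^ k := by
    rw [← h1, h2]
    have hc : Commute (toQ A) (autB_X B hBA φ) := autB_AX B hBA φ hφ
    rw [Matrix.vecMul_vecMul, Matrix.vecMul_vecMul, (hc.pow_left k).eq]
  have hAB : toQ A * B = 1 := mul_eq_one_comm.mp hBA
  have hcAB : Commute (toQ A) B := by
    show toQ A * B = B * toQ A
    rw [hBA, hAB]
  have h4 : ∀ u : Fin 2 → ℚ, (u ᵥ* toQ A ^ k) ᵥ* B ^ k = u := by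
    intro u
    rw [Matrix.vecMul_vecMul, ← hcAB.mul_pow, hAB, one_pow, Matrix.vecMul_one]
  rw [← h4 (φ v : Fin 2 → ℚ), h3, h4]

private theorem autB_exists (B : Matrix (Fin 2) (Fin 2) ℚ) (hBA : B * toQ A = 1)
    (ψ : Delta A ≃+ Delta A) (hψ : IsAut A ψ) :
    ∃ (X X' : Matrix (Fin 2) (Fin 2) ℚ) (Y Y' : Matrix (Fin 2) (Fin 2) ℤ) (K : ℕ),
      X * X' = 1 ∧ toQ A * X = X * toQ A ∧
      (∀ v : Delta A, (ψ v : Fin 2 → ℚ) = (v : Fin 2 → ℚ) ᵥ* X) ∧
      X * toQ A ^ K = zQ Y ∧ X' * toQ A ^ K = zQ Y' ∧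
      ∃ (k : ℕ), ∀ j, 0 ≤ (X * toQ A ^ k) 0 j := by
  have hc1 : autB_Comm A ψ := fun v w h => hψ.comm v w h
  have hc2 : autB_Comm A ψ.symm := by
    intro v w h
    have hm := autB_closed B hBA (ψ.symm v) 1
    rw [pow_one] at hm
    have h1 := hψ.comm (ψ.symm v) ⟨_, hm⟩ rfl
    rw [AddEquiv.apply_symm_apply, ← h] at h1
    have h2 : ψ ⟨_, hm⟩ = w := Subtype.ext h1
    rw [← h2, AddEquiv.symm_apply_apply]
  have key : ∀ φ : Delta A ≃+ Delta A, ∃ k : Fin 2 → ℕ, ∀ K, (∀ i, k i ≤ K) →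
      ∃ Y : Matrix (Fin 2) (Fin 2) ℤ, autB_X B hBA φ * toQ A ^ K = zQ Y := by
    intro φ
    have h1 : ∀ i, ∃ (k : ℕ) (z : Fin 2 → ℤ),
        (autB_X B hBA φ) i ᵥ* toQ A ^ k = fun j => (z j : ℚ) := by
      intro i
      exact (φ ⟨Pi.single i 1, autB_single B hBA i⟩).2.2
    choose k z hz using h1
    refine ⟨k, fun K hK => ⟨Matrix.of fun i => z i ᵥ* toZ A ^ (K - k i), ?_⟩⟩
    ext i j
    have h2 : (autB_X B hBA φ * toQ A ^ K) i j =
        ((autB_X B hBA φ) i ᵥ* toQ A ^ K) j := rfl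
    rw [h2]
    have h3 : toQ A ^ K = toQ A ^ (k i) * toQ A ^ (K - k i) := by
      rw [← pow_add, Nat.add_sub_cancel' (hK i)]
    rw [h3, ← Matrix.vecMul_vecMul, hz i, cast_vecMul_pow]
    rfl
  obtain ⟨k1, hk1⟩ := key ψ
  obtain ⟨k2, hk2⟩ := key ψ.symm
  obtain ⟨Y, hY⟩ := hk1 (∑ i, k1 i + ∑ i, k2 i) fun i =>
    le_trans (Finset.single_le_sum (f := k1) (fun _ _ => Nat.zero_le _) (Finset.mem_univ i))
      (Nat.le_add_right _ _)
  obtain ⟨Y', hY'⟩ := hk2 (∑ i, k1 i + ∑ i, k2 i) fun i =>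
    le_trans (Finset.single_le_sum (f := k2) (fun _ _ => Nat.zero_le _) (Finset.mem_univ i))
      (Nat.le_add_left _ _)
  refine ⟨autB_X B hBA ψ, autB_X B hBA ψ.symm, Y, Y', _, ?_, autB_AX B hBA ψ hc1,
    autB_vec B hBA ψ hc1, hY, hY', ?_⟩
  · ext i j
    have h1 := autB_vec B hBA ψ.symm hc2 (ψ ⟨Pi.single i 1, autB_single B hBA i⟩)
    rw [AddEquiv.symm_apply_apply] at h1
    have h2 := congrFun h1 j
    have h3 : (autB_X B hBA ψ * autB_X B hBA ψ.symm) i j =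
        ((ψ ⟨Pi.single i 1, autB_single B hBA i⟩ : Fin 2 → ℚ) ᵥ* autB_X B hBA ψ.symm) j := rfl
    rw [h3, ← h2, Matrix.one_apply]
    show (Pi.single i 1 : Fin 2 → ℚ) j = _
    rw [Pi.single_apply]
    by_cases hij : j = i
    · rw [if_pos hij, if_pos hij.symm]
    · rw [if_neg hij, if_neg fun h => hij h.symm]
  · have h1 : (Pi.single 0 1 : Fin 2 → ℚ) ∈ DeltaPos A := by
      refine ⟨⟨_, autB_range B hBA _ 2⟩, 0, Pi.single 0 1, ?_⟩
      rw [pow_zero, Matrix.vecMul_one]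
      funext j
      simp only [Pi.single_apply]
      split_ifs <;> simp
    have h2 := (hψ.pos ⟨Pi.single 0 1, autB_single B hBA 0⟩).mpr h1
    obtain ⟨_, k, z, hz⟩ := h2
    refine ⟨k, fun j => ?_⟩
    have h3 : (autB_X B hBA ψ * toQ A ^ k) 0 j =
        ((ψ ⟨Pi.single 0 1, autB_single B hBA 0⟩ : Fin 2 → ℚ) ᵥ* toQ A ^ k) j := rfl
    rw [h3, hz]
    exact Nat.cast_nonneg _

/-- pairing with the right eigenvector -/
private theorem autB_pair (h : Irr t D) (hA : Cls t D A) (M : Matrix (Fin 2) (Fin 2) ℚ) (k : ℕ) :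
    (((M * toQ A ^ k) 0 0 : ℚ) : ℝ) * rho t D A 0 + (((M * toQ A ^ k) 0 1 : ℚ) : ℝ) * rho t D A 1 =
      lam t D ^ k * (((M 0 0 : ℚ) : ℝ) * rho t D A 0 + ((M 0 1 : ℚ) : ℝ) * rho t D A 1) := by
  induction k with
  | zero => simp
  | succ k ih =>
    have h0 := eig_rho h hA 0
    have h1 := eig_rho h hA 1
    rw [pow_succ, ← Matrix.mul_assoc]
    have e0 : ((M * toQ A ^ k * toQ A) 0 0 : ℚ) =
        (M * toQ A ^ k) 0 0 * (A 0 0 : ℚ) + (M * toQ A ^ k) 0 1 * (A 1 0 : ℚ) := by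
      rw [Matrix.mul_apply, Fin.sum_univ_two]
      rfl
    have e1 : ((M * toQ A ^ k * toQ A) 0 1 : ℚ) =
        (M * toQ A ^ k) 0 0 * (A 0 1 : ℚ) + (M * toQ A ^ k) 0 1 * (A 1 1 : ℚ) := by
      rw [Matrix.mul_apply, Fin.sum_univ_two]
      rfl
    rw [e0, e1]
    push_cast
    rw [pow_succ]
    linear_combination lam t D * ih + (((M * toQ A ^ k) 0 0 : ℚ) : ℝ) * h0 +
      (((M * toQ A ^ k) 0 1 : ℚ) : ℝ) * h1

theorem aut_matrix (h : Irr t D) (hA : Cls t D A) (hψ : IsDimAut A ψ) :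
    ∃ (Z T : Matrix (Fin 2) (Fin 2) ℤ) (k m : ℕ), Rel t D A A Z ∧ T * Z = toZ A ^ m ∧
      ∀ v ∈ DimGroup A, ψ v ᵥ* toQ A ^ k = v ᵥ* zQ Z := by
  have hdet : (toQ A).det = D := by
    rw [Matrix.det_fin_two]
    have h2 : (A 0 0 : ℚ) * A 1 1 = A 0 1 * A 1 0 + D := by exact_mod_cast hA.2
    simp only [toQ, Matrix.map_apply]
    linarith
  have hD : (D : ℚ) ≠ 0 := by exact_mod_cast h.1.1
  have hu : IsUnit (toQ A).det := by
    rw [hdet]
    exact isUnit_iff_ne_zero.2 hD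
  have hBA : (toQ A)⁻¹ * toQ A = 1 := Matrix.nonsing_inv_mul _ hu
  obtain ⟨X, X', Y, Y', K, hXX', hAX, hv, hY, hY', k, hk⟩ := autB_exists (toQ A)⁻¹ hBA hψ.equiv hψ.isAut
  have hX'X : X' * X = 1 := mul_eq_one_comm.mp hXX'
  have hzinj : ∀ P Q : Matrix (Fin 2) (Fin 2) ℤ, zQ P = zQ Q → P = Q := by
    intro P Q hPQ
    ext i j
    have h1 := congrFun (congrFun hPQ i) j
    simp only [zQ, Matrix.map_apply] at h1
    exact_mod_cast h1
  have hzA : zQ (toZ A) = toQ A := by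
    ext i j
    simp [zQ, toZ, toQ]
  have hzpow : ∀ m : ℕ, zQ (toZ A ^ m) = toQ A ^ m := by
    intro m
    induction m with
    | zero =>
      ext i j
      simp [zQ, Matrix.one_apply]
    | succ m ih => rw [pow_succ, zQ_mul, ih, hzA, pow_succ]
  have hcX : Commute (toQ A) X := hAX
  have hTZ : Y' * Y = toZ A ^ (K + K) := by
    apply hzinj
    rw [zQ_mul, ← hY, ← hY', hzpow, pow_add]
    have h1 : toQ A ^ K * X = X * toQ A ^ K := (hcX.pow_left K).eq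
    calc X' * toQ A ^ K * (X * toQ A ^ K) = X' * (toQ A ^ K * X) * toQ A ^ K := by
          simp only [Matrix.mul_assoc]
      _ = (X' * X) * toQ A ^ K * toQ A ^ K := by rw [h1]; simp only [Matrix.mul_assoc]
      _ = toQ A ^ K * toQ A ^ K := by rw [hX'X, Matrix.one_mul]
  have hdetY : Y.det ≠ 0 := by
    intro h0
    have h1 := congrArg Matrix.det hTZ
    rw [Matrix.det_mul, h0, mul_zero, Matrix.det_pow] at h1
    have h2 : (toZ A).det = D := by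
      rw [Matrix.det_fin_two]
      have h2 := hA.2
      simp only [toZ, Matrix.map_apply]
      linarith
    rw [h2] at h1
    exact pow_ne_zero _ h.1.1 h1.symm
  have hYA : Y * toZ A = toZ A * Y := by
    apply hzinj
    rw [zQ_mul, zQ_mul, hzA, ← hY, Matrix.mul_assoc, ← pow_succ, pow_succ', ← Matrix.mul_assoc,
      ← Matrix.mul_assoc, hAX]
  refine ⟨Y, Y', K, K + K, ⟨hA, hA, hYA, hdetY, ?_⟩, hTZ, ?_⟩
  · have hlam : 0 < lam t D :=
      lt_of_le_of_lt (Nat.cast_nonneg _) (hA.lam_lt h).1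
    have e1 := autB_pair h hA (X * toQ A ^ K) k
    have e2 := autB_pair h hA (X * toQ A ^ k) K
    have e3 : X * toQ A ^ K * toQ A ^ k = X * toQ A ^ k * toQ A ^ K := by
      rw [Matrix.mul_assoc, Matrix.mul_assoc, ← pow_add, ← pow_add, add_comm]
    rw [e3] at e1
    rw [e2] at e1
    have e4 : ∀ j, (X * toQ A ^ K) 0 j = (Y 0 j : ℚ) := by
      intro j
      rw [hY]
      rfl
    rw [e4, e4] at e1
    have hr0 := rho_pos h hA 0
    have hr1 := rho_pos h hA 1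
    have hne : 0 < (((X * toQ A ^ k) 0 0 : ℚ) : ℝ) * rho t D A 0 +
        (((X * toQ A ^ k) 0 1 : ℚ) : ℝ) * rho t D A 1 := by
      have g0 : (0 : ℝ) ≤ (((X * toQ A ^ k) 0 0 : ℚ) : ℝ) := by exact_mod_cast hk 0
      have g1 : (0 : ℝ) ≤ (((X * toQ A ^ k) 0 1 : ℚ) : ℝ) := by exact_mod_cast hk 1
      rcases g0.lt_or_eq with g | g
      · have := mul_pos g hr0
        have := mul_nonneg g1 hr1.le
        linarith
      · rcases g1.lt_or_eq with g' | g'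
        · have := mul_pos g' hr1
          have := mul_nonneg g0 hr0.le
          linarith
        · exfalso
          have z0 : (X * toQ A ^ k) 0 0 = 0 := by exact_mod_cast g.symm
          have z1 : (X * toQ A ^ k) 0 1 = 0 := by exact_mod_cast g'.symm
          have hd0 : (X * toQ A ^ k).det = 0 := by
            rw [Matrix.det_fin_two, z0, z1]
            ring
          rw [Matrix.det_mul, Matrix.det_pow, hdet] at hd0
          have hXd : X.det ≠ 0 := by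
            intro h0
            have := congrArg Matrix.det hXX'
            rw [Matrix.det_mul, h0, zero_mul, Matrix.det_one] at this
            exact zero_ne_one this
          exact (mul_ne_zero hXd (pow_ne_zero _ hD)) hd0
    have hpos : 0 < lam t D ^ k * (((Y 0 0 : ℚ) : ℝ) * rho t D A 0 + ((Y 0 1 : ℚ) : ℝ) * rho t D A 1) := by
      rw [← e1]
      exact mul_pos (pow_pos hlam K) hne
    have h5 := (mul_pos_iff_of_pos_left (pow_pos hlam k)).1 hpos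
    push_cast at h5
    exact h5
  · intro v hvm
    have h1 := hv ⟨v, hvm⟩
    rw [hψ.equiv_apply] at h1
    simp only at h1
    rw [h1, Matrix.vecMul_vecMul, hY]

end Pool.Agent.DimRep.TB2
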