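import Pool.Agent.Lib.MP_5f1e54_an.TB2.Lnk

/-!
# TB-Base: the elementary changes of basis

`base_up`: `B = !![a, b; c, d]`, basis `x, y`; new basis `x + y, y`, `E = !![1, 1; 0, 1]`, `C = E B E⁻¹`.
PROOF with the objects of `DR/Good.lean` (`Obj B F P`, `F P = B`, index types `Fin 2`, `Fin 3`).
Case `a ≤ b`: `Obj.start' : Obj B 1 (toZ B)`; `toZ B = R * E` with `R = !![a, b - a; c, d - c] ≥ 0`; `Obj.fwd R E`
gives `Obj B R E` (`Nn (E * 1)`), and `E * R = C`.
Case `b < a`: put `e = a - b`, `f = d - c`; `e < f` (from `a + c < b + d`). For `0 ≤ i ≤ e` let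
`F_i = !![1, 0, -i; 0, c, f]` and `P_i = !![a, b + i; 1, 1; 0, 1]`; `F_i P_i = B`. Claim `Obj B F_i P_i`.
`i = 0`: `Obj.fwd F_0 P_0` from `Obj.start'` (`toZ B = F_0 * P_0`, `F_0 ≥ 0`, `P_0 * 1 ≥ 0`).
`i → i + 1` (`i < e`): `Obj.bwd R F_{i+1}` with `R = !![1, 0, 1; 0, 1, 0; 0, 0, 1]`: `F_i = F_{i+1} * R`, `R * P_i = P_{i+1}`,
and `P_i * F_{i+1} ≥ 0`: its entries are `a, c (b + i), f (b + i) - a (i + 1); 1, c, f - (i + 1); 0, c, f`, and
`f (b + i) - a (i + 1) ≥ (e + 1) (b + i) - (b + e) (i + 1) = (b - 1) (e - i) ≥ 0` (as `f ≥ e + 1`, `a = b + e`, `1 ≤ b`).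
End: `P_e = R E` with `R = !![a, 0; 1, 0; 0, 1]` (`b + e = a`), `Obj.fwd R E`: `E * F_e ≥ 0` (entries `1, c, f - e; 0, c, f`),
`F_e * R = !![a, -e; c, f]` and `E * F_e * R = !![a + c, f - e; c, f] = C`.
So there is `F` with `Obj B F E` and `E F = C`: `Rch B (E F) W`, `W E = B^k`; `Rch` with `Equiv.refl (Fin 2)` gives the chain from `B`
to `C` with product `W`, and `Lnk` follows (`E B = C E`, `det E = 1`).

`base_right`: basis `x, x + y`: exchange the basis vectors (`Lnk.swap`), `base_up`, exchange again.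
-/

open Matrix

namespace Pool.Agent.DimRep.TB2

/-- the functionals at the stage `i` -/
private def stF (c f i : ℤ) : Matrix (Fin 2) (Fin 3) ℤ := !![1, 0, -i; 0, c, f]

/-- the vectors at the stage `i` -/
private def stP (a b i : ℤ) : Matrix (Fin 3) (Fin 2) ℤ := !![a, b + i; 1, 1; 0, 1]

private theorem toZ_inj {B C : Matrix (Fin 2) (Fin 2) ℕ} (h : toZ B = toZ C) : B = C := by
  ext i j
  have := congrFun (congrFun h i) j
  simpa [toZ] using this

/-- from an object with two vectors to a link -/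
private theorem obj_lnk {B C : Matrix (Fin 2) (Fin 2) ℕ} {F E : Matrix (Fin 2) (Fin 2) ℤ}
    (h : Obj B F E) (hC : toZ C = E * F) (hE : E.det = 1) : Lnk B C (zQ E) := by
  obtain ⟨h1, W, k, ⟨B', W', h2, h3, h4⟩, h5⟩ := h
  have hB' : B' = C := by
    apply toZ_inj
    rw [hC, h2]
    rfl
  subst hB'
  have h6 := h4 2 (Equiv.refl (Fin 2))
  have h7 : Chain B B' W' := h6
  refine ⟨?_, ?_, W', k, h7, ?_⟩
  · have : (zQ E).det = ((E.det : ℤ) : ℚ) := by
      unfold zQ
      rw [Matrix.det_fin_two, Matrix.det_fin_two]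
      simp only [Matrix.map_apply]
      push_cast
      ring
    rw [this, hE]
    norm_num
  · rw [← zQ_toZ, ← zQ_toZ, ← zQ_mul, ← zQ_mul, ← h1, hC, Matrix.mul_assoc]
  · rw [← zQ_toZ, ← zQ_toZ, ← zQ_mul, ← zQ_pow, ← h5, h3]
    rfl

private theorem stage {B : Matrix (Fin 2) (Fin 2) ℕ} {a b c f e : ℕ}
    (hB : toZ B = !![(a : ℤ), b; c, c + f]) (hb : 1 ≤ b) (he : a = b + e) (hf : e + 1 ≤ f) (i : ℕ)
    (hi : i ≤ e) : Obj B (stF c f i) (stP a b i) := by
  induction i with
  | zero =>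
    have h := Obj.fwd (stF c f 0) (stP a b 0) (Obj.start' (A := B)) (by
      rw [hB]
      ext i j
      fin_cases i <;> fin_cases j <;> simp [stF, stP, Matrix.mul_apply, Fin.sum_univ_three])
      (by
        intro i j
        fin_cases i <;> fin_cases j <;> simp [stF])
      (by
        rw [Matrix.mul_one]
        intro i j
        fin_cases i <;> fin_cases j <;> simp [stP])
    rw [Matrix.one_mul] at h
    simpa using h
  | succ i ih =>
    have h := Obj.bwd (!![1, 0, 1; 0, 1, 0; 0, 0, 1] : Matrix (Fin 3) (Fin 3) ℤ) (stF c f (i + 1))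
      (ih (by omega)) (by
        ext i j
        fin_cases i <;> fin_cases j <;> simp [stF, Matrix.mul_apply, Fin.sum_univ_three])
      (by
        intro i j
        fin_cases i <;> fin_cases j <;> simp)
      (by
        have key : (0 : ℤ) ≤ f * (b + i) - a * (i + 1) := by
          have h1 : ((e : ℤ) + 1) ≤ f := by exact_mod_cast hf
          have h2 : (a : ℤ) = b + e := by exact_mod_cast he
          have h3 : (1 : ℤ) ≤ b := by exact_mod_cast hb
          have h4 : (i : ℤ) + 1 ≤ e := by exact_mod_cast hi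
          have h5 : (0 : ℤ) ≤ i := by positivity
          rw [h2]
          nlinarith [mul_nonneg (sub_nonneg.2 h1) (add_nonneg (le_trans zero_le_one h3) h5),
            mul_nonneg (sub_nonneg.2 h3) (sub_nonneg.2 (le_trans (by linarith : (i : ℤ) ≤ i + 1) h4))]
        intro k l
        fin_cases k <;> fin_cases l <;>
          simp [stF, stP, Matrix.mul_apply, Fin.sum_univ_two] <;> nlinarith)
    have e2 : (!![1, 0, 1; 0, 1, 0; 0, 0, 1] : Matrix (Fin 3) (Fin 3) ℤ) * stP a b i
        = stP a b ((i : ℤ) + 1) := by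
      ext k l
      fin_cases k <;> fin_cases l <;>
        simp [stP, Matrix.mul_apply, Fin.sum_univ_three] <;> ring
    rw [e2] at h
    push_cast
    exact h

theorem base_up (a b c d : ℕ) (hb : 1 ≤ b) (hc : c ≤ d) (h : a + c < b + d) :
    Lnk !![a, b; c, d] !![a + c, b + d - (a + c); c, d - c] !![1, 1; 0, 1] := by
  have hz : (zQ !![1, 1; 0, 1] : Matrix (Fin 2) (Fin 2) ℚ) = !![1, 1; 0, 1] := by
    ext i j
    fin_cases i <;> fin_cases j <;> simp [zQ]
  rw [← hz]
  obtain ⟨f, rfl⟩ : ∃ f, d = c + f := ⟨d - c, by omega⟩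
  have hC : toZ !![a + c, b + (c + f) - (a + c); c, c + f - c]
      = !![(a : ℤ) + c, b + f - a; c, f] := by
    have h1 : ((b + (c + f) - (a + c) : ℕ) : ℤ) = b + f - a := by omega
    have h2 : c + f - c = f := by omega
    ext i j
    fin_cases i <;> fin_cases j
    · simp [toZ]
    · show ((b + (c + f) - (a + c) : ℕ) : ℤ) = b + f - a
      exact h1
    · simp [toZ]
    · show ((c + f - c : ℕ) : ℤ) = f
      rw [h2]
  rcases Nat.lt_or_ge b a with hba | hab
  · -- the case `b < a`
    obtain ⟨e, he⟩ : ∃ e, a = b + e := ⟨a - b, by omega⟩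
    have hf : e + 1 ≤ f := by omega
    have hB : toZ !![a, b; c, c + f] = !![(a : ℤ), b; c, c + f] := by
      ext i j
      fin_cases i <;> fin_cases j <;> simp [toZ]
    have h1 := stage hB hb he hf e le_rfl
    have h2 := Obj.fwd (!![(a : ℤ), 0; 1, 0; 0, 1] : Matrix (Fin 3) (Fin 2) ℤ)
      (!![1, 1; 0, 1] : Matrix (Fin 2) (Fin 2) ℤ) h1 (by
        have he' : (b : ℤ) + e = a := by exact_mod_cast he.symm
        ext i j
        fin_cases i <;> fin_cases j <;> simp [stP, Matrix.mul_apply, Fin.sum_univ_two, he'])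
      (by
        intro i j
        fin_cases i <;> fin_cases j <;> simp)
      (by
        have hf' : (e : ℤ) + 1 ≤ f := by exact_mod_cast hf
        intro i j
        fin_cases i <;> fin_cases j <;> simp [stF, Matrix.mul_apply, Fin.sum_univ_two]
        linarith)
    refine obj_lnk h2 ?_ (by simp [Matrix.det_fin_two])
    rw [hC]
    have he' : (a : ℤ) = b + e := by exact_mod_cast he
    ext i j
    fin_cases i <;> fin_cases j <;>
      simp [stF, Matrix.mul_apply, Fin.sum_univ_two, Fin.sum_univ_three] <;> linarith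
  · -- the case `a ≤ b`
    have hB : toZ !![a, b; c, c + f] = !![(a : ℤ), b - a; c, f] * !![1, 1; 0, 1] := by
      ext i j
      fin_cases i <;> fin_cases j <;> simp [toZ, Matrix.mul_apply, Fin.sum_univ_two]
    have hab' : (a : ℤ) ≤ b := by exact_mod_cast hab
    have h2 := Obj.fwd (!![(a : ℤ), b - a; c, f] : Matrix (Fin 2) (Fin 2) ℤ)
      (!![1, 1; 0, 1] : Matrix (Fin 2) (Fin 2) ℤ) (Obj.start' (A := !![a, b; c, c + f])) hB
      (by
        intro i j
        fin_cases i <;> fin_cases j <;> simp [hab'])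
      (by
        rw [Matrix.mul_one]
        intro i j
        fin_cases i <;> fin_cases j <;> simp)
    rw [Matrix.one_mul] at h2
    refine obj_lnk h2 ?_ (by simp [Matrix.det_fin_two])
    rw [hC]
    ext i j
    fin_cases i <;> fin_cases j <;> simp [Matrix.mul_apply, Fin.sum_univ_two]
    ring

theorem base_right (a b c d : ℕ) (hc : 1 ≤ c) (hb : b ≤ a) (h : b + d < a + c) :
    Lnk !![a, b; c, d] !![a - b, b; a + c - (b + d), b + d] !![1, 0; 1, 1] := by
  have h1 := Lnk.swap a b c d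
  have h2 := base_up d c b a hc hb (by omega)
  have h3 := Lnk.swap (d + b) (c + a - (d + b)) b (a - b)
  have h4 := (h1.trans h2).trans h3
  have e1 : (!![0, 1; 1, 0] * (!![1, 1; 0, 1] * !![0, 1; 1, 0]) : Matrix (Fin 2) (Fin 2) ℚ)
      = !![1, 0; 1, 1] := by
    ext i j
    fin_cases i <;> fin_cases j <;> simp [Matrix.mul_apply, Fin.sum_univ_two]
  rw [e1] at h4
  have e2 : c + a - (d + b) = a + c - (b + d) := by omega
  rw [e2, Nat.add_comm d b] at h4
  exact h4

end Pool.Agent.DimRep.TB2
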