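import Pool.Agent.Lib.MP_5f1e54_an.TB2.Cls

/-!
# TB-Norm: every integral matrix with trace `t` and determinant `D` is conjugate to one with entries `≥ 0`

`norm_exists`: strong induction on `n = |H 0 0 - H 1 1|` (`Int.natAbs`).
`H 0 1 * H 1 0 = 0`: `(H00 - H11)² = t² - 4 D`, contradiction to `Irr`.
`H 0 1 * H 1 0 > 0`: `H00 H11 = D + H01 H10 > 0`, `H00 + H11 = t ≥ 0`, so `H00, H11 > 0`; if `H01, H10 > 0` take `G = 1`; if both are `< 0`
take `G = G' = !![1, 0; 0, -1]`.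
`H 0 1 * H 1 0 < 0`: `(H00 - H11)² = t² - 4D - 4 H01 H10 > 4 |H01 H10|` (`t² - 4 D ≥ 0` by hypothesis `hd`). If `|H10| ≤ |H01|`:
`|H00 - H11| > 2 |H10| > 0`; conjugation with `!![1, s; 0, 1]`, `s = ± 1`, changes `H00 - H11` to `H00 - H11 + 2 s H10`; choose `s` so that
the absolute value becomes smaller. If `|H01| < |H10|`: conjugation with `!![1, 0; s, 1]` changes it to `H00 - H11 - 2 s H01`.
`rel_norm`: `R N` has trace `t`, determinant `D` (`toZ B = R * N`; `det (N R) = det (R N)`, `trace (N R) = trace (R N)`); take `H = N * R`,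
`G`, `G'`, `toZ C = G * (N * R) * G'`; `G N B = G N R N = C G N`. The first coordinate of `G N rho B` is not zero (otherwise `G N rho B = 0`, as
it is an eigenvector of `C` for `lam`, but `det (G N) ≠ 0`, `rho B ≠ 0`): if it is negative replace `G`, `G'` by `-G`, `-G'`.
-/

open Matrix

namespace Pool.Agent.DimRep.TB2

variable {t : ℕ} {D : ℤ} {B : Matrix (Fin 2) (Fin 2) ℕ}

private theorem norm_up (a b c d s : ℤ) :
    !![1, s; 0, 1] * !![a, b; c, d] * !![1, -s; 0, 1] =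
      !![a + s * c, b + s * d - s * (a + s * c); c, d - s * c] := by
  ext i j
  fin_cases i <;> fin_cases j <;> simp [Matrix.mul_apply, Fin.sum_univ_two] <;> ring

private theorem norm_lo (a b c d s : ℤ) :
    !![1, 0; s, 1] * !![a, b; c, d] * !![1, 0; -s, 1] =
      !![a - s * b, b; c + s * a - s * (d + s * b), d + s * b] := by
  ext i j
  fin_cases i <;> fin_cases j <;> simp [Matrix.mul_apply, Fin.sum_univ_two] <;> ring

private theorem norm_e1 (s : ℤ) : (!![1, s; 0, 1] : Matrix (Fin 2) (Fin 2) ℤ) * !![1, -s; 0, 1] = 1 := by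
  ext i j
  fin_cases i <;> fin_cases j <;> simp [Matrix.mul_apply, Fin.sum_univ_two]

private theorem norm_e2 (s : ℤ) : (!![1, 0; s, 1] : Matrix (Fin 2) (Fin 2) ℤ) * !![1, 0; -s, 1] = 1 := by
  ext i j
  fin_cases i <;> fin_cases j <;> simp [Matrix.mul_apply, Fin.sum_univ_two]

/-- for `|a| ≥ 2 |c| > 0` one of `a ± 2 c` is smaller -/
private theorem norm_sgn (x c : ℤ) (hc : c ≠ 0) (hx : 2 * |c| < |x|) :
    ∃ s : ℤ, (x + 2 * (s * c)).natAbs < x.natAbs := by
  rcases lt_or_gt_of_ne hc with h1 | h1 <;> rcases le_total 0 x with h2 | h2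
  · refine ⟨1, ?_⟩
    rw [abs_of_neg h1, abs_of_nonneg h2] at hx
    omega
  · refine ⟨-1, ?_⟩
    rw [abs_of_neg h1, abs_of_nonpos h2] at hx
    omega
  · refine ⟨-1, ?_⟩
    rw [abs_of_pos h1, abs_of_nonneg h2] at hx
    omega
  · refine ⟨1, ?_⟩
    rw [abs_of_pos h1, abs_of_nonpos h2] at hx
    omega

private theorem norm_abs (x b c : ℤ) (hbc : b * c < 0) (hx : -4 * (b * c) ≤ x ^ 2) (hn : x ^ 2 ≠ -4 * (b * c))
    (h : |c| ≤ |b|) : 2 * |c| < |x| := by
  have h1 : |b| * |c| = -(b * c) := by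
    rw [← abs_mul, abs_of_neg hbc]
  have h2 : |x| ^ 2 = x ^ 2 := sq_abs x
  have h3 : 0 ≤ |c| := abs_nonneg c
  have h5 : 0 ≤ |x| := abs_nonneg x
  have h6 : -4 * (b * c) < x ^ 2 := lt_of_le_of_ne hx (Ne.symm hn)
  by_contra h4
  push Not at h4
  nlinarith

theorem norm_exists (h : Irr t D) (hd : 4 * (D : ℤ) ≤ (t : ℤ) ^ 2) (H : Matrix (Fin 2) (Fin 2) ℤ)
    (ht : H 0 0 + H 1 1 = t) (hD : H.det = D) :
    ∃ (G G' : Matrix (Fin 2) (Fin 2) ℤ) (C : Matrix (Fin 2) (Fin 2) ℕ), G * G' = 1 ∧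
      toZ C = G * H * G' := by
  obtain ⟨n, hn⟩ : ∃ n, n = (H 0 0 - H 1 1).natAbs := ⟨_, rfl⟩
  induction n using Nat.strong_induction_on generalizing H with
  | _ n ih =>
    obtain ⟨a, b, c, d, rfl⟩ : ∃ a b c d, H = !![a, b; c, d] := ⟨_, _, _, _, Matrix.eta_fin_two H⟩
    rw [Matrix.det_fin_two_of] at hD
    have ht' : a + d = t := ht
    have hn' : n = (a - d).natAbs := hn
    clear ht hn
    have key : (a - d) ^ 2 = (t : ℤ) ^ 2 - 4 * D - 4 * (b * c) := by
      rw [← ht', ← hD]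
      ring
    have step : ∀ G1 G1' : Matrix (Fin 2) (Fin 2) ℤ, G1 * G1' = 1 →
        (∃ (G G' : Matrix (Fin 2) (Fin 2) ℤ) (C : Matrix (Fin 2) (Fin 2) ℕ), G * G' = 1 ∧
          toZ C = G * (G1 * !![a, b; c, d] * G1') * G') →
        ∃ (G G' : Matrix (Fin 2) (Fin 2) ℤ) (C : Matrix (Fin 2) (Fin 2) ℕ), G * G' = 1 ∧
          toZ C = G * !![a, b; c, d] * G' := by
      rintro G1 G1' e1 ⟨G, G', C, e2, e3⟩
      refine ⟨G * G1, G1' * G', C, ?_, ?_⟩
      · rw [Matrix.mul_assoc, ← Matrix.mul_assoc G1, e1, Matrix.one_mul, e2]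
      · rw [e3]
        simp only [Matrix.mul_assoc]
    rcases lt_trichotomy (b * c) 0 with hbc | hbc | hbc
    · -- the descent
      have hx : -4 * (b * c) ≤ (a - d) ^ 2 := by
        rw [key]
        linarith
      have hne : (a - d) ^ 2 ≠ -4 * (b * c) := by
        intro e
        have e1 : (0 : ℤ) ^ 2 = (t : ℤ) ^ 2 - 4 * D := by linarith
        exact h.2 0 e1
      have hb0 : b ≠ 0 := by
        rintro rfl
        simp at hbc
      have hc0 : c ≠ 0 := by
        rintro rfl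
        simp at hbc
      rcases le_total |c| |b| with hcb | hcb
      · obtain ⟨s, hs⟩ := norm_sgn (a - d) c hc0 (norm_abs (a - d) b c hbc hx hne hcb)
        refine step !![1, s; 0, 1] !![1, -s; 0, 1] (norm_e1 s) ?_
        refine ih ((a - d) + 2 * (s * c)).natAbs (by rw [hn']; exact hs) _ ?_ ?_ ?_
        · rw [norm_up]
          show a + s * c + (d - s * c) = t
          rw [← ht']
          ring
        · rw [norm_up, Matrix.det_fin_two_of, ← hD]
          ring
        · rw [norm_up]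
          show ((a - d) + 2 * (s * c)).natAbs = (a + s * c - (d - s * c)).natAbs
          congr 1
          ring
      · have hbc' : c * b < 0 := by rwa [mul_comm]
        obtain ⟨s, hs⟩ := norm_sgn (a - d) b hb0 (norm_abs (a - d) c b hbc' (by rwa [mul_comm c b])
          (by rwa [mul_comm c b]) hcb)
        refine step !![1, 0; -s, 1] !![1, 0; - -s, 1] (norm_e2 (-s)) ?_
        refine ih ((a - d) + 2 * (s * b)).natAbs (by rw [hn']; exact hs) _ ?_ ?_ ?_
        · rw [norm_lo]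
          show a - -s * b + (d + -s * b) = t
          rw [← ht']
          ring
        · rw [norm_lo, Matrix.det_fin_two_of, ← hD]
          ring
        · rw [norm_lo]
          show ((a - d) + 2 * (s * b)).natAbs = (a - -s * b - (d + -s * b)).natAbs
          congr 1
          ring
    · exfalso
      rw [hbc, mul_zero, sub_zero] at key
      exact h.2 _ key
    · have had : 0 < (a + 1) * (d + 1) := by
        have h0 := h.1.2
        nlinarith
      have hpos : 0 ≤ a ∧ 0 ≤ d := by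
        rcases mul_pos_iff.1 had with h1 | h1
        · omega
        · exfalso
          have : (0 : ℤ) ≤ t := Int.natCast_nonneg t
          omega
      obtain ⟨ha, hd0⟩ := hpos
      rcases mul_pos_iff.1 hbc with ⟨hb, hc⟩ | ⟨hb, hc⟩
      · refine ⟨1, 1, !![a.toNat, b.toNat; c.toNat, d.toNat], by rw [Matrix.one_mul], ?_⟩
        rw [Matrix.one_mul, Matrix.mul_one]
        ext i j
        fin_cases i <;> fin_cases j <;> simp [toZ] <;> omega
      · refine ⟨!![1, 0; 0, -1], !![1, 0; 0, -1], !![a.toNat, (-b).toNat; (-c).toNat, d.toNat], ?_, ?_⟩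
        · ext i j
          fin_cases i <;> fin_cases j <;> simp [Matrix.mul_apply, Fin.sum_univ_two]
        · ext i j
          fin_cases i <;> fin_cases j <;> simp [toZ, Matrix.mul_apply, Fin.sum_univ_two] <;> omega

private theorem norm_pos (h : Irr t D) {C : Matrix (Fin 2) (Fin 2) ℕ} {S : Matrix (Fin 2) (Fin 2) ℤ}
    (hB : Cls t D B) (hC : Cls t D C) (hS : S * toZ B = toZ C * S) (hdet : S.det ≠ 0) :
    (S 0 0 : ℝ) * rho t D B 0 + (S 0 1 : ℝ) * rho t D B 1 ≠ 0 := by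
  intro h0
  have e0 := eig_rho h hB 0
  have e1 := eig_rho h hB 1
  have hs : ∀ i j, S i 0 * (B 0 j : ℤ) + S i 1 * (B 1 j : ℤ) =
      (C i 0 : ℤ) * S 0 j + (C i 1 : ℤ) * S 1 j := by
    intro i j
    have := congrFun (congrFun hS i) j
    simpa [Matrix.mul_apply, Fin.sum_univ_two, toZ] using this
  have hs' : ∀ i j, (S i 0 : ℝ) * (B 0 j : ℝ) + (S i 1 : ℝ) * (B 1 j : ℝ) =
      (C i 0 : ℝ) * (S 0 j : ℝ) + (C i 1 : ℝ) * (S 1 j : ℝ) := by
    intro i j
    exact_mod_cast hs i j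
  have a0 := hs' 0 0
  have a1 := hs' 0 1
  have hC01 := (Cls.entries h hC).1
  have hc : (0 : ℝ) < C 0 1 := by exact_mod_cast hC01
  have k : (C 0 1 : ℝ) * ((S 1 0 : ℝ) * rho t D B 0 + (S 1 1 : ℝ) * rho t D B 1) = 0 := by
    linear_combination (lam t D - C 0 0) * h0 + (S 0 0 : ℝ) * e0 + (S 0 1 : ℝ) * e1 -
      rho t D B 0 * a0 - rho t D B 1 * a1
  have h1 : (S 1 0 : ℝ) * rho t D B 0 + (S 1 1 : ℝ) * rho t D B 1 = 0 := by
    rcases mul_eq_zero.1 k with k1 | k1
    · exact absurd k1 hc.ne'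
    · exact k1
  have hr := rho_pos h hB 0
  have hdet' : ((S 0 0 : ℝ) * S 1 1 - S 0 1 * S 1 0) * rho t D B 0 = 0 := by
    linear_combination (S 1 1 : ℝ) * h0 - (S 0 1 : ℝ) * h1
  rcases mul_eq_zero.1 hdet' with k1 | k1
  · apply hdet
    rw [Matrix.det_fin_two]
    exact_mod_cast k1
  · exact hr.ne' k1

/-- the sublattice with basis matrix `N` has a good basis -/
theorem rel_norm (h : Irr t D) (hB : Cls t D B) {N R : Matrix (Fin 2) (Fin 2) ℤ} (hN : N.det ≠ 0)
    (hBR : toZ B = R * N) :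
    ∃ (G G' : Matrix (Fin 2) (Fin 2) ℤ) (C : Matrix (Fin 2) (Fin 2) ℕ), G * G' = 1 ∧
      Rel t D B C (G * N) := by
  have tB : (toZ B).trace = t := by
    rw [Matrix.trace_fin_two]
    have := hB.1
    show ((B 0 0 : ℕ) : ℤ) + ((B 1 1 : ℕ) : ℤ) = t
    exact_mod_cast this
  have dB : (toZ B).det = D := by
    rw [Matrix.det_fin_two]
    have := hB.2
    show ((B 0 0 : ℕ) : ℤ) * ((B 1 1 : ℕ) : ℤ) - ((B 0 1 : ℕ) : ℤ) * ((B 1 0 : ℕ) : ℤ) = D
    have h2 : ((B 0 0 : ℕ) : ℤ) * ((B 1 1 : ℕ) : ℤ) = ((B 0 1 : ℕ) : ℤ) * ((B 1 0 : ℕ) : ℤ) + D := by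
      exact_mod_cast this
    linarith
  have tH : (N * R).trace = t := by rw [Matrix.trace_mul_comm, ← hBR, tB]
  have dH : (N * R).det = D := by
    rw [Matrix.det_mul, mul_comm, ← Matrix.det_mul, ← hBR, dB]
  have hd : 4 * (D : ℤ) ≤ (t : ℤ) ^ 2 := by
    have h1 := Cls.disc h hB
    have h2 : 4 * (D : ℝ) ≤ (t : ℝ) ^ 2 := h1.le
    exact_mod_cast h2
  obtain ⟨G, G', C, hG, hC⟩ := norm_exists h hd (N * R) (by rw [← tH, Matrix.trace_fin_two]) dH
  have hG' : G' * G = 1 := mul_eq_one_comm.1 hG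
  have tC : (toZ C).trace = t := by
    rw [hC, Matrix.trace_mul_comm, ← Matrix.mul_assoc, hG', Matrix.one_mul, tH]
  have dC : (toZ C).det = D := by
    have h1 : G.det * G'.det = 1 := by rw [← Matrix.det_mul, hG, Matrix.det_one]
    rw [hC, Matrix.det_mul, Matrix.det_mul, dH, mul_right_comm, h1, one_mul]
  have hCc : Cls t D C := by
    refine ⟨?_, ?_⟩
    · rw [Matrix.trace_fin_two] at tC
      have : ((C 0 0 : ℕ) : ℤ) + ((C 1 1 : ℕ) : ℤ) = t := tC
      exact_mod_cast this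
    · rw [Matrix.det_fin_two] at dC
      have h1 : ((C 0 0 : ℕ) : ℤ) * ((C 1 1 : ℕ) : ℤ) - ((C 0 1 : ℕ) : ℤ) * ((C 1 0 : ℕ) : ℤ) = D := dC
      have h2 : ((C 0 0 : ℕ) : ℤ) * ((C 1 1 : ℕ) : ℤ) = ((C 0 1 : ℕ) : ℤ) * ((C 1 0 : ℕ) : ℤ) + D := by
        linarith
      exact_mod_cast h2
  have hGd : G.det ≠ 0 := by
    intro h0
    have h1 : G.det * G'.det = 1 := by rw [← Matrix.det_mul, hG, Matrix.det_one]
    rw [h0, zero_mul] at h1
    exact zero_ne_one h1
  have hSd : (G * N).det ≠ 0 := by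
    rw [Matrix.det_mul]
    exact mul_ne_zero hGd hN
  have hS : G * N * toZ B = toZ C * (G * N) := by
    have e1 : toZ C * (G * N) = G * (N * R) * (G' * G) * N := by
      rw [hC]
      simp only [Matrix.mul_assoc]
    rw [e1, hG', Matrix.mul_one, hBR]
    simp only [Matrix.mul_assoc]
  have hne := norm_pos h hB hCc hS hSd
  rcases lt_or_gt_of_ne hne with hlt | hgt
  · refine ⟨-G, -G', C, by rw [neg_mul_neg, hG], hB, hCc, ?_, ?_, ?_⟩
    · rw [Matrix.neg_mul, Matrix.neg_mul, Matrix.mul_neg, hS]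
    · rw [Matrix.det_mul, Matrix.det_neg]
      simpa using ⟨hGd, hN⟩
    · rw [Matrix.neg_mul, Matrix.neg_apply, Matrix.neg_apply]
      push_cast
      linarith
  · exact ⟨G, G', C, hG, hB, hCc, hS, hSd, hgt⟩

end Pool.Agent.DimRep.TB2
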