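import Pool.Agent.Lib.MP_5f1e54_an.TB2.Mov
import Pool.Agent.Lib.MP_5f1e54_an.TB2.Norm

/-!
# TB-Ch: chains of sublattices

`split_off`: `p` prime, `p ∣ det S`. In `ZMod p`: `S` is singular, `u ≠ 0` with `S u = 0` (`Matrix.exists_mulVec_eq_zero_iff`). All
`B^j u` satisfy `S B^j u = C^j S u = 0`, and `B^m u = T S u = 0`: let `j` be maximal with `B^j u ≠ 0` (`Nat.find`), replace `u` by `B^j u`: `S u = 0`,
`B u = 0`, `u ≠ 0`. Lift `u` to integers. `N`: if `u 0 ≠ 0` in `ZMod p`: `w` an integer with `w = u 1 / u 0` mod `p`,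
`N = !![-w, 1; p, 0]` (the rows span `{v : v 0 + w v 1 ≡ 0 mod p}`); if `u 0 = 0`: `N = !![1, 0; 0, p]`. Every integral matrix `M` with `M u = 0` mod `p` is
`M = M' N` with `M'` integral. So `S = S' N`, `B = R N`.
`chain`: strong induction on `n = |det S|`, `B` and `S` generalized. `n = 1`: `lnk_uni` (`S⁻¹` is integral: the adjugate times `det S`).
`n > 1`: `p = n.minFac`, `split_off`, `rel_norm`: `G`, `G'`, `B1`, `Rel B B1 (G N)`, `det (G N) = ± p`, `toZ B = (R G') (G N)`: `hp p` gives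
`Lnk B B1 (zQ (G N))`. `S1 = S' G'`, `S = S1 (G N)`, `|det S1| = n / p`, `Rel B1 C S1`: `S1 B1 (G N) = S1 (G N) B = S B = C S = C S1 (G N)` and
`det (G N) ≠ 0`; positivity: `S1 (G N) rho B = S rho B`, `(G N) rho B = κ rho B1` with `κ > 0`. `T1 S1 = B1^m` with `T1 = G N T`: `B1^m (G N) =
(G N) B^m = G N T S1 (G N)`. Induction, `Lnk.trans`.
`free`: `B = R N`, `|det N| = p0`, `C = N R`; `det R = D / det N = ± D'`; `Rel C B R`: `R C = R N R = B R`, positivity: `N rho B = κ rho C`,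
`R N rho B = B rho B = lam rho B`, so `R rho C = (lam / κ) rho B`. `chain` for `R` (`T = N`, `m = 1`): the primes `p` dividing `det R` divide
`D'`, so `p ≠ p0`. `Lnk C B (zQ R)`, `Lnk.symm`, `Lnk.self B`: `Lnk B C ((zQ R)⁻¹ * toQ B)`, and `(zQ R)⁻¹ * toQ B = zQ N`.
-/

open Matrix

namespace Pool.Agent.DimRep.TB2

variable {t : ℕ} {D : ℤ} {B C : Matrix (Fin 2) (Fin 2) ℕ} {S : Matrix (Fin 2) (Fin 2) ℤ}

/-- a vector in the kernels of `S` and of `B` -/
private theorem ch_vec {K : Type} [CommRing K] {S B C : Matrix (Fin 2) (Fin 2) K} (h : S * B = C * S) (m : ℕ) :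
    ∀ u : Fin 2 → K, u ≠ 0 → S *ᵥ u = 0 → (B ^ m) *ᵥ u = 0 →
      ∃ v : Fin 2 → K, v ≠ 0 ∧ S *ᵥ v = 0 ∧ B *ᵥ v = 0 := by
  induction m with
  | zero =>
    intro u hu _ h2
    rw [pow_zero, Matrix.one_mulVec] at h2
    exact absurd h2 hu
  | succ m ih =>
    intro u hu h1 h2
    by_cases h3 : B *ᵥ u = 0
    · exact ⟨u, hu, h1, h3⟩
    · refine ih (B *ᵥ u) h3 ?_ ?_
      · rw [Matrix.mulVec_mulVec, h, ← Matrix.mulVec_mulVec, h1, Matrix.mulVec_zero]
      · rw [Matrix.mulVec_mulVec, ← pow_succ, h2]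

/-- the matrices which annihilate a vector modulo `p` are the multiples of a matrix of determinant `± p` -/
private theorem ch_fac {p : ℕ} [Fact p.Prime] (v : Fin 2 → ZMod p) (hv : v ≠ 0) :
    ∃ N : Matrix (Fin 2) (Fin 2) ℤ, N.det.natAbs = p ∧ ∀ M : Matrix (Fin 2) (Fin 2) ℤ,
      (∀ i, (M i 0 : ZMod p) * v 0 + (M i 1 : ZMod p) * v 1 = 0) →
        ∃ M' : Matrix (Fin 2) (Fin 2) ℤ, M = M' * N := by
  by_cases h0 : v 0 = 0
  · have h1 : v 1 ≠ 0 := by
      intro h1
      apply hv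
      ext i
      fin_cases i
      · exact h0
      · exact h1
    refine ⟨!![1, 0; 0, (p : ℤ)], ?_, ?_⟩
    · rw [Matrix.det_fin_two]
      simp
    · intro M hM
      have h2 : ∀ i, ∃ k : ℤ, M i 1 = p * k := by
        intro i
        have h3 := hM i
        rw [h0, mul_zero, zero_add] at h3
        have h4 : (M i 1 : ZMod p) = 0 := (mul_eq_zero.1 h3).resolve_right h1
        exact (ZMod.intCast_zmod_eq_zero_iff_dvd _ _).1 h4
      choose k hk using h2
      refine ⟨!![M 0 0, k 0; M 1 0, k 1], ?_⟩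
      ext i j
      fin_cases i <;> fin_cases j <;> simp [Matrix.mul_apply, Fin.sum_univ_two, hk, mul_comm]
  · have hw : ∃ w : ℤ, (w : ZMod p) * v 0 = v 1 := by
      refine ⟨((v 1 / v 0).val : ℤ), ?_⟩
      rw [Int.cast_natCast, ZMod.natCast_zmod_val, div_mul_cancel₀ _ h0]
    obtain ⟨w, hw⟩ := hw
    refine ⟨!![-w, 1; (p : ℤ), 0], ?_, ?_⟩
    · rw [Matrix.det_fin_two]
      simp
    · intro M hM
      have h2 : ∀ i, ∃ k : ℤ, M i 0 + M i 1 * w = p * k := by
        intro i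
        have h3 := hM i
        rw [← hw] at h3
        have h4 : ((M i 0 : ZMod p) + (M i 1 : ZMod p) * w) * v 0 = 0 := by
          linear_combination h3
        have h5 : ((M i 0 + M i 1 * w : ℤ) : ZMod p) = 0 := by
          push_cast
          exact (mul_eq_zero.1 h4).resolve_right h0
        exact (ZMod.intCast_zmod_eq_zero_iff_dvd _ _).1 h5
      choose k hk using h2
      refine ⟨!![M 0 1, k 0; M 1 1, k 1], ?_⟩
      have k0 := hk 0
      have k1 := hk 1
      ext i j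
      fin_cases i <;> fin_cases j <;> simp [Matrix.mul_apply, Fin.sum_univ_two] <;> linarith

private theorem ch_cancel {X Y M : Matrix (Fin 2) (Fin 2) ℤ} (hM : M.det ≠ 0) (h : X * M = Y * M) : X = Y := by
  have h1 : X * M * M.adjugate = Y * M * M.adjugate := by rw [h]
  rw [Matrix.mul_assoc, Matrix.mul_assoc, Matrix.mul_adjugate, Matrix.mul_smul, Matrix.mul_smul,
    Matrix.mul_one, Matrix.mul_one] at h1
  ext i j
  have h2 := congrFun (congrFun h1 i) j
  simp only [Matrix.smul_apply, smul_eq_mul] at h2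
  exact mul_left_cancel₀ hM h2

theorem split_off {p : ℕ} (hp : p.Prime) (hSB : S * toZ B = toZ C * S) (hpS : (p : ℤ) ∣ S.det)
    (hT : ∃ (T : Matrix (Fin 2) (Fin 2) ℤ) (m : ℕ), T * S = toZ B ^ m) :
    ∃ N S' R : Matrix (Fin 2) (Fin 2) ℤ, N.det.natAbs = p ∧ S = S' * N ∧ toZ B = R * N := by
  have : Fact p.Prime := ⟨hp⟩
  obtain ⟨T, m, hT⟩ := hT
  set f : Matrix (Fin 2) (Fin 2) ℤ →+* Matrix (Fin 2) (Fin 2) (ZMod p) :=
    (Int.castRingHom (ZMod p)).mapMatrix with hf
  have hdet : (f S).det = 0 := by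
    rw [hf, ← RingHom.map_det]
    have := (ZMod.intCast_zmod_eq_zero_iff_dvd S.det p).2 hpS
    simpa using this
  obtain ⟨u, hu, h1⟩ := Matrix.exists_mulVec_eq_zero_iff.2 hdet
  have hC : f S * f (toZ B) = f (toZ C) * f S := by rw [← map_mul, hSB, map_mul]
  have hm : (f (toZ B) ^ m) *ᵥ u = 0 := by
    rw [← map_pow, ← hT, map_mul, ← Matrix.mulVec_mulVec, h1, Matrix.mulVec_zero]
  obtain ⟨v, hv, h2, h3⟩ := ch_vec hC m u hu h1 hm
  obtain ⟨N, hN, hM⟩ := ch_fac v hv
  have key : ∀ M : Matrix (Fin 2) (Fin 2) ℤ, f M *ᵥ v = 0 →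
      ∀ i, (M i 0 : ZMod p) * v 0 + (M i 1 : ZMod p) * v 1 = 0 := by
    intro M h4 i
    have h5 := congrFun h4 i
    simpa [hf, Matrix.mulVec, dotProduct, Fin.sum_univ_two] using h5
  obtain ⟨S', hS'⟩ := hM S (key S h2)
  obtain ⟨R, hR⟩ := hM (toZ B) (key _ h3)
  exact ⟨N, S', R, hN, hS', hR⟩

private theorem ch_aux (h : Irr t D) (n : ℕ) : ∀ (B : Matrix (Fin 2) (Fin 2) ℕ) (S : Matrix (Fin 2) (Fin 2) ℤ),
    Rel t D B C S → (∃ (T : Matrix (Fin 2) (Fin 2) ℤ) (m : ℕ), T * S = toZ B ^ m) →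
      (∀ p : ℕ, p.Prime → p ∣ S.det.natAbs → OKp t D p) → S.det.natAbs = n → Lnk B C (zQ S) := by
  induction n using Nat.strong_induction_on with
  | _ n ih =>
    intro B S hR hT hp hn
    have hn0 : n ≠ 0 := by
      intro h0
      rw [h0] at hn
      exact hR.2.2.2.1 (Int.natAbs_eq_zero.1 hn)
    by_cases hn1 : n = 1
    · have h1 : S.det * S.det = 1 := by
        have h2 := Int.natAbs_mul_self' S.det
        rw [hn, hn1] at h2
        simpa using h2.symm
      refine lnk_uni h hR (S' := S.det • S.adjugate) ?_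
      rw [Matrix.mul_smul, Matrix.mul_adjugate, smul_smul, h1, one_smul]
    · have hpp : n.minFac.Prime := Nat.minFac_prime hn1
      have hpd : n.minFac ∣ S.det.natAbs := by rw [hn]; exact Nat.minFac_dvd n
      obtain ⟨N, S', R, hN, hS', hBR⟩ := split_off hpp hR.2.2.1 (Int.natCast_dvd.2 hpd) hT
      have hN0 : N.det ≠ 0 := by
        intro h0
        rw [h0] at hN
        exact hpp.ne_zero hN.symm
      obtain ⟨G, G', B1, hG, hRel⟩ := rel_norm h hR.1 hN0 hBR
      have hG' : G' * G = 1 := mul_eq_one_comm.1 hG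
      have hGd : G.det.natAbs = 1 := by
        have h1 : G.det * G'.det = 1 := by rw [← Matrix.det_mul, hG, Matrix.det_one]
        exact Int.isUnit_iff_natAbs_eq.mp (IsUnit.of_mul_eq_one _ h1)
      have hGN : (G * N).det.natAbs = n.minFac := by
        rw [Matrix.det_mul, Int.natAbs_mul, hGd, one_mul, hN]
      have hL1 : Lnk B B1 (zQ (G * N)) := by
        refine hp _ hpp hpd B B1 (G * N) hRel hGN ⟨R * G', ?_⟩
        calc toZ B = R * (G' * G) * N := by rw [hG', Matrix.mul_one, hBR]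
          _ = R * G' * (G * N) := by simp only [Matrix.mul_assoc]
      have hS1 : S = S' * G' * (G * N) := by
        calc S = S' * (G' * G) * N := by rw [hG', Matrix.mul_one, hS']
          _ = S' * G' * (G * N) := by simp only [Matrix.mul_assoc]
      obtain ⟨S1, hS1d⟩ : ∃ S1, S1 = S' * G' := ⟨_, rfl⟩
      rw [← hS1d] at hS1
      have hGN0 : (G * N).det ≠ 0 := hRel.2.2.2.1
      have hdet : n = S1.det.natAbs * n.minFac := by
        have h9 : S.det.natAbs = S1.det.natAbs * (G * N).det.natAbs := by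
          rw [hS1, Matrix.det_mul, Int.natAbs_mul]
        rw [hn, hGN] at h9
        exact h9
      have hR1 : Rel t D B1 C S1 := by
        refine ⟨hRel.2.1, hR.2.1, ?_, ?_, ?_⟩
        · apply ch_cancel hGN0
          rw [Matrix.mul_assoc, ← hRel.2.2.1, ← Matrix.mul_assoc, ← hS1, hR.2.2.1, Matrix.mul_assoc, ← hS1]
        · intro h0
          rw [h0] at hdet
          simp only [Int.natAbs_zero, zero_mul] at hdet
          exact hn0 hdet
        · obtain ⟨κ, hκ, hk⟩ := hRel.eq_rho h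
          have k0 := hk 0
          have k1 := hk 1
          have h4 := hR.2.2.2.2
          have e : (S 0 0 : ℝ) * rho t D B 0 + (S 0 1 : ℝ) * rho t D B 1 =
              κ * ((S1 0 0 : ℝ) * rho t D B1 0 + (S1 0 1 : ℝ) * rho t D B1 1) := by
            have e0 : (S 0 0 : ℝ) = S1 0 0 * (G * N) 0 0 + S1 0 1 * (G * N) 1 0 := by
              have := congrFun (congrFun hS1 0) 0
              rw [Matrix.mul_apply, Fin.sum_univ_two] at this
              exact_mod_cast this
            have e1 : (S 0 1 : ℝ) = S1 0 0 * (G * N) 0 1 + S1 0 1 * (G * N) 1 1 := by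
              have := congrFun (congrFun hS1 0) 1
              rw [Matrix.mul_apply, Fin.sum_univ_two] at this
              exact_mod_cast this
            rw [e0, e1]
            linear_combination (S1 0 0 : ℝ) * k0 + (S1 0 1 : ℝ) * k1
          rw [e] at h4
          by_contra hc
          have := mul_nonpos_of_nonneg_of_nonpos hκ.le (not_lt.1 hc)
          linarith
      have hT1 : ∃ (T : Matrix (Fin 2) (Fin 2) ℤ) (m : ℕ), T * S1 = toZ B1 ^ m := by
        obtain ⟨T, m, hT⟩ := hT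
        refine ⟨G * N * T, m, ?_⟩
        apply ch_cancel hGN0
        have h5 : SemiconjBy (G * N) (toZ B) (toZ B1) := hRel.2.2.1
        have h6 : G * N * toZ B ^ m = toZ B1 ^ m * (G * N) := h5.pow_right m
        rw [Matrix.mul_assoc, Matrix.mul_assoc, ← hS1, ← Matrix.mul_assoc, Matrix.mul_assoc (G * N), hT, h6]
      have hlt : S1.det.natAbs < n := by
        have h7 : 0 < S1.det.natAbs := Int.natAbs_pos.2 hR1.2.2.2.1
        calc S1.det.natAbs = S1.det.natAbs * 1 := (mul_one _).symm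
          _ < S1.det.natAbs * n.minFac := Nat.mul_lt_mul_of_pos_left hpp.one_lt h7
          _ = n := hdet.symm
      have hL2 := ih _ hlt B1 S1 hR1 hT1 (fun q hq hqd => hp q hq (by
        rw [hn, hdet]
        exact Dvd.dvd.mul_right hqd _)) rfl
      have h8 := hL1.trans hL2
      rwa [← zQ_mul, ← hS1] at h8

theorem chain (h : Irr t D) (hR : Rel t D B C S)
    (hT : ∃ (T : Matrix (Fin 2) (Fin 2) ℤ) (m : ℕ), T * S = toZ B ^ m)
    (hp : ∀ p : ℕ, p.Prime → p ∣ S.det.natAbs → OKp t D p) : Lnk B C (zQ S) :=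
  ch_aux h S.det.natAbs B S hR hT hp rfl

theorem free (h : Irr t D) {p0 : ℕ} {D' : ℤ} (hp0 : p0.Prime) (hD : D = p0 * D')
    (hD' : ¬ (p0 : ℤ) ∣ D')
    (hp : ∀ p : ℕ, p.Prime → (p : ℤ) ∣ D → p ≠ p0 → OKp t D p) : OKp t D p0 := by
  rintro B C N hR hN ⟨R, hBR⟩
  have hN0 : N.det ≠ 0 := hR.2.2.2.1
  have hC : toZ C = N * R := by
    symm
    apply ch_cancel hN0
    rw [Matrix.mul_assoc, ← hBR, hR.2.2.1]
  have hBd : (toZ B).det = D := by
    rw [Matrix.det_fin_two]
    have h2 := hR.1.2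
    show ((B 0 0 : ℕ) : ℤ) * ((B 1 1 : ℕ) : ℤ) - ((B 0 1 : ℕ) : ℤ) * ((B 1 0 : ℕ) : ℤ) = D
    linarith
  have hRd : R.det.natAbs = D'.natAbs := by
    have h1 : D.natAbs = R.det.natAbs * p0 := by
      have h2 := congrArg Int.natAbs hBd
      rw [hBR, Matrix.det_mul, Int.natAbs_mul, hN] at h2
      exact h2.symm
    have h3 : R.det.natAbs * p0 = D'.natAbs * p0 := by
      rw [← h1, hD, Int.natAbs_mul, Int.natAbs_natCast, mul_comm]
    exact Nat.eq_of_mul_eq_mul_right hp0.pos h3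
  have hD0 : D ≠ 0 := h.1.1
  have hD'0 : D' ≠ 0 := by
    intro h0
    rw [h0, mul_zero] at hD
    exact hD0 hD
  have hR0 : R.det ≠ 0 := by
    intro h0
    rw [h0, Int.natAbs_zero] at hRd
    exact hD'0 (Int.natAbs_eq_zero.1 hRd.symm)
  have hRel : Rel t D C B R := by
    refine ⟨hR.2.1, hR.1, ?_, hR0, ?_⟩
    · rw [hC, hBR, Matrix.mul_assoc]
    · obtain ⟨κ, hκ, hk⟩ := hR.eq_rho h
      have k0 := hk 0
      have k1 := hk 1
      have e0 : (B 0 0 : ℝ) = R 0 0 * N 0 0 + R 0 1 * N 1 0 := by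
        have := congrFun (congrFun hBR 0) 0
        rw [Matrix.mul_apply, Fin.sum_univ_two] at this
        have h3 : ((B 0 0 : ℕ) : ℤ) = R 0 0 * N 0 0 + R 0 1 * N 1 0 := this
        exact_mod_cast h3
      have e1 : (B 0 1 : ℝ) = R 0 0 * N 0 1 + R 0 1 * N 1 1 := by
        have := congrFun (congrFun hBR 0) 1
        rw [Matrix.mul_apply, Fin.sum_univ_two] at this
        have h3 : ((B 0 1 : ℕ) : ℤ) = R 0 0 * N 0 1 + R 0 1 * N 1 1 := this
        exact_mod_cast h3
      have h4 := eig_rho h hR.1 0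
      have hl : 0 < lam t D :=
        lt_of_le_of_lt (Nat.cast_nonneg _) (hR.1.lam_lt h).1
      have h5 : 0 < lam t D * rho t D B 0 := mul_pos hl (rho_pos h hR.1 0)
      have e : lam t D * rho t D B 0 = κ * ((R 0 0 : ℝ) * rho t D C 0 + (R 0 1 : ℝ) * rho t D C 1) := by
        rw [← h4, e0, e1]
        linear_combination (R 0 0 : ℝ) * k0 + (R 0 1 : ℝ) * k1
      rw [e] at h5
      by_contra hc
      have := mul_nonpos_of_nonneg_of_nonpos hκ.le (not_lt.1 hc)
      linarith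
  have hL : Lnk C B (zQ R) := by
    refine chain h hRel ⟨N, 1, by rw [pow_one, hC]⟩ ?_
    intro p hpp hpd
    rw [hRd] at hpd
    have hpd' : (p : ℤ) ∣ D' := Int.natCast_dvd.2 hpd
    refine hp p hpp ?_ ?_
    · rw [hD]
      exact Dvd.dvd.mul_left hpd' _
    · rintro rfl
      exact hD' hpd'
  have hzR : IsUnit (zQ R).det := isUnit_iff_ne_zero.2 hL.1
  have hBq : toQ B = zQ R * zQ N := by rw [← zQ_toZ, hBR, zQ_mul]
  have hBdet : (toQ B).det ≠ 0 := by
    rw [hBq, Matrix.det_mul]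
    refine mul_ne_zero hL.1 ?_
    have h6 : (zQ N).det = ((N.det : ℤ) : ℚ) := by
      unfold zQ
      rw [Matrix.det_fin_two, Matrix.det_fin_two]
      simp only [Matrix.map_apply]
      push_cast
      ring
    rw [h6]
    exact_mod_cast hN0
  have h7 := (Lnk.self hBdet).trans hL.symm
  rwa [hBq, ← Matrix.mul_assoc, Matrix.nonsing_inv_mul _ hzR, Matrix.one_mul] at h7

end Pool.Agent.DimRep.TB2
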