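import Pool.Agent.Lib.MP_5f1e54_an.TB2.Lnk

/-!
# TB-Cls: eigenvalues, eigenvectors, oriented changes of basis

Write `l = lam t D`, `m = mu t D`. `B` in the class: `t² - 4D = (a - d)² + 4bc ≥ 0` and it is not a square, so `b, c ≥ 1`;
`a d = b c + D > 0`, so `a, d ≥ 1`. `l + m = t`, `l m = D`, so `0 < m < l`; `(l - a)(l - d) = b c > 0` and
`(l - a) + (l - d) = l - m > 0`, so `l > a, d`. `l` is irrational (if `b l = a` with `b ≠ 0` then `t² - 4D` is the square of a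
rational number, so of an integer).
`eq_rho`: `w i = S i 0 ρ_0 + S i 1 ρ_1` satisfies `C w = l w` (from `S B = C S`, `B ρ = l ρ`), so `b' w_1 = (l - a') w_0`, so
`w = κ rho C`, `κ = w_0 / b' > 0`. `eq_tau`: `z = tau C · S` satisfies `z B = l z`, so `z_0 (l - a) = c z_1`, `z = κ' tau B`,
`κ' = z_0 / c`; `κ' (tau B · rho B) = tau C · S rho B = κ (tau C · rho C) > 0`, so `κ' > 0`.
`pos_entries`: `H w = l w`, `z H = l z`, `w, z > 0`: `h01 w1 = (l - h00) w0`, `h10 w0 = (l - h11) w1`, `z1 h10 = (l - h00) z0`: so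
`h01`, `h10`, `l - h00`, `l - h11` have the same sign, their sum `(l - h00) + (l - h11) = l - m > 0`: all are `> 0`;
`h00 - m = l - h11 > 0`.
`rel_of`: `H = E B E'` has trace `t`, determinant `D`, `w = E rho B`, `z = tau B E'`; `pos_entries`.
-/

open Matrix

namespace Pool.Agent.DimRep.TB2

variable {t : ℕ} {D : ℤ} {B C G : Matrix (Fin 2) (Fin 2) ℕ} {S T S' : Matrix (Fin 2) (Fin 2) ℤ}

private theorem ppr {a b : ℝ} (h : 0 < a * b) (hb : 0 ≤ b) : 0 < a := by
  by_contra hc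
  have := mul_nonpos_of_nonpos_of_nonneg (not_lt.1 hc) hb
  linarith

private theorem ppl {a b : ℝ} (h : 0 < a * b) (ha : 0 ≤ a) : 0 < b := by
  rw [mul_comm] at h
  exact ppr h ha

private theorem disc_eq (hB : Cls t D B) :
    (t : ℤ) ^ 2 - 4 * D = ((B 0 0 : ℤ) - B 1 1) ^ 2 + 4 * ((B 0 1 : ℤ) * B 1 0) := by
  obtain ⟨h1, h2⟩ := hB
  have h1' : (t : ℤ) = B 0 0 + B 1 1 := by exact_mod_cast h1.symm
  rw [h1']
  linear_combination (4 : ℤ) * h2

theorem Cls.entries (h : Irr t D) (hB : Cls t D B) : 1 ≤ B 0 1 ∧ 1 ≤ B 1 0 := by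
  have hd := disc_eq hB
  obtain ⟨-, hirr⟩ := h
  have hbc : B 0 1 * B 1 0 ≠ 0 := by
    intro h0
    have h0' : (B 0 1 : ℤ) * B 1 0 = 0 := by exact_mod_cast h0
    rw [h0', mul_zero, add_zero] at hd
    exact hirr _ hd.symm
  have h1 : B 0 1 ≠ 0 := fun h0 => hbc (by rw [h0, zero_mul])
  have h2 : B 1 0 ≠ 0 := fun h0 => hbc (by rw [h0, mul_zero])
  omega

theorem Cls.disc (h : Irr t D) (hB : Cls t D B) : 4 * (D : ℝ) < (t : ℝ) ^ 2 := by
  have hd := disc_eq hB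
  obtain ⟨h1, h2⟩ := hB.entries h
  have h1' : (1 : ℤ) ≤ B 0 1 := by exact_mod_cast h1
  have h2' : (1 : ℤ) ≤ B 1 0 := by exact_mod_cast h2
  have h3 : 0 < (t : ℤ) ^ 2 - 4 * D := by
    rw [hd]
    have : 0 < (B 0 1 : ℤ) * B 1 0 := by positivity
    have := sq_nonneg ((B 0 0 : ℤ) - B 1 1)
    linarith
  have h4 : 4 * (D : ℤ) < (t : ℤ) ^ 2 := by linarith
  exact_mod_cast h4

theorem lam_facts (h : Irr t D) (hB : Cls t D B) :
    lam t D + mu t D = t ∧ lam t D * mu t D = D ∧ -1 < mu t D ∧ mu t D < lam t D := by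
  have hd := hB.disc h
  have hpos : 0 < (t : ℝ) ^ 2 - 4 * D := by linarith
  have hs := Real.sq_sqrt hpos.le
  have hs0 : 0 < √((t : ℝ) ^ 2 - 4 * D) := Real.sqrt_pos.2 hpos
  have hD : -(t : ℝ) ≤ D := by exact_mod_cast h.1.2
  have ht : (0 : ℝ) ≤ t := Nat.cast_nonneg t
  have hst : √((t : ℝ) ^ 2 - 4 * D) < t + 2 := by
    rw [Real.sqrt_lt' (by linarith)]
    nlinarith
  unfold lam mu
  refine ⟨by ring, ?_, by linarith, by linarith⟩
  have : (t + √((t : ℝ) ^ 2 - 4 * D)) / 2 * ((t - √((t : ℝ) ^ 2 - 4 * D)) / 2)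
      = ((t : ℝ) ^ 2 - √((t : ℝ) ^ 2 - 4 * D) ^ 2) / 4 := by ring
  rw [this, hs]
  ring

theorem lam_irr (h : Irr t D) (hB : Cls t D B) (a b : ℤ) (hb : b ≠ 0) : (b : ℝ) * lam t D ≠ a := by
  intro hab
  have hd := hB.disc h
  have hpos : 0 ≤ (t : ℝ) ^ 2 - 4 * D := by linarith
  have hs := Real.sq_sqrt hpos
  have h1 : (b : ℝ) * √((t : ℝ) ^ 2 - 4 * D) = 2 * a - b * t := by
    unfold lam at hab
    linarith
  have h2 : (b : ℝ) ^ 2 * ((t : ℝ) ^ 2 - 4 * D) = (2 * a - b * t) ^ 2 := by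
    rw [← h1, mul_pow, hs]
  have h3 : b ^ 2 * ((t : ℤ) ^ 2 - 4 * D) = (2 * a - b * t) ^ 2 := by exact_mod_cast h2
  have h4 : b ^ 2 ∣ (2 * a - b * t) ^ 2 := ⟨_, h3.symm⟩
  obtain ⟨n, hn⟩ := (Int.pow_dvd_pow_iff (by norm_num)).1 h4
  rw [hn, mul_pow] at h3
  exact h.2 n (mul_left_cancel₀ (pow_ne_zero 2 hb) h3).symm

theorem Cls.lam_lt (h : Irr t D) (hB : Cls t D B) :
    (B 0 0 : ℝ) < lam t D ∧ (B 1 1 : ℝ) < lam t D ∧
      (lam t D - B 0 0) * (lam t D - B 1 1) = (B 0 1 : ℝ) * B 1 0 := by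
  obtain ⟨h1, h2, h3, h4⟩ := lam_facts h hB
  obtain ⟨e1, e2⟩ := hB.entries h
  have e1' : (1 : ℝ) ≤ B 0 1 := by exact_mod_cast e1
  have e2' : (1 : ℝ) ≤ B 1 0 := by exact_mod_cast e2
  have ht : (B 0 0 : ℝ) + B 1 1 = t := by exact_mod_cast hB.1
  have hd : (B 0 0 : ℝ) * B 1 1 = B 0 1 * B 1 0 + D := by exact_mod_cast hB.2
  have key : (lam t D - B 0 0) * (lam t D - B 1 1) = (B 0 1 : ℝ) * B 1 0 := by
    have hmu : mu t D = B 0 0 + B 1 1 - lam t D := by linarith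
    rw [hmu] at h2
    nlinarith
  have hpos : 0 < (lam t D - B 0 0) * (lam t D - B 1 1) := by
    rw [key]
    positivity
  have hsum : 0 < (lam t D - B 0 0) + (lam t D - B 1 1) := by linarith
  refine ⟨?_, ?_, key⟩
  · by_contra hc
    have hc' : lam t D - B 0 0 ≤ 0 := by linarith
    have : 0 < lam t D - B 1 1 := by linarith
    nlinarith
  · by_contra hc
    have hc' : lam t D - B 1 1 ≤ 0 := by linarith
    have : 0 < lam t D - B 0 0 := by linarith
    nlinarith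

theorem rho_pos (h : Irr t D) (hB : Cls t D B) (i : Fin 2) : 0 < rho t D B i := by
  obtain ⟨e1, -⟩ := hB.entries h
  obtain ⟨h1, -, -⟩ := hB.lam_lt h
  fin_cases i
  · show (0 : ℝ) < B 0 1
    exact_mod_cast e1
  · show (0 : ℝ) < lam t D - B 0 0
    linarith

theorem tau_pos (h : Irr t D) (hB : Cls t D B) (i : Fin 2) : 0 < tau t D B i := by
  obtain ⟨-, e1⟩ := hB.entries h
  obtain ⟨h1, -, -⟩ := hB.lam_lt h
  fin_cases i
  · show (0 : ℝ) < B 1 0
    exact_mod_cast e1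
  · show (0 : ℝ) < lam t D - B 0 0
    linarith

private theorem rho0 : rho t D B 0 = B 0 1 := rfl
private theorem rho1 : rho t D B 1 = lam t D - B 0 0 := rfl
private theorem tau0 : tau t D B 0 = B 1 0 := rfl
private theorem tau1 : tau t D B 1 = lam t D - B 0 0 := rfl

theorem eig_rho (h : Irr t D) (hB : Cls t D B) (i : Fin 2) :
    (B i 0 : ℝ) * rho t D B 0 + (B i 1 : ℝ) * rho t D B 1 = lam t D * rho t D B i := by
  obtain ⟨-, -, h1⟩ := hB.lam_lt h
  fin_cases i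
  · show (B 0 0 : ℝ) * rho t D B 0 + (B 0 1 : ℝ) * rho t D B 1 = lam t D * rho t D B 0
    rw [rho0, rho1]
    ring
  · show (B 1 0 : ℝ) * rho t D B 0 + (B 1 1 : ℝ) * rho t D B 1 = lam t D * rho t D B 1
    rw [rho0, rho1]
    linear_combination -h1

theorem eig_tau (h : Irr t D) (hB : Cls t D B) (j : Fin 2) :
    tau t D B 0 * (B 0 j : ℝ) + tau t D B 1 * (B 1 j : ℝ) = lam t D * tau t D B j := by
  obtain ⟨-, -, h1⟩ := hB.lam_lt h
  fin_cases j
  · show tau t D B 0 * (B 0 0 : ℝ) + tau t D B 1 * (B 1 0 : ℝ) = lam t D * tau t D B 0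
    rw [tau0, tau1]
    ring
  · show tau t D B 0 * (B 0 1 : ℝ) + tau t D B 1 * (B 1 1 : ℝ) = lam t D * tau t D B 1
    rw [tau0, tau1]
    linear_combination -h1

theorem rho_ne (h : Irr t D) (hB : Cls t D B) : rho t D B 0 ≠ rho t D B 1 := by
  rw [rho0, rho1]
  intro h1
  apply lam_irr h hB ((B 0 0 : ℤ) + B 0 1) 1 one_ne_zero
  push_cast
  linarith

theorem tau_ne (h : Irr t D) (hB : Cls t D B) : tau t D B 0 ≠ tau t D B 1 := by
  rw [tau0, tau1]
  intro h1
  apply lam_irr h hB ((B 0 0 : ℤ) + B 1 0) 1 one_ne_zero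
  push_cast
  linarith

/-- entries of the relation `S B = C S` -/
private theorem rel_entry {S : Matrix (Fin 2) (Fin 2) ℤ} (hSB : S * toZ B = toZ C * S) (i j : Fin 2) :
    (S i 0 : ℝ) * B 0 j + (S i 1 : ℝ) * B 1 j = (C i 0 : ℝ) * S 0 j + (C i 1 : ℝ) * S 1 j := by
  have h1 := congrFun (congrFun hSB i) j
  simp only [Matrix.mul_apply, Fin.sum_univ_two, toZ, Matrix.map_apply] at h1
  exact_mod_cast h1

private theorem det_real {S : Matrix (Fin 2) (Fin 2) ℤ} (h : S.det ≠ 0) :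
    (S 0 0 : ℝ) * S 1 1 - (S 0 1 : ℝ) * S 1 0 ≠ 0 := by
  rw [Matrix.det_fin_two] at h
  intro h1
  apply h
  exact_mod_cast h1

theorem Rel.eq_rho (h : Irr t D) (hR : Rel t D B C S) : ∃ κ : ℝ, 0 < κ ∧
    ∀ i, (S i 0 : ℝ) * rho t D B 0 + (S i 1 : ℝ) * rho t D B 1 = κ * rho t D C i := by
  obtain ⟨hB, hC, hSB, hdet, hpos⟩ := hR
  set w : Fin 2 → ℝ := fun i => (S i 0 : ℝ) * rho t D B 0 + (S i 1 : ℝ) * rho t D B 1 with hw
  have h1 : ∀ i, (C i 0 : ℝ) * w 0 + (C i 1 : ℝ) * w 1 = lam t D * w i := by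
    intro i
    have e0 := rel_entry hSB i 0
    have e1 := rel_entry hSB i 1
    have r0 := eig_rho h hB 0
    have r1 := eig_rho h hB 1
    simp only [hw]
    linear_combination (-rho t D B 0) * e0 - rho t D B 1 * e1 + (S i 0 : ℝ) * r0 + (S i 1 : ℝ) * r1
  have hc := rho_pos h hC 0
  have hw0 : 0 < w 0 := hpos
  refine ⟨w 0 / rho t D C 0, div_pos hw0 hc, fun i => ?_⟩
  have h2 := h1 0
  rw [rho0] at hc ⊢
  show w i = w 0 / (C 0 1 : ℝ) * rho t D C i
  fin_cases i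
  · show w 0 = w 0 / (C 0 1 : ℝ) * rho t D C 0
    rw [rho0]
    field_simp
  · show w 1 = w 0 / (C 0 1 : ℝ) * rho t D C 1
    rw [rho1]
    field_simp
    linear_combination h2

theorem Rel.eq_tau (h : Irr t D) (hR : Rel t D B C S) : ∃ κ : ℝ, 0 < κ ∧
    ∀ j, tau t D C 0 * (S 0 j : ℝ) + tau t D C 1 * (S 1 j : ℝ) = κ * tau t D B j := by
  obtain ⟨κ, hκ, hκ'⟩ := hR.eq_rho h
  obtain ⟨hB, hC, hSB, hdet, hpos⟩ := hR
  set z : Fin 2 → ℝ := fun j => tau t D C 0 * (S 0 j : ℝ) + tau t D C 1 * (S 1 j : ℝ) with hz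
  have h1 : ∀ j, z 0 * (B 0 j : ℝ) + z 1 * (B 1 j : ℝ) = lam t D * z j := by
    intro j
    have e0 := rel_entry hSB 0 j
    have e1 := rel_entry hSB 1 j
    have r0 := eig_tau h hC 0
    have r1 := eig_tau h hC 1
    simp only [hz]
    linear_combination tau t D C 0 * e0 + tau t D C 1 * e1 + (S 0 j : ℝ) * r0 + (S 1 j : ℝ) * r1
  have hc := tau_pos h hB 0
  have h3 : ∀ j, z j = z 0 / (B 1 0 : ℝ) * tau t D B j := by
    intro j
    rw [tau0] at hc
    fin_cases j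
    · show z 0 = z 0 / (B 1 0 : ℝ) * tau t D B 0
      rw [tau0]
      field_simp
    · show z 1 = z 0 / (B 1 0 : ℝ) * tau t D B 1
      rw [tau1]
      have h2 := h1 0
      field_simp
      linear_combination h2
  refine ⟨z 0 / (B 1 0 : ℝ), ?_, h3⟩
  -- sign
  have h4 : z 0 * rho t D B 0 + z 1 * rho t D B 1
      = κ * (tau t D C 0 * rho t D C 0 + tau t D C 1 * rho t D C 1) := by
    have k0 := hκ' 0
    have k1 := hκ' 1
    simp only [hz]
    linear_combination tau t D C 0 * k0 + tau t D C 1 * k1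
  have h5 : 0 < κ * (tau t D C 0 * rho t D C 0 + tau t D C 1 * rho t D C 1) := by
    have := rho_pos h hC 0
    have := rho_pos h hC 1
    have := tau_pos h hC 0
    have := tau_pos h hC 1
    positivity
  have h6 : 0 < tau t D B 0 * rho t D B 0 + tau t D B 1 * rho t D B 1 := by
    have := rho_pos h hB 0
    have := rho_pos h hB 1
    have := tau_pos h hB 0
    have := tau_pos h hB 1
    positivity
  rw [← h4, h3 0, h3 1] at h5
  have h7 : 0 < z 0 / (B 1 0 : ℝ) * (tau t D B 0 * rho t D B 0 + tau t D B 1 * rho t D B 1) := by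
    linarith
  exact ppr h7 h6.le

theorem Rel.refl (h : Irr t D) (hB : Cls t D B) : Rel t D B B 1 := by
  refine ⟨hB, hB, by rw [Matrix.one_mul, Matrix.mul_one], by rw [Matrix.det_one]; norm_num, ?_⟩
  have := rho_pos h hB 0
  simpa using this

theorem Rel.trans (h : Irr t D) (hR : Rel t D B C S) (hR' : Rel t D C G T) : Rel t D B G (T * S) := by
  obtain ⟨κ, hκ, hκ'⟩ := hR.eq_rho h
  obtain ⟨hB, hC, hSB, hdet, hpos⟩ := hR
  obtain ⟨-, hG, hTC, hdet', hpos'⟩ := hR'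
  refine ⟨hB, hG, ?_, ?_, ?_⟩
  · rw [Matrix.mul_assoc, hSB, ← Matrix.mul_assoc, hTC, Matrix.mul_assoc]
  · rw [Matrix.det_mul]
    exact mul_ne_zero hdet' hdet
  · have k0 := hκ' 0
    have k1 := hκ' 1
    have e : ((T * S) 0 0 : ℝ) * rho t D B 0 + ((T * S) 0 1 : ℝ) * rho t D B 1
        = κ * ((T 0 0 : ℝ) * rho t D C 0 + (T 0 1 : ℝ) * rho t D C 1) := by
      simp only [Matrix.mul_apply, Fin.sum_univ_two]
      push_cast
      linear_combination (T 0 0 : ℝ) * k0 + (T 0 1 : ℝ) * k1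
    rw [e]
    exact mul_pos hκ hpos'

theorem Rel.inv (h : Irr t D) (hR : Rel t D B C S) (hS : S * S' = 1) : Rel t D C B S' := by
  obtain ⟨κ, hκ, hκ'⟩ := hR.eq_rho h
  obtain ⟨hB, hC, hSB, hdet, hpos⟩ := hR
  have hS' : S' * S = 1 := mul_eq_one_comm.mp hS
  refine ⟨hC, hB, ?_, ?_, ?_⟩
  · calc S' * toZ C = S' * (toZ C * S) * S' := by
          rw [Matrix.mul_assoc S', Matrix.mul_assoc (toZ C), hS, Matrix.mul_one]
      _ = toZ B * S' := by
          rw [← hSB, ← Matrix.mul_assoc, hS', Matrix.one_mul]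
  · intro h0
    have h1 := congrArg Matrix.det hS
    rw [Matrix.det_mul, h0, mul_zero, Matrix.det_one] at h1
    exact zero_ne_one h1
  · have k0 := hκ' 0
    have k1 := hκ' 1
    have e00 : (S' 0 0 : ℝ) * S 0 0 + (S' 0 1 : ℝ) * S 1 0 = 1 := by
      have := congrFun (congrFun hS' 0) 0
      simp only [Matrix.mul_apply, Fin.sum_univ_two, Matrix.one_apply_eq] at this
      exact_mod_cast this
    have e01 : (S' 0 0 : ℝ) * S 0 1 + (S' 0 1 : ℝ) * S 1 1 = 0 := by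
      have := congrFun (congrFun hS' 0) 1
      simp only [Matrix.mul_apply, Fin.sum_univ_two] at this
      rw [Matrix.one_apply_ne (by decide)] at this
      exact_mod_cast this
    have e : κ * ((S' 0 0 : ℝ) * rho t D C 0 + (S' 0 1 : ℝ) * rho t D C 1) = rho t D B 0 := by
      linear_combination (-(S' 0 0 : ℝ)) * k0 - (S' 0 1 : ℝ) * k1 + rho t D B 0 * e00
        + rho t D B 1 * e01
    have hp := rho_pos h hB 0
    rw [← e] at hp
    exact ppl hp hκ.le

theorem pos_entries (h : Irr t D) (hB : Cls t D B) {H : Matrix (Fin 2) (Fin 2) ℤ}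
    (ht : H 0 0 + H 1 1 = t) (hd : H.det = D) {w z : Fin 2 → ℝ} (hw : ∀ i, 0 < w i) (hz : ∀ i, 0 < z i)
    (hHw : ∀ i, (H i 0 : ℝ) * w 0 + (H i 1 : ℝ) * w 1 = lam t D * w i)
    (hzH : ∀ j, z 0 * (H 0 j : ℝ) + z 1 * (H 1 j : ℝ) = lam t D * z j) :
    (∀ i j, 0 ≤ H i j) ∧ 0 < H 0 1 ∧ 0 < H 1 0 := by
  obtain ⟨h1, h2, h3, h4⟩ := lam_facts h hB
  have ht' : (H 0 0 : ℝ) + H 1 1 = t := by exact_mod_cast ht
  have a0 := hHw 0
  have a1 := hHw 1
  have b0 := hzH 0
  have w0 := hw 0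
  have w1 := hw 1
  have z0 := hz 0
  have z1 := hz 1
  -- `l - h00 > 0`
  have k1 : (H 0 1 : ℝ) * w 1 = (lam t D - H 0 0) * w 0 := by linarith
  have k2 : (H 1 0 : ℝ) * w 0 = (lam t D - H 1 1) * w 1 := by linarith
  have k3 : z 1 * (H 1 0 : ℝ) = (lam t D - H 0 0) * z 0 := by linarith
  have hsum : 0 < (lam t D - H 0 0) + (lam t D - H 1 1) := by linarith
  have p0 : 0 < lam t D - H 0 0 := by
    by_contra hc
    have hc' : lam t D - H 0 0 ≤ 0 := not_lt.1 hc
    have q1 : z 1 * (H 1 0 : ℝ) ≤ 0 := by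
      rw [k3]
      exact mul_nonpos_of_nonpos_of_nonneg hc' z0.le
    have q2 : (H 1 0 : ℝ) ≤ 0 := by
      by_contra hq
      have := mul_pos z1 (not_le.1 hq)
      linarith
    have q3 : (lam t D - H 1 1) * w 1 ≤ 0 := by
      rw [← k2]
      exact mul_nonpos_of_nonpos_of_nonneg q2 w0.le
    have q4 : lam t D - H 1 1 ≤ 0 := by
      by_contra hq
      have := mul_pos (not_le.1 hq) w1
      linarith
    linarith
  have p1 : 0 < (H 0 1 : ℝ) := by
    have : 0 < (H 0 1 : ℝ) * w 1 := by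
      rw [k1]
      exact mul_pos p0 w0
    exact ppr this w1.le
  have p2 : 0 < (H 1 0 : ℝ) := by
    have : 0 < z 1 * (H 1 0 : ℝ) := by
      rw [k3]
      exact mul_pos p0 z0
    exact ppl this z1.le
  have p3 : 0 < lam t D - H 1 1 := by
    have : 0 < (lam t D - H 1 1) * w 1 := by
      rw [← k2]
      exact mul_pos p2 w0
    exact ppr this w1.le
  have q1 : 0 < H 0 1 := by exact_mod_cast p1
  have q2 : 0 < H 1 0 := by exact_mod_cast p2
  have q0 : 0 ≤ H 0 0 := by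
    have : (-1 : ℝ) < H 0 0 := by linarith
    have : (-1 : ℤ) < H 0 0 := by exact_mod_cast this
    linarith
  have q3 : 0 ≤ H 1 1 := by
    have : (-1 : ℝ) < H 1 1 := by linarith
    have : (-1 : ℤ) < H 1 1 := by exact_mod_cast this
    linarith
  refine ⟨?_, q1, q2⟩
  intro i j
  fin_cases i <;> fin_cases j
  · exact q0
  · exact q1.le
  · exact q2.le
  · exact q3

/-- a unimodular change of basis for which both eigenvectors stay positive -/
theorem rel_of (h : Irr t D) (hB : Cls t D B) {E E' : Matrix (Fin 2) (Fin 2) ℤ} (hE : E * E' = 1)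
    (hρ : ∀ i, 0 < (E i 0 : ℝ) * rho t D B 0 + (E i 1 : ℝ) * rho t D B 1)
    (hτ : ∀ j, 0 < tau t D B 0 * (E' 0 j : ℝ) + tau t D B 1 * (E' 1 j : ℝ)) :
    ∃ B' : Matrix (Fin 2) (Fin 2) ℕ, toZ B' = E * toZ B * E' ∧ Rel t D B B' E := by
  have hE' : E' * E = 1 := mul_eq_one_comm.mp hE
  set H : Matrix (Fin 2) (Fin 2) ℤ := E * toZ B * E' with hH
  have hEH : H * E = E * toZ B := by
    rw [hH, Matrix.mul_assoc, hE', Matrix.mul_one]
  have hHE : E' * H = toZ B * E' := by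
    rw [hH, Matrix.mul_assoc, ← Matrix.mul_assoc E', hE', Matrix.one_mul]
  have htr : H 0 0 + H 1 1 = t := by
    have h1 : H.trace = (toZ B).trace := by
      rw [hH, Matrix.trace_mul_comm, ← Matrix.mul_assoc, hE', Matrix.one_mul]
    rw [Matrix.trace_fin_two, Matrix.trace_fin_two] at h1
    rw [h1]
    simp only [toZ, Matrix.map_apply]
    exact_mod_cast hB.1
  have hdet : H.det = D := by
    have h1 : H.det = (toZ B).det := by
      rw [hH, Matrix.det_mul, Matrix.det_mul, mul_right_comm, ← Matrix.det_mul, hE, Matrix.det_one,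
        one_mul]
    rw [h1, Matrix.det_fin_two]
    simp only [toZ, Matrix.map_apply]
    have h2 := hB.2
    linarith
  have ent : ∀ i j, (H i 0 : ℝ) * E 0 j + (H i 1 : ℝ) * E 1 j
      = (E i 0 : ℝ) * B 0 j + (E i 1 : ℝ) * B 1 j := by
    intro i j
    have h1 := congrFun (congrFun hEH i) j
    simp only [Matrix.mul_apply, Fin.sum_univ_two, toZ, Matrix.map_apply] at h1
    exact_mod_cast h1
  have ent' : ∀ i j, (E' i 0 : ℝ) * H 0 j + (E' i 1 : ℝ) * H 1 j
      = (B i 0 : ℝ) * E' 0 j + (B i 1 : ℝ) * E' 1 j := by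
    intro i j
    have h1 := congrFun (congrFun hHE i) j
    simp only [Matrix.mul_apply, Fin.sum_univ_two, toZ, Matrix.map_apply] at h1
    exact_mod_cast h1
  have hpos := pos_entries h hB htr hdet hρ hτ
    (by
      intro i
      have e0 := ent i 0
      have e1 := ent i 1
      have r0 := eig_rho h hB 0
      have r1 := eig_rho h hB 1
      linear_combination rho t D B 0 * e0 + rho t D B 1 * e1 + (E i 0 : ℝ) * r0 + (E i 1 : ℝ) * r1)
    (by
      intro j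
      have e0 := ent' 0 j
      have e1 := ent' 1 j
      have r0 := eig_tau h hB 0
      have r1 := eig_tau h hB 1
      linear_combination tau t D B 0 * e0 + tau t D B 1 * e1 + (E' 0 j : ℝ) * r0
        + (E' 1 j : ℝ) * r1)
  obtain ⟨B', hB'⟩ := exists_nat_of_nn (M := H) hpos.1
  have hB'' : toZ B' = H := hB'.symm
  have hcls : Cls t D B' := by
    constructor
    · have h1 : ((B' 0 0 : ℤ)) + B' 1 1 = t := by
        rw [← htr, hB']
        rfl
      exact_mod_cast h1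
    · have h1 : (B' 0 0 : ℤ) * B' 1 1 = B' 0 1 * B' 1 0 + D := by
        rw [← hdet, hB', Matrix.det_fin_two]
        simp only [Matrix.map_apply]
        ring
      exact_mod_cast h1
  refine ⟨B', hB'', hB, hcls, ?_, ?_, hρ 0⟩
  · rw [hB'', hEH]
  · intro h0
    have h1 := congrArg Matrix.det hE
    rw [Matrix.det_mul, h0, zero_mul, Matrix.det_one] at h1
    exact zero_ne_one h1

end Pool.Agent.DimRep.TB2
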