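import Pool.Agent.Lib.MP_5f1e54_an.DR.Good
import Pool.Agent.Lib.MP_5f1e54_an.DR.Stmt

/-!
# 2 x 2 matrices whose smaller eigenvalue is larger than `-1`: definitions

`Lnk A B X`: `X A = B X` and some chain from `A` to `B` induces `X⁻¹` (up to a power of `A`).
`Cls t D B`: trace `t`, determinant `D`. `Irr t D`: `D ≠ 0`, `D ≥ -t`, the eigenvalues are irrational.
`Rel t D B C S`: `B`, `C` are in the class, `S` is an integral matrix, `S B = C S`, `det S ≠ 0`, and `S` maps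
the positive right eigenvector `rho B` to a positive multiple of `rho C`.
-/

open Matrix

namespace Pool.Agent.DimRep.TB2

/-- `B` is linked to `A` by the change of basis `X` -/
def Lnk (A B : Matrix (Fin 2) (Fin 2) ℕ) (X : Matrix (Fin 2) (Fin 2) ℚ) : Prop :=
  X.det ≠ 0 ∧ X * toQ A = toQ B * X ∧
    ∃ (W : Matrix (Fin 2) (Fin 2) ℕ) (k : ℕ), Chain A B W ∧ toQ W * X = toQ A ^ k

/-- trace `t`, determinant `D` -/
def Cls (t : ℕ) (D : ℤ) (B : Matrix (Fin 2) (Fin 2) ℕ) : Prop :=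
  B 0 0 + B 1 1 = t ∧ (B 0 0 : ℤ) * B 1 1 = B 0 1 * B 1 0 + D

/-- determinant `≠ 0` and `≥ -t`, irrational eigenvalues -/
def Irr (t : ℕ) (D : ℤ) : Prop := (D ≠ 0 ∧ -(t : ℤ) ≤ D) ∧ ∀ n : ℤ, n ^ 2 ≠ (t : ℤ) ^ 2 - 4 * D

/-- the larger eigenvalue -/
noncomputable def lam (t : ℕ) (D : ℤ) : ℝ := (t + √((t : ℝ) ^ 2 - 4 * D)) / 2

/-- the smaller eigenvalue -/
noncomputable def mu (t : ℕ) (D : ℤ) : ℝ := (t - √((t : ℝ) ^ 2 - 4 * D)) / 2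

/-- the right eigenvector for `lam` -/
noncomputable def rho (t : ℕ) (D : ℤ) (B : Matrix (Fin 2) (Fin 2) ℕ) : Fin 2 → ℝ :=
  ![(B 0 1 : ℝ), lam t D - B 0 0]

/-- the left eigenvector for `lam` -/
noncomputable def tau (t : ℕ) (D : ℤ) (B : Matrix (Fin 2) (Fin 2) ℕ) : Fin 2 → ℝ :=
  ![(B 1 0 : ℝ), lam t D - B 0 0]

/-- an oriented change of basis -/
def Rel (t : ℕ) (D : ℤ) (B C : Matrix (Fin 2) (Fin 2) ℕ) (S : Matrix (Fin 2) (Fin 2) ℤ) : Prop :=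
  Cls t D B ∧ Cls t D C ∧ S * toZ B = toZ C * S ∧ S.det ≠ 0 ∧
    0 < (S 0 0 : ℝ) * rho t D B 0 + (S 0 1 : ℝ) * rho t D B 1

/-- `(B', C', N')` is obtained from `(B, C, N)` by oriented unimodular changes of the two bases -/
def Eqv (t : ℕ) (D : ℤ) (B C : Matrix (Fin 2) (Fin 2) ℕ) (N : Matrix (Fin 2) (Fin 2) ℤ)
    (B' C' : Matrix (Fin 2) (Fin 2) ℕ) (N' : Matrix (Fin 2) (Fin 2) ℤ) : Prop :=
  ∃ E E' F F' : Matrix (Fin 2) (Fin 2) ℤ, Rel t D B B' E ∧ E * E' = 1 ∧ Rel t D C C' F ∧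
    F * F' = 1 ∧ N' = F * N * E'

/-- the steps of index `p` are realised -/
def OKp (t : ℕ) (D : ℤ) (p : ℕ) : Prop :=
  ∀ (B C : Matrix (Fin 2) (Fin 2) ℕ) (N : Matrix (Fin 2) (Fin 2) ℤ), Rel t D B C N →
    N.det.natAbs = p → (∃ R : Matrix (Fin 2) (Fin 2) ℤ, toZ B = R * N) → Lnk B C (zQ N)

end Pool.Agent.DimRep.TB2
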