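import Pool.Agent.Lib.MP_5f1e54_an.TB2.Cls

/-!
# TB-Direct: the direct step

`B = R N`, `N ≥ 0`, `det N = p > 0`, `p R = B adj N`, `adj N = !![N11, -N01; -N10, N00]`. Let `m = mu`, `l = lam`. The rows of `B - m` are
`(a - m, b)` and `(c, d - m)`, `a - m = l - d > 0`, `d - m = l - a > 0`, `b, c > 0`; both are positive multiples of `tau B = (c, l - a)`:
`c (a - m) = c (l - d)`, ... (`(l - a)(l - d) = b c`). `Rel.eq_tau`: `tau B adj N` is a positive multiple of `tau C N adj N = p tau C`, so both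
entries of `tau B adj N` are positive: `c N11 - (l - a) N10 > 0`, `-c N01 + (l - a) N00 > 0`. So all entries of `(B - m) adj N` are
positive, and `p R00 > m N11 ≥ 0`, `p R01 > -m N01 ≥ -p`, `p R10 > -m N10 ≥ -p`, `p R11 > m N00 ≥ 0`. As `R` is integral, `R ≥ 0`.
`R`, `N` are then matrices over `ℕ`; `B = R N`, `C = N R` (`N B = C N`, `N R N = C N`, `det N ≠ 0`): `Lnk.esse`.
-/

open Matrix

namespace Pool.Agent.DimRep.TB2

variable {t : ℕ} {D : ℤ} {B C : Matrix (Fin 2) (Fin 2) ℕ} {N : Matrix (Fin 2) (Fin 2) ℤ}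

private theorem direct_toZ {M : Matrix (Fin 2) (Fin 2) ℤ} (h : ∀ i j, 0 ≤ M i j) :
    toZ (M.map Int.toNat) = M := by
  ext i j
  simp only [toZ, Matrix.map_apply]
  exact Int.toNat_of_nonneg (h i j)

private theorem direct_toZ_inj {M M' : Matrix (Fin 2) (Fin 2) ℕ} (h : toZ M = toZ M') : M = M' := by
  ext i j
  have := congrFun (congrFun h i) j
  simp only [toZ, Matrix.map_apply] at this
  exact_mod_cast this

private theorem direct_toZ_mul (M M' : Matrix (Fin 2) (Fin 2) ℕ) :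
    toZ (M * M') = toZ M * toZ M' := by
  ext i j
  simp [toZ, Matrix.mul_apply, Matrix.map_apply]

private theorem direct_int {p : ℕ} (hp : 0 < p) {r : ℤ} {x : ℝ} (h : (p : ℝ) * r = x)
    (hx : -(p : ℝ) < x) : 0 ≤ r := by
  have hp' : (0 : ℝ) < p := by exact_mod_cast hp
  have h1 : (-1 : ℝ) < r := by
    by_contra hcon
    push Not at hcon
    have := mul_le_mul_of_nonneg_left hcon hp'.le
    rw [h] at this
    linarith
  have h2 : (-1 : ℤ) < r := by exact_mod_cast h1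
  omega

theorem direct (h : Irr t D) (hR : Rel t D B C N) (hN : ∀ i j, 0 ≤ N i j) {p : ℕ} (hp : 0 < p)
    (hdet : N.det = p) (hM : mu t D * (N 0 1 : ℝ) ≤ p) (hM' : mu t D * (N 1 0 : ℝ) ≤ p)
    (hM0 : -(p : ℝ) ≤ mu t D * (N 0 0 : ℝ)) (hM1 : -(p : ℝ) ≤ mu t D * (N 1 1 : ℝ))
    (hdiv : ∃ R : Matrix (Fin 2) (Fin 2) ℤ, toZ B = R * N) : Lnk B C (zQ N) := by
  obtain ⟨R, hRN⟩ := hdiv
  obtain ⟨κ, hκ, hτ⟩ := hR.eq_tau h
  have hB : Cls t D B := hR.1
  have hC : Cls t D C := hR.2.1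
  have hcomm : N * toZ B = toZ C * N := hR.2.2.1
  obtain ⟨hl1, hl2, hm0, hml⟩ := lam_facts h hB
  obtain ⟨hal, hdl, hbc⟩ := hB.lam_lt h
  obtain ⟨eb, ec⟩ := hB.entries h
  have htr : (B 0 0 : ℝ) + B 1 1 = t := by exact_mod_cast hB.1
  have hτ0 := hτ 0
  have hτ1 := hτ 1
  have hC0 := tau_pos h hC 0
  have hC1 := tau_pos h hC 1
  have hB0 : tau t D B 0 = (B 1 0 : ℝ) := by simp [tau]
  have hB1 : tau t D B 1 = lam t D - B 0 0 := by simp [tau]
  rw [hB0] at hτ0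
  rw [hB1] at hτ1
  generalize hx0 : tau t D C 0 = x0 at hτ0 hτ1 hC0 hC1
  generalize hx1 : tau t D C 1 = x1 at hτ0 hτ1 hC0 hC1
  generalize hl : lam t D = l at *
  generalize hm : mu t D = m at *
  have hp' : (0 : ℝ) < p := by exact_mod_cast hp
  have hdetR : (N 0 0 : ℝ) * N 1 1 - N 0 1 * N 1 0 = p := by
    rw [Matrix.det_fin_two] at hdet
    exact_mod_cast hdet
  have hn00 : (0 : ℝ) ≤ N 0 0 := by exact_mod_cast hN 0 0
  have hn01 : (0 : ℝ) ≤ N 0 1 := by exact_mod_cast hN 0 1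
  have hn10 : (0 : ℝ) ≤ N 1 0 := by exact_mod_cast hN 1 0
  have hn11 : (0 : ℝ) ≤ N 1 1 := by exact_mod_cast hN 1 1
  have hb : (0 : ℝ) < B 0 1 := by exact_mod_cast eb
  have hc : (0 : ℝ) < B 1 0 := by exact_mod_cast ec
  -- the positive numbers
  have hU0 : 0 < (B 1 0 : ℝ) * N 1 1 - (l - B 0 0) * N 1 0 := by
    have e : κ * ((B 1 0 : ℝ) * N 1 1 - (l - B 0 0) * N 1 0) = p * x0 := by
      have : κ * ((B 1 0 : ℝ) * N 1 1 - (l - B 0 0) * N 1 0)
          = (κ * (B 1 0 : ℝ)) * N 1 1 - (κ * (l - B 0 0)) * N 1 0 := by ring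
      rw [this, ← hτ0, ← hτ1, ← hdetR]
      ring
    have e2 : 0 < κ * ((B 1 0 : ℝ) * N 1 1 - (l - B 0 0) * N 1 0) := by
      rw [e]; exact mul_pos hp' hC0
    exact (mul_pos_iff_of_pos_left hκ).1 e2
  have hU1 : 0 < -(B 1 0 : ℝ) * N 0 1 + (l - B 0 0) * N 0 0 := by
    have e : κ * (-(B 1 0 : ℝ) * N 0 1 + (l - B 0 0) * N 0 0) = p * x1 := by
      have : κ * (-(B 1 0 : ℝ) * N 0 1 + (l - B 0 0) * N 0 0)
          = -(κ * (B 1 0 : ℝ)) * N 0 1 + (κ * (l - B 0 0)) * N 0 0 := by ring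
      rw [this, ← hτ0, ← hτ1, ← hdetR]
      ring
    have e2 : 0 < κ * (-(B 1 0 : ℝ) * N 0 1 + (l - B 0 0) * N 0 0) := by
      rw [e]; exact mul_pos hp' hC1
    exact (mul_pos_iff_of_pos_left hκ).1 e2
  have hld : 0 < l - B 1 1 := by linarith
  have hV0 : 0 < (l - B 1 1) * N 1 1 - (B 0 1 : ℝ) * N 1 0 := by
    have e : (B 1 0 : ℝ) * ((l - B 1 1) * N 1 1 - (B 0 1 : ℝ) * N 1 0)
        = (l - B 1 1) * ((B 1 0 : ℝ) * N 1 1 - (l - B 0 0) * N 1 0) := by
      have : (B 1 0 : ℝ) * ((l - B 1 1) * N 1 1 - (B 0 1 : ℝ) * N 1 0)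
          = (B 1 0 : ℝ) * (l - B 1 1) * N 1 1 - ((B 0 1 : ℝ) * B 1 0) * N 1 0 := by ring
      rw [this, ← hbc]
      ring
    have e2 : 0 < (B 1 0 : ℝ) * ((l - B 1 1) * N 1 1 - (B 0 1 : ℝ) * N 1 0) := by
      rw [e]; exact mul_pos hld hU0
    exact (mul_pos_iff_of_pos_left hc).1 e2
  have hV1 : 0 < -(l - B 1 1) * N 0 1 + (B 0 1 : ℝ) * N 0 0 := by
    have e : (B 1 0 : ℝ) * (-(l - B 1 1) * N 0 1 + (B 0 1 : ℝ) * N 0 0)
        = (l - B 1 1) * (-(B 1 0 : ℝ) * N 0 1 + (l - B 0 0) * N 0 0) := by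
      have : (B 1 0 : ℝ) * (-(l - B 1 1) * N 0 1 + (B 0 1 : ℝ) * N 0 0)
          = -(B 1 0 : ℝ) * (l - B 1 1) * N 0 1 + ((B 0 1 : ℝ) * B 1 0) * N 0 0 := by ring
      rw [this, ← hbc]
      ring
    have e2 : 0 < (B 1 0 : ℝ) * (-(l - B 1 1) * N 0 1 + (B 0 1 : ℝ) * N 0 0) := by
      rw [e]; exact mul_pos hld hU1
    exact (mul_pos_iff_of_pos_left hc).1 e2
  -- the entries of `B = R N`
  have E : ∀ i j, (B i j : ℝ) = R i 0 * N 0 j + R i 1 * N 1 j := by
    intro i j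
    have := congrFun (congrFun hRN i) j
    rw [Matrix.mul_apply, Fin.sum_univ_two] at this
    simp only [toZ, Matrix.map_apply] at this
    exact_mod_cast this
  have r00 : 0 ≤ R 0 0 := by
    apply direct_int (x := (B 0 0 : ℝ) * N 1 1 - B 0 1 * N 1 0) hp
    · rw [E 0 0, E 0 1, ← hdetR]; ring
    · have e : (B 0 0 : ℝ) * N 1 1 - B 0 1 * N 1 0
          = ((l - B 1 1) * N 1 1 - (B 0 1 : ℝ) * N 1 0) + m * N 1 1 := by
        have : (B 0 0 : ℝ) = (l - B 1 1) + m := by linarith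
        rw [this]; ring
      rw [e]; linarith
  have r01 : 0 ≤ R 0 1 := by
    apply direct_int (x := -(B 0 0 : ℝ) * N 0 1 + B 0 1 * N 0 0) hp
    · rw [E 0 0, E 0 1, ← hdetR]; ring
    · have e : -(B 0 0 : ℝ) * N 0 1 + B 0 1 * N 0 0
          = (-(l - B 1 1) * N 0 1 + (B 0 1 : ℝ) * N 0 0) - m * N 0 1 := by
        have : (B 0 0 : ℝ) = (l - B 1 1) + m := by linarith
        rw [this]; ring
      rw [e]; linarith
  have r10 : 0 ≤ R 1 0 := by
    apply direct_int (x := (B 1 0 : ℝ) * N 1 1 - B 1 1 * N 1 0) hp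
    · rw [E 1 0, E 1 1, ← hdetR]; ring
    · have e : (B 1 0 : ℝ) * N 1 1 - B 1 1 * N 1 0
          = ((B 1 0 : ℝ) * N 1 1 - (l - B 0 0) * N 1 0) - m * N 1 0 := by
        have : (B 1 1 : ℝ) = (l - B 0 0) + m := by linarith
        rw [this]; ring
      rw [e]; linarith
  have r11 : 0 ≤ R 1 1 := by
    apply direct_int (x := -(B 1 0 : ℝ) * N 0 1 + B 1 1 * N 0 0) hp
    · rw [E 1 0, E 1 1, ← hdetR]; ring
    · have e : -(B 1 0 : ℝ) * N 0 1 + B 1 1 * N 0 0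
          = (-(B 1 0 : ℝ) * N 0 1 + (l - B 0 0) * N 0 0) + m * N 0 0 := by
        have : (B 1 1 : ℝ) = (l - B 0 0) + m := by linarith
        rw [this]; ring
      rw [e]; linarith
  have hRn : ∀ i j, 0 ≤ R i j := by
    intro i j
    fin_cases i <;> fin_cases j <;> assumption
  -- `N R = C`
  have hNR : N * R = toZ C := by
    have h1 : (N * R - toZ C) * N = 0 := by
      rw [Matrix.sub_mul, Matrix.mul_assoc, ← hRN, hcomm, sub_self]
    have h2 : (N * R - toZ C) * (N * N.adjugate) = 0 := by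
      rw [← Matrix.mul_assoc, h1, Matrix.zero_mul]
    rw [Matrix.mul_adjugate, Matrix.mul_smul, Matrix.mul_one, hdet] at h2
    have h3 : N * R - toZ C = 0 := by
      ext i j
      have := congrFun (congrFun h2 i) j
      simp only [Matrix.smul_apply, smul_eq_mul, Matrix.zero_apply, mul_eq_zero] at this
      rcases this with h4 | h4
      · have : p = 0 := by exact_mod_cast h4
        omega
      · exact h4
    exact sub_eq_zero.1 h3
  have e1 : B = R.map Int.toNat * N.map Int.toNat := by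
    apply direct_toZ_inj
    rw [direct_toZ_mul, direct_toZ hRn, direct_toZ hN]
    exact hRN
  have e2 : C = N.map Int.toNat * R.map Int.toNat := by
    apply direct_toZ_inj
    rw [direct_toZ_mul, direct_toZ hRn, direct_toZ hN]
    exact hNR.symm
  have hq : toQ (N.map Int.toNat) = zQ N := by
    rw [← zQ_toZ, direct_toZ hN]
  have := Lnk.esse e1 e2 (by
    rw [hq, Matrix.det_fin_two]
    simp only [zQ, Matrix.map_apply]
    rw [Matrix.det_fin_two] at hdet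
    intro hcon
    have h5 : ((N 0 0 * N 1 1 - N 0 1 * N 1 0 : ℤ) : ℚ) = 0 := by push_cast; exact hcon
    rw [hdet] at h5
    have : p = 0 := by exact_mod_cast h5
    omega)
  rwa [hq] at this

end Pool.Agent.DimRep.TB2
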