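import Pool.Agent.Lib.MP_5f1e54_an.TB2.Defs

/-!
# TB-Lnk: links form a groupoid
-/

open Matrix

namespace Pool.Agent.DimRep.TB2

variable {A B C : Matrix (Fin 2) (Fin 2) ℕ} {X Y : Matrix (Fin 2) (Fin 2) ℚ}

private theorem lnk_toQ_one : toQ (1 : Matrix (Fin 2) (Fin 2) ℕ) = 1 := by
  ext i j
  simp only [toQ, Matrix.map_apply, Matrix.one_apply]
  split_ifs <;> simp

theorem Lnk.refl : Lnk A A 1 := by
  refine ⟨by simp, by simp, 1, 0, Chain.refl, ?_⟩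
  rw [lnk_toQ_one]
  simp

/-- a power of `A` moves across `X` -/
theorem lnk_pow (h : X * toQ A = toQ B * X) (k : ℕ) : X * toQ A ^ k = toQ B ^ k * X := by
  have h1 : SemiconjBy X (toQ A) (toQ B) := h
  exact h1.pow_right k

theorem Lnk.trans (h : Lnk A B X) (h' : Lnk B C Y) : Lnk A C (Y * X) := by
  obtain ⟨h1, h2, W, k, h3, h4⟩ := h
  obtain ⟨h1', h2', V, l, h3', h4'⟩ := h'
  refine ⟨?_, ?_, W * V, k + l, h3.trans h3', ?_⟩
  · rw [Matrix.det_mul]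
    exact mul_ne_zero h1' h1
  · rw [Matrix.mul_assoc, h2, ← Matrix.mul_assoc, h2', Matrix.mul_assoc]
  · calc toQ (W * V) * (Y * X) = toQ W * (toQ V * Y) * X := by
          rw [toQ_mul]
          simp only [Matrix.mul_assoc]
      _ = toQ W * (X * toQ A ^ l) := by rw [h4', Matrix.mul_assoc, ← lnk_pow h2 l]
      _ = toQ A ^ (k + l) := by rw [← Matrix.mul_assoc, h4, pow_add]

theorem Lnk.symm (h : Lnk A B X) : Lnk B A X⁻¹ := by
  obtain ⟨h1, h2, W, k, h3, h4⟩ := h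
  have hu : IsUnit X.det := isUnit_iff_ne_zero.2 h1
  obtain ⟨V, j, h5, h6, h7⟩ := h3.inv
  refine ⟨?_, ?_, V * A ^ k, j, h5.trans (Chain.pow k), ?_⟩
  · rw [Matrix.det_nonsing_inv]
    simpa using h1
  · calc X⁻¹ * toQ B = X⁻¹ * (toQ B * X) * X⁻¹ := by
          rw [Matrix.mul_assoc, Matrix.mul_assoc, Matrix.mul_nonsing_inv _ hu, Matrix.mul_one]
      _ = toQ A * X⁻¹ := by
          rw [← h2, ← Matrix.mul_assoc, Matrix.nonsing_inv_mul _ hu, Matrix.one_mul]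
  · have h8 : toQ V * toQ W = toQ B ^ j := by rw [← toQ_mul, h7, toQ_pow]
    calc toQ (V * A ^ k) * X⁻¹ = toQ V * (toQ W * X) * X⁻¹ := by rw [toQ_mul, toQ_pow, h4]
      _ = toQ B ^ j := by
          rw [← Matrix.mul_assoc, h8, Matrix.mul_assoc, Matrix.mul_nonsing_inv _ hu, Matrix.mul_one]

/-- an elementary equivalence `A = R S`, `B = S R` -/
theorem Lnk.esse {R S : Matrix (Fin 2) (Fin 2) ℕ} (h : A = R * S) (h' : B = S * R)
    (hd : (toQ S).det ≠ 0) : Lnk A B (toQ S) := by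
  refine ⟨hd, ?_, R, 1, Chain.single ⟨h, h'⟩, ?_⟩
  · rw [h, h', toQ_mul, toQ_mul, Matrix.mul_assoc]
  · rw [pow_one, h, toQ_mul]

theorem Lnk.self (hd : (toQ A).det ≠ 0) : Lnk A A (toQ A) := by
  refine ⟨hd, rfl, 1, 1, Chain.refl, ?_⟩
  rw [lnk_toQ_one, Matrix.one_mul, pow_one]

theorem Lnk.good (h : Lnk A A X) : Good A X := by
  obtain ⟨h1, h2, W, k, h3, h4⟩ := h
  have hu : IsUnit X.det := isUnit_iff_ne_zero.2 h1
  have h5 : toQ A * X⁻¹ = X⁻¹ * toQ A := by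
    calc toQ A * X⁻¹ = X⁻¹ * (X * toQ A) * X⁻¹ := by
          rw [← Matrix.mul_assoc, Matrix.nonsing_inv_mul _ hu, Matrix.one_mul]
      _ = X⁻¹ * toQ A := by
          rw [h2, Matrix.mul_assoc, Matrix.mul_assoc, Matrix.mul_nonsing_inv _ hu, Matrix.mul_one]
  have h6 : toQ A ^ k * X⁻¹ = X⁻¹ * toQ A ^ k := Commute.pow_left h5 k
  have h7 : Good A X⁻¹ := by
    refine ⟨W, k, h3, ?_⟩
    rw [← h6, ← h4, Matrix.mul_assoc, Matrix.mul_nonsing_inv _ hu, Matrix.mul_one]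
  exact h7.inv (Matrix.nonsing_inv_mul _ hu) h5

/-- exchange of the two basis vectors -/
theorem Lnk.swap (a b c d : ℕ) : Lnk !![a, b; c, d] !![d, c; b, a] !![0, 1; 1, 0] := by
  have hP : toQ !![0, 1; 1, 0] = !![(0 : ℚ), 1; 1, 0] := by
    ext i j
    fin_cases i <;> fin_cases j <;> simp [toQ]
  rw [← hP]
  apply Lnk.esse (R := !![a, b; c, d] * !![0, 1; 1, 0])
  · rw [Matrix.mul_assoc]
    simp
  · simp
  · rw [hP]
    simp [Matrix.det_fin_two]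

end Pool.Agent.DimRep.TB2
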