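import Pool.Agent.Lib.MP_5f1e54_an.TB2.Step
import Pool.Agent.Lib.MP_5f1e54_an.TB2.Ch
import Pool.Agent.Lib.MP_5f1e54_an.TB2.Aut

/-!
# TB-Main: the dimension representation of 2 x 2 matrices with smaller eigenvalue `> -1`
-/

open Matrix

namespace Pool.Agent.DimRep.TB2

theorem main2 {t : ℕ} {D : ℤ} (h : Irr t D) {A : Matrix (Fin 2) (Fin 2) ℕ} (hA : Cls t D A) (p0 : ℕ)
    (hp : ∀ p : ℕ, p.Prime → (p : ℤ) ∣ D →
      mu t D * ((Nat.sqrt p : ℝ) - 1) ≤ p ∨ (p = p0 ∧ ¬ (p : ℤ) ^ 2 ∣ D))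
    {ψ : (Fin 2 → ℚ) → (Fin 2 → ℚ)} (hψ : IsDimAut A ψ) : InImageOfDimRep A ψ := by
  obtain ⟨Z, T, k, m, hR, hT, hv⟩ := aut_matrix h hA hψ
  -- all primes dividing `D` are fine
  have hgood : ∀ p : ℕ, p.Prime → (p : ℤ) ∣ D → OKp t D p := by
    intro p hpp hpD
    by_cases hc : mu t D * ((Nat.sqrt p : ℝ) - 1) ≤ p
    · exact step_ok h hpp.one_le hc
    · have hp1 : p = p0 ∧ ¬ (p : ℤ) ^ 2 ∣ D := (hp p hpp hpD).resolve_left hc
      obtain ⟨D', hD'⟩ := hpD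
      refine free h hpp hD' ?_ ?_
      · intro hdd
        apply hp1.2
        rw [hD', pow_two]
        exact mul_dvd_mul_left (p : ℤ) hdd
      · intro q hq hqD hne
        rcases hp q hq hqD with h1 | h1
        · exact step_ok h hq.one_le h1
        · exact absurd (h1.1.trans hp1.1.symm) hne
  have hdA : (toZ A).det = D := by
    rw [Matrix.det_fin_two]
    have h2 := hA.2
    unfold toZ
    simp only [Matrix.map_apply]
    linarith
  have hL : Lnk A A (zQ Z) := by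
    refine chain h hR ⟨T, m, hT⟩ ?_
    intro p hpp hpZ
    apply hgood p hpp
    have h1 : Z.det ∣ D ^ m := by
      rw [← hdA, ← Matrix.det_pow, ← hT, Matrix.det_mul]
      exact Dvd.intro_left _ rfl
    have h2 : (p : ℤ) ∣ D ^ m := dvd_trans (Int.natCast_dvd.mpr hpZ) h1
    exact (Nat.prime_iff_prime_int.1 hpp).dvd_of_dvd_pow h2
  obtain ⟨Y, j, h1, h2⟩ := hL.good
  refine ⟨Y, k + j, h1, fun v hvA => ?_⟩
  rw [h2, ← Matrix.vecMul_vecMul, ← hv v hvA, Matrix.vecMul_vecMul, ← pow_add]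

end Pool.Agent.DimRep.TB2
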