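import Pool.Agent.Lib.MP_5f1e54_an.TB2.Same

/-!
# TB-Mov: moves: unimodular changes of the two bases

`Eqv.rel`: `F N E'` from `B'` to `C'`: `Rel.inv`, `Rel.trans`. `Eqv.lnk`: `N = F' N' E`; `lnk_uni`, `Lnk.trans`, `Lnk.symm`
(`zQ_mul`, the inverse of `zQ F` is `zQ F'`). `Eqv.div`: `B' = E B E' = E R N E' = (E R F') (F N E')`.
The moves: `rel_of` with the obvious `E`: the comment at each theorem.
-/

open Matrix

namespace Pool.Agent.DimRep.TB2

variable {t : ℕ} {D : ℤ} {B C B' C' B'' C'' : Matrix (Fin 2) (Fin 2) ℕ} {N N' N'' : Matrix (Fin 2) (Fin 2) ℤ}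

theorem Eqv.refl (h : Irr t D) (hR : Rel t D B C N) : Eqv t D B C N B C N :=
  ⟨1, 1, 1, 1, Rel.refl h hR.1, by simp, Rel.refl h hR.2.1, by simp, by simp⟩

theorem Eqv.trans (h : Irr t D) (h1 : Eqv t D B C N B' C' N') (h2 : Eqv t D B' C' N' B'' C'' N'') :
    Eqv t D B C N B'' C'' N'' := by
  obtain ⟨E1, E1', F1, F1', hE1, hEE1, hF1, hFF1, rfl⟩ := h1
  obtain ⟨E2, E2', F2, F2', hE2, hEE2, hF2, hFF2, rfl⟩ := h2
  refine ⟨E2 * E1, E1' * E2', F2 * F1, F1' * F2', Rel.trans h hE1 hE2, ?_, Rel.trans h hF1 hF2, ?_, ?_⟩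
  · rw [Matrix.mul_assoc, ← Matrix.mul_assoc E1, hEE1, Matrix.one_mul, hEE2]
  · rw [Matrix.mul_assoc, ← Matrix.mul_assoc F1, hFF1, Matrix.one_mul, hFF2]
  · simp only [Matrix.mul_assoc]

theorem Eqv.rel (h : Irr t D) (hR : Rel t D B C N) (h1 : Eqv t D B C N B' C' N') : Rel t D B' C' N' := by
  obtain ⟨E, E', F, F', hE, hEE, hF, hFF, rfl⟩ := h1
  have h2 := Rel.trans h (Rel.trans h (Rel.inv h hE hEE) hR) hF
  rwa [← Matrix.mul_assoc] at h2

/-- the inverse of an integral unimodular matrix -/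
private theorem mov_zQ_inv {F F' : Matrix (Fin 2) (Fin 2) ℤ} (hF : F * F' = 1) : (zQ F)⁻¹ = zQ F' := by
  apply Matrix.inv_eq_right_inv
  rw [← zQ_mul, hF, zQ_one]

theorem Eqv.lnk (h : Irr t D) (h1 : Eqv t D B C N B' C' N') (h2 : Lnk B' C' (zQ N')) : Lnk B C (zQ N) := by
  obtain ⟨E, E', F, F', hE, hEE, hF, hFF, rfl⟩ := h1
  have h3 := Lnk.trans (Lnk.trans (lnk_uni h hE hEE) h2) (Lnk.symm (lnk_uni h hF hFF))
  rw [mov_zQ_inv hFF, ← zQ_mul, ← zQ_mul] at h3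
  have h4 : F' * (F * N * E' * E) = N := by
    have e1 : E' * E = 1 := mul_eq_one_comm.mp hEE
    have f1 : F' * F = 1 := mul_eq_one_comm.mp hFF
    calc F' * (F * N * E' * E) = F' * F * N * (E' * E) := by simp only [Matrix.mul_assoc]
      _ = N := by rw [e1, f1, Matrix.one_mul, Matrix.mul_one]
  rwa [h4] at h3

theorem Eqv.div (h1 : Eqv t D B C N B' C' N') (h2 : ∃ R : Matrix (Fin 2) (Fin 2) ℤ, toZ B = R * N) :
    ∃ R : Matrix (Fin 2) (Fin 2) ℤ, toZ B' = R * N' := by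
  obtain ⟨E, E', F, F', hE, hEE, hF, hFF, rfl⟩ := h1
  obtain ⟨R, hR⟩ := h2
  refine ⟨E * R * F', ?_⟩
  have f1 : F' * F = 1 := mul_eq_one_comm.mp hFF
  calc toZ B' = toZ B' * (E * E') := by rw [hEE, Matrix.mul_one]
    _ = toZ B' * E * E' := by rw [Matrix.mul_assoc]
    _ = E * (R * N) * E' := by rw [← hE.2.2.1, hR]
    _ = E * R * 1 * N * E' := by rw [Matrix.mul_one]; simp only [Matrix.mul_assoc]
    _ = E * R * (F' * F) * N * E' := by rw [f1]
    _ = E * R * F' * (F * N * E') := by simp only [Matrix.mul_assoc]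

private theorem mov_det_one {F F' : Matrix (Fin 2) (Fin 2) ℤ} (hF : F * F' = 1) :
    F.det.natAbs = 1 ∧ F'.det.natAbs = 1 := by
  have h1 : F.det * F'.det = 1 := by rw [← Matrix.det_mul, hF, Matrix.det_one]
  exact ⟨Int.isUnit_iff_natAbs_eq.mp (IsUnit.of_mul_eq_one _ h1),
    Int.isUnit_iff_natAbs_eq.mp (IsUnit.of_mul_eq_one _ (by rw [mul_comm]; exact h1))⟩

theorem Eqv.det (h1 : Eqv t D B C N B' C' N') : N'.det.natAbs = N.det.natAbs := by
  obtain ⟨E, E', F, F', hE, hEE, hF, hFF, rfl⟩ := h1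
  rw [Matrix.det_mul, Matrix.det_mul, Int.natAbs_mul, Int.natAbs_mul, (mov_det_one hEE).2,
    (mov_det_one hFF).1, one_mul, mul_one]

private theorem mov_E (h : Irr t D) (hR : Rel t D B C N) {E E' : Matrix (Fin 2) (Fin 2) ℤ}
    (hE : E * E' = 1)
    (hρ : ∀ i, 0 < (E i 0 : ℝ) * rho t D B 0 + (E i 1 : ℝ) * rho t D B 1)
    (hτ : ∀ j, 0 < tau t D B 0 * (E' 0 j : ℝ) + tau t D B 1 * (E' 1 j : ℝ)) :
    ∃ B', Eqv t D B C N B' C (N * E') := by
  obtain ⟨B', _, hB'⟩ := rel_of h hR.1 hE hρ hτ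
  exact ⟨B', E, E', 1, 1, hB', hE, Rel.refl h hR.2.1, by simp, by simp⟩

private theorem mov_F (h : Irr t D) (hR : Rel t D B C N) {F F' : Matrix (Fin 2) (Fin 2) ℤ}
    (hF : F * F' = 1)
    (hρ : ∀ i, 0 < (F i 0 : ℝ) * rho t D C 0 + (F i 1 : ℝ) * rho t D C 1)
    (hτ : ∀ j, 0 < tau t D C 0 * (F' 0 j : ℝ) + tau t D C 1 * (F' 1 j : ℝ)) :
    ∃ C', Eqv t D B C N B C' (F * N) := by
  obtain ⟨C', _, hC'⟩ := rel_of h hR.2.1 hF hρ hτ
  exact ⟨C', 1, 1, F, F', Rel.refl h hR.1, by simp, hC', hF, by simp⟩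

/-- `E = !![1, 0; 1, 1]` -/
theorem mv_ER (h : Irr t D) (hR : Rel t D B C N) (hc : tau t D B 1 < tau t D B 0) :
    ∃ B', Eqv t D B C N B' C !![N 0 0 - N 0 1, N 0 1; N 1 0 - N 1 1, N 1 1] := by
  have r0 := rho_pos h hR.1 0
  have r1 := rho_pos h hR.1 1
  have t0 := tau_pos h hR.1 0
  have t1 := tau_pos h hR.1 1
  obtain ⟨B', hB'⟩ := mov_E h hR (E := !![1, 0; 1, 1]) (E' := !![1, 0; -1, 1])
    (by ext i j; fin_cases i <;> fin_cases j <;> simp [Matrix.mul_apply])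
    (by intro i; fin_cases i <;> simp <;> linarith)
    (by intro j; fin_cases j <;> simp <;> linarith)
  refine ⟨B', ?_⟩
  convert hB' using 1
  ext i j; fin_cases i <;> fin_cases j <;> simp [Matrix.mul_apply, Fin.sum_univ_two] <;> ring

/-- `E = !![1, 1; 0, 1]` -/
theorem mv_EU (h : Irr t D) (hR : Rel t D B C N) (hc : tau t D B 0 < tau t D B 1) :
    ∃ B', Eqv t D B C N B' C !![N 0 0, N 0 1 - N 0 0; N 1 0, N 1 1 - N 1 0] := by
  have r0 := rho_pos h hR.1 0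
  have r1 := rho_pos h hR.1 1
  have t0 := tau_pos h hR.1 0
  have t1 := tau_pos h hR.1 1
  obtain ⟨B', hB'⟩ := mov_E h hR (E := !![1, 1; 0, 1]) (E' := !![1, -1; 0, 1])
    (by ext i j; fin_cases i <;> fin_cases j <;> simp [Matrix.mul_apply])
    (by intro i; fin_cases i <;> simp <;> linarith)
    (by intro j; fin_cases j <;> simp <;> linarith)
  refine ⟨B', ?_⟩
  convert hB' using 1
  ext i j; fin_cases i <;> fin_cases j <;> simp [Matrix.mul_apply, Fin.sum_univ_two] <;> ring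

/-- `E = !![1, 0; -1, 1]` -/
theorem mv_ER' (h : Irr t D) (hR : Rel t D B C N) (hc : rho t D B 0 < rho t D B 1) :
    ∃ B', Eqv t D B C N B' C !![N 0 0 + N 0 1, N 0 1; N 1 0 + N 1 1, N 1 1] := by
  have r0 := rho_pos h hR.1 0
  have r1 := rho_pos h hR.1 1
  have t0 := tau_pos h hR.1 0
  have t1 := tau_pos h hR.1 1
  obtain ⟨B', hB'⟩ := mov_E h hR (E := !![1, 0; -1, 1]) (E' := !![1, 0; 1, 1])
    (by ext i j; fin_cases i <;> fin_cases j <;> simp [Matrix.mul_apply])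
    (by intro i; fin_cases i <;> simp <;> linarith)
    (by intro j; fin_cases j <;> simp <;> linarith)
  refine ⟨B', ?_⟩
  convert hB' using 1
  ext i j; fin_cases i <;> fin_cases j <;> simp [Matrix.mul_apply, Fin.sum_univ_two]

/-- `E = !![1, -1; 0, 1]` -/
theorem mv_EU' (h : Irr t D) (hR : Rel t D B C N) (hc : rho t D B 1 < rho t D B 0) :
    ∃ B', Eqv t D B C N B' C !![N 0 0, N 0 0 + N 0 1; N 1 0, N 1 0 + N 1 1] := by
  have r0 := rho_pos h hR.1 0
  have r1 := rho_pos h hR.1 1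
  have t0 := tau_pos h hR.1 0
  have t1 := tau_pos h hR.1 1
  obtain ⟨B', hB'⟩ := mov_E h hR (E := !![1, -1; 0, 1]) (E' := !![1, 1; 0, 1])
    (by ext i j; fin_cases i <;> fin_cases j <;> simp [Matrix.mul_apply])
    (by intro i; fin_cases i <;> simp <;> linarith)
    (by intro j; fin_cases j <;> simp <;> linarith)
  refine ⟨B', ?_⟩
  convert hB' using 1
  ext i j; fin_cases i <;> fin_cases j <;> simp [Matrix.mul_apply, Fin.sum_univ_two]

/-- `F = !![1, 0; 1, 1]` -/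
theorem mv_FR (h : Irr t D) (hR : Rel t D B C N) (hc : tau t D C 1 < tau t D C 0) :
    ∃ C', Eqv t D B C N B C' !![N 0 0, N 0 1; N 0 0 + N 1 0, N 0 1 + N 1 1] := by
  have r0 := rho_pos h hR.2.1 0
  have r1 := rho_pos h hR.2.1 1
  have t0 := tau_pos h hR.2.1 0
  have t1 := tau_pos h hR.2.1 1
  obtain ⟨C', hC'⟩ := mov_F h hR (F := !![1, 0; 1, 1]) (F' := !![1, 0; -1, 1])
    (by ext i j; fin_cases i <;> fin_cases j <;> simp [Matrix.mul_apply])
    (by intro i; fin_cases i <;> simp <;> linarith)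
    (by intro j; fin_cases j <;> simp <;> linarith)
  refine ⟨C', ?_⟩
  convert hC' using 1
  ext i j; fin_cases i <;> fin_cases j <;> simp [Matrix.mul_apply, Fin.sum_univ_two]

/-- `F = !![1, 1; 0, 1]` -/
theorem mv_FU (h : Irr t D) (hR : Rel t D B C N) (hc : tau t D C 0 < tau t D C 1) :
    ∃ C', Eqv t D B C N B C' !![N 0 0 + N 1 0, N 0 1 + N 1 1; N 1 0, N 1 1] := by
  have r0 := rho_pos h hR.2.1 0
  have r1 := rho_pos h hR.2.1 1
  have t0 := tau_pos h hR.2.1 0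
  have t1 := tau_pos h hR.2.1 1
  obtain ⟨C', hC'⟩ := mov_F h hR (F := !![1, 1; 0, 1]) (F' := !![1, -1; 0, 1])
    (by ext i j; fin_cases i <;> fin_cases j <;> simp [Matrix.mul_apply])
    (by intro i; fin_cases i <;> simp <;> linarith)
    (by intro j; fin_cases j <;> simp <;> linarith)
  refine ⟨C', ?_⟩
  convert hC' using 1
  ext i j; fin_cases i <;> fin_cases j <;> simp [Matrix.mul_apply, Fin.sum_univ_two]

/-- `F = !![1, 0; -1, 1]` -/
theorem mv_FR' (h : Irr t D) (hR : Rel t D B C N) (hc : rho t D C 0 < rho t D C 1) :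
    ∃ C', Eqv t D B C N B C' !![N 0 0, N 0 1; N 1 0 - N 0 0, N 1 1 - N 0 1] := by
  have r0 := rho_pos h hR.2.1 0
  have r1 := rho_pos h hR.2.1 1
  have t0 := tau_pos h hR.2.1 0
  have t1 := tau_pos h hR.2.1 1
  obtain ⟨C', hC'⟩ := mov_F h hR (F := !![1, 0; -1, 1]) (F' := !![1, 0; 1, 1])
    (by ext i j; fin_cases i <;> fin_cases j <;> simp [Matrix.mul_apply])
    (by intro i; fin_cases i <;> simp <;> linarith)
    (by intro j; fin_cases j <;> simp <;> linarith)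
  refine ⟨C', ?_⟩
  convert hC' using 1
  ext i j; fin_cases i <;> fin_cases j <;> simp [Matrix.mul_apply, Fin.sum_univ_two] <;> ring

/-- `F = !![1, -1; 0, 1]` -/
theorem mv_FU' (h : Irr t D) (hR : Rel t D B C N) (hc : rho t D C 1 < rho t D C 0) :
    ∃ C', Eqv t D B C N B C' !![N 0 0 - N 1 0, N 0 1 - N 1 1; N 1 0, N 1 1] := by
  have r0 := rho_pos h hR.2.1 0
  have r1 := rho_pos h hR.2.1 1
  have t0 := tau_pos h hR.2.1 0
  have t1 := tau_pos h hR.2.1 1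
  obtain ⟨C', hC'⟩ := mov_F h hR (F := !![1, -1; 0, 1]) (F' := !![1, 1; 0, 1])
    (by ext i j; fin_cases i <;> fin_cases j <;> simp [Matrix.mul_apply])
    (by intro i; fin_cases i <;> simp <;> linarith)
    (by intro j; fin_cases j <;> simp <;> linarith)
  refine ⟨C', ?_⟩
  convert hC' using 1
  ext i j; fin_cases i <;> fin_cases j <;> simp [Matrix.mul_apply, Fin.sum_univ_two] <;> ring

private theorem mov_sw : (!![0, 1; 1, 0] : Matrix (Fin 2) (Fin 2) ℤ) * !![0, 1; 1, 0] = 1 := by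
  ext i j; fin_cases i <;> fin_cases j <;> simp [Matrix.mul_apply]

/-- exchange of the rows -/
theorem mv_swap (h : Irr t D) (hR : Rel t D B C N) :
    ∃ C', Eqv t D B C N B C' !![N 1 0, N 1 1; N 0 0, N 0 1] := by
  obtain ⟨C', hC', _⟩ := exists_swap h hR.2.1
  refine ⟨C', 1, 1, !![0, 1; 1, 0], !![0, 1; 1, 0], Rel.refl h hR.1, by simp, hC', mov_sw, ?_⟩
  rw [Matrix.mul_one]
  ext i j; fin_cases i <;> fin_cases j <;>
    simp [Matrix.mul_apply, Fin.sum_univ_two]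

/-- exchange of the rows and of the columns -/
theorem mv_swap2 (h : Irr t D) (hR : Rel t D B C N) :
    ∃ B' C', Eqv t D B C N B' C' !![N 1 1, N 1 0; N 0 1, N 0 0] ∧
      (tau t D B 0 < tau t D B 1 → tau t D B' 1 < tau t D B' 0) := by
  obtain ⟨B', hB', _, _, hτ⟩ := exists_swap h hR.1
  obtain ⟨C', hC', _⟩ := exists_swap h hR.2.1
  refine ⟨B', C', ⟨!![0, 1; 1, 0], !![0, 1; 1, 0], !![0, 1; 1, 0], !![0, 1; 1, 0], hB', mov_sw, hC',
    mov_sw, ?_⟩, ?_⟩
  · ext i j; fin_cases i <;> fin_cases j <;>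
      simp [Matrix.mul_apply, Matrix.vecMul, dotProduct, Fin.sum_univ_two]
  · intro hlt
    have t0 := tau_pos h hR.1 0
    have t1 := tau_pos h hR.1 1
    have s1 := tau_pos h hB'.2.1 1
    by_contra hcon
    have hcon' := not_lt.mp hcon
    have h1 : tau t D B' 0 * tau t D B 0 ≤ tau t D B' 1 * tau t D B 0 :=
      mul_le_mul_of_nonneg_right hcon' t0.le
    have h2 : tau t D B' 1 * tau t D B 0 < tau t D B' 1 * tau t D B 1 :=
      mul_lt_mul_of_pos_left hlt s1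
    linarith

end Pool.Agent.DimRep.TB2
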