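import Pool.Agent.Lib.MP_5f1e54_an.TB2.Mov

/-!
# TB-Pos: the matrix `N` can be made nonnegative

Strong induction on `m(N) = ∑_i (if N i 0 * N i 1 < 0 then |N i 0| + |N i 1| else 0)` (`Int.natAbs`), `B` and `N` generalized.
`Rel.eq_rho`: `N i 0 ρ_0 + N i 1 ρ_1 > 0` for both rows (`rho_pos` for `C`). If no row is mixed (`N i 0 * N i 1 ≥ 0`), all entries are `≥ 0`.
If some row is mixed: `rho_ne`. Case `ρ_1 < ρ_0`: `mv_EU'`, the rows become `(s, s + u)`: a row `s, u ≥ 0` stays `≥ 0`; `s > 0 > u`: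
`s + u ≥ 0`, or the new measure is `s - (s + u) = -u < s - u`; `s < 0 < u`: `s ρ_0 + u ρ_1 > 0` and `ρ_1 < ρ_0` give `s + u > 0`, new
measure `-s + s + u = u < u - s`. Case `ρ_0 < ρ_1`: `mv_ER'`, the same with the columns exchanged. `Eqv.trans`, `Eqv.rel`.
-/

open Matrix

namespace Pool.Agent.DimRep.TB2

variable {t : ℕ} {D : ℤ} {B C : Matrix (Fin 2) (Fin 2) ℕ} {N : Matrix (Fin 2) (Fin 2) ℤ}

/-- the measure of a row -/
private def pos_mz (s u : ℤ) : ℕ := if s * u < 0 then s.natAbs + u.natAbs else 0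

private theorem pos_mz_nonneg {s u : ℤ} (hs : 0 ≤ s) (hu : 0 ≤ u) : pos_mz s u = 0 :=
  if_neg (not_lt.mpr (mul_nonneg hs hu))

private theorem pos_mz_ps {s u : ℤ} (hs : 0 < s) (hu : u < 0) : pos_mz s u = s.natAbs + u.natAbs :=
  if_pos (mul_neg_of_pos_of_neg hs hu)

private theorem pos_mz_ns {s u : ℤ} (hs : s < 0) (hu : 0 < u) : pos_mz s u = s.natAbs + u.natAbs :=
  if_pos (mul_neg_of_neg_of_pos hs hu)

private theorem pos_row {a b : ℝ} (ha : 0 < a) (hb : 0 < b) (hab : b < a) {s u : ℤ}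
    (h : 0 < (s : ℝ) * a + (u : ℝ) * b) :
    pos_mz s (s + u) ≤ pos_mz s u ∧ (s * u < 0 → pos_mz s (s + u) < pos_mz s u) := by
  rcases le_or_gt 0 s with hs | hs
  · rcases le_or_gt 0 u with hu | hu
    · rw [pos_mz_nonneg hs (by omega), pos_mz_nonneg hs hu]
      exact ⟨le_refl _, fun h1 => absurd h1 (not_lt.mpr (mul_nonneg hs hu))⟩
    · have hs' : 0 < s := by
        rcases hs.lt_or_eq with h1 | h1
        · exact h1
        · exfalso
          rw [← h1] at h
          have h2 : (u : ℝ) < 0 := by exact_mod_cast hu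
          have h3 := mul_neg_of_neg_of_pos h2 hb
          simp at h
          linarith
      have key : pos_mz s (s + u) < pos_mz s u := by
        rw [pos_mz_ps hs' hu]
        rcases le_or_gt 0 (s + u) with h1 | h1
        · rw [pos_mz_nonneg hs h1]; omega
        · rw [pos_mz_ps hs' h1]; omega
      exact ⟨key.le, fun _ => key⟩
  · have hs2 : (s : ℝ) < 0 := by exact_mod_cast hs
    have h0 := mul_neg_of_neg_of_pos hs2 ha
    have hu : 0 < u := by
      by_contra hc
      have h1 : (u : ℝ) ≤ 0 := by exact_mod_cast not_lt.mp hc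
      have h2 := mul_nonpos_of_nonpos_of_nonneg h1 hb.le
      linarith
    have hsu : 0 < s + u := by
      by_contra hc
      have h1 : (u : ℝ) ≤ -s := by exact_mod_cast (by omega : u ≤ -s)
      have h2 := mul_le_mul_of_nonneg_right h1 hb.le
      have h3 : (-(s : ℝ)) * b < (-(s : ℝ)) * a := mul_lt_mul_of_pos_left hab (by linarith)
      linarith
    have key : pos_mz s (s + u) < pos_mz s u := by
      rw [pos_mz_ns hs hu, pos_mz_ns hs hsu]; omega
    exact ⟨key.le, fun _ => key⟩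

private theorem pos_mz_comm (s u : ℤ) : pos_mz s u = pos_mz u s := by
  unfold pos_mz
  rw [mul_comm s u, Nat.add_comm]

private theorem pos_aux (h : Irr t D) (k : ℕ) : ∀ (B : Matrix (Fin 2) (Fin 2) ℕ)
    (N : Matrix (Fin 2) (Fin 2) ℤ), Rel t D B C N →
      pos_mz (N 0 0) (N 0 1) + pos_mz (N 1 0) (N 1 1) = k →
      ∃ B' N', Eqv t D B C N B' C N' ∧ ∀ i j, 0 ≤ N' i j := by
  induction k using Nat.strong_induction_on with
  | _ k ih =>
    intro B N hR hk
    obtain ⟨κ, hκ, hr⟩ := hR.eq_rho h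
    have q0 : 0 < (N 0 0 : ℝ) * rho t D B 0 + (N 0 1 : ℝ) * rho t D B 1 := by
      rw [hr 0]; exact mul_pos hκ (rho_pos h hR.2.1 0)
    have q1 : 0 < (N 1 0 : ℝ) * rho t D B 0 + (N 1 1 : ℝ) * rho t D B 1 := by
      rw [hr 1]; exact mul_pos hκ (rho_pos h hR.2.1 1)
    have r0 := rho_pos h hR.1 0
    have r1 := rho_pos h hR.1 1
    by_cases hm : N 0 0 * N 0 1 < 0 ∨ N 1 0 * N 1 1 < 0
    · rcases lt_or_gt_of_ne (rho_ne h hR.1) with hc | hc
      · -- `ρ_0 < ρ_1`
        obtain ⟨B1, hB1⟩ := mv_ER' h hR hc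
        have a0 := pos_row r1 r0 hc (s := N 0 1) (u := N 0 0) (by linarith)
        have a1 := pos_row r1 r0 hc (s := N 1 1) (u := N 1 0) (by linarith)
        rw [pos_mz_comm (N 0 1), pos_mz_comm (N 0 1)] at a0
        rw [pos_mz_comm (N 1 1), pos_mz_comm (N 1 1)] at a1
        rw [add_comm (N 0 1) (N 0 0), mul_comm (N 0 1) (N 0 0)] at a0
        rw [add_comm (N 1 1) (N 1 0), mul_comm (N 1 1) (N 1 0)] at a1
        obtain ⟨B2, N2, hE, hn⟩ := ih (pos_mz (N 0 0 + N 0 1) (N 0 1) + pos_mz (N 1 0 + N 1 1) (N 1 1)) (by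
          rcases hm with h1 | h1
          · have := a0.2 h1; have := a1.1; omega
          · have := a1.2 h1; have := a0.1; omega) B1 _ (Eqv.rel h hR hB1) (by
            show pos_mz (N 0 0 + N 0 1) (N 0 1) + pos_mz (N 1 0 + N 1 1) (N 1 1) = _
            rfl)
        exact ⟨B2, N2, Eqv.trans h hB1 hE, hn⟩
      · obtain ⟨B1, hB1⟩ := mv_EU' h hR hc
        have a0 := pos_row r0 r1 hc (s := N 0 0) (u := N 0 1) q0
        have a1 := pos_row r0 r1 hc (s := N 1 0) (u := N 1 1) q1
        obtain ⟨B2, N2, hE, hn⟩ := ih (pos_mz (N 0 0) (N 0 0 + N 0 1) + pos_mz (N 1 0) (N 1 0 + N 1 1)) (by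
          rcases hm with h1 | h1
          · have := a0.2 h1; have := a1.1; omega
          · have := a1.2 h1; have := a0.1; omega) B1 _ (Eqv.rel h hR hB1) (by
            show pos_mz (N 0 0) (N 0 0 + N 0 1) + pos_mz (N 1 0) (N 1 0 + N 1 1) = _
            rfl)
        exact ⟨B2, N2, Eqv.trans h hB1 hE, hn⟩
    · refine ⟨B, N, Eqv.refl h hR, ?_⟩
      have row : ∀ s u : ℤ, ¬ s * u < 0 → 0 < (s : ℝ) * rho t D B 0 + (u : ℝ) * rho t D B 1 →
          0 ≤ s ∧ 0 ≤ u := by
        intro s u h1 h2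
        rcases le_or_gt 0 s with hs | hs
        · refine ⟨hs, ?_⟩
          by_contra hu
          have hu' := not_le.mp hu
          rcases hs.lt_or_eq with h3 | h3
          · exact h1 (mul_neg_of_pos_of_neg h3 hu')
          · rw [← h3] at h2
            have h4 : (u : ℝ) < 0 := by exact_mod_cast hu'
            have h5 := mul_neg_of_neg_of_pos h4 r1
            simp at h2
            linarith
        · exfalso
          have hs2 : (s : ℝ) < 0 := by exact_mod_cast hs
          have h0 := mul_neg_of_neg_of_pos hs2 r0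
          have hu : 0 < u := by
            by_contra hc
            have h3 : (u : ℝ) ≤ 0 := by exact_mod_cast not_lt.mp hc
            have h4 := mul_nonpos_of_nonpos_of_nonneg h3 r1.le
            linarith
          exact h1 (mul_neg_of_neg_of_pos hs hu)
      obtain ⟨h3, h4⟩ := row _ _ (fun h1 => hm (Or.inl h1)) q0
      obtain ⟨h5, h6⟩ := row _ _ (fun h1 => hm (Or.inr h1)) q1
      intro i j
      fin_cases i <;> fin_cases j
      · exact h3
      · exact h4
      · exact h5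
      · exact h6

theorem exists_nonneg (h : Irr t D) (hR : Rel t D B C N) :
    ∃ B' N', Eqv t D B C N B' C N' ∧ ∀ i j, 0 ≤ N' i j :=
  pos_aux h _ B N hR rfl

end Pool.Agent.DimRep.TB2
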