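import Pool.Agent.Lib.MP_5f1e54_an.TB2.Mov

/-!
# TB-Red: reduction to a doubly balanced matrix

Strong induction on the sum of the entries (`B`, `C`, `N` generalized).
(1) `N01 ≤ N00`, `N11 ≤ N10`: by `Rel.eq_tau` `κ (τ_0 - τ_1) = τC_0 (N00 - N01) + τC_1 (N10 - N11) > 0` (`tau_pos`; the two differences are not
both 0 as `det N ≠ 0`), so `mv_ER` applies; the entries stay `≥ 0`, `det` is the same, the sum decreases by `N01 + N11 > 0` (`det N > 0`).
(2) `N00 ≤ N01`, `N10 ≤ N11`: `mv_EU`. (3) `N10 ≤ N00`, `N11 ≤ N01`: by `Rel.eq_rho` `ρC_1 < ρC_0`: `mv_FU'`. (4) `N00 ≤ N10`, `N01 ≤ N11`: `mv_FR'`.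
(5) None: if `N00 ≤ N01` then `N11 < N10` by (2), `N00 N11 ≤ N01 N10`, contradiction; so `N01 < N00`, and by (1) `N10 < N11`; in the same way
`N10 < N00` and `N01 < N11` by (4), (3).
-/

open Matrix

namespace Pool.Agent.DimRep.TB2

variable {t : ℕ} {D : ℤ} {B C : Matrix (Fin 2) (Fin 2) ℕ} {N : Matrix (Fin 2) (Fin 2) ℤ}

/-- a nonnegative combination with positive weights of two nonnegative integers, not both `0` -/
private theorem comb_pos {x y : ℝ} {a b : ℤ} (hx : 0 < x) (hy : 0 < y) (ha : 0 ≤ a) (hb : 0 ≤ b)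
    (hab : a ≠ 0 ∨ b ≠ 0) : 0 < x * (a : ℝ) + y * (b : ℝ) := by
  have ha' : (0 : ℝ) ≤ (a : ℝ) := by exact_mod_cast ha
  have hb' : (0 : ℝ) ≤ (b : ℝ) := by exact_mod_cast hb
  rcases hab with h | h
  · have h1 : (0 : ℝ) < (a : ℝ) := by exact_mod_cast lt_of_le_of_ne ha (Ne.symm h)
    have h2 := mul_pos hx h1
    have h3 := mul_nonneg hy.le hb'
    linarith
  · have h1 : (0 : ℝ) < (b : ℝ) := by exact_mod_cast lt_of_le_of_ne hb (Ne.symm h)
    have h2 := mul_pos hy h1
    have h3 := mul_nonneg hx.le ha'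
    linarith

private theorem lt_of_mul {k x y : ℝ} (hk : 0 < k) (h : 0 < k * x - k * y) : y < x := by
  by_contra hc
  push Not at hc
  have := mul_le_mul_of_nonneg_left hc hk.le
  linarith

private theorem tau_lt {i j : Fin 2} (h : Irr t D) (hR : Rel t D B C N)
    (h0 : N 0 j ≤ N 0 i) (h1 : N 1 j ≤ N 1 i) (hne : N 0 i - N 0 j ≠ 0 ∨ N 1 i - N 1 j ≠ 0) :
    tau t D B j < tau t D B i := by
  obtain ⟨κ, hκ, he⟩ := Rel.eq_tau h hR
  apply lt_of_mul hκ
  rw [← he i, ← he j]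
  have hp := comb_pos (tau_pos h hR.2.1 0) (tau_pos h hR.2.1 1) (sub_nonneg.2 h0) (sub_nonneg.2 h1) hne
  push_cast at hp
  linarith

private theorem rho_lt {i j : Fin 2} (h : Irr t D) (hR : Rel t D B C N)
    (h0 : N j 0 ≤ N i 0) (h1 : N j 1 ≤ N i 1) (hne : N i 0 - N j 0 ≠ 0 ∨ N i 1 - N j 1 ≠ 0) :
    rho t D C j < rho t D C i := by
  obtain ⟨κ, hκ, he⟩ := Rel.eq_rho h hR
  apply lt_of_mul hκ
  rw [← he i, ← he j]
  have hp := comb_pos (rho_pos h hR.1 0) (rho_pos h hR.1 1) (sub_nonneg.2 h0) (sub_nonneg.2 h1) hne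
  push_cast at hp
  linarith

private theorem red_aux (h : Irr t D) : ∀ (n : ℕ) (B C : Matrix (Fin 2) (Fin 2) ℕ)
    (N : Matrix (Fin 2) (Fin 2) ℤ), Rel t D B C N → (∀ i j, 0 ≤ N i j) → 0 < N.det →
    N 0 0 + N 0 1 + N 1 0 + N 1 1 ≤ n →
    ∃ B' C' N', Eqv t D B C N B' C' N' ∧ (∀ i j, 0 ≤ N' i j) ∧ N'.det = N.det ∧
      N' 0 1 < N' 0 0 ∧ N' 1 0 < N' 0 0 ∧ N' 0 1 < N' 1 1 ∧ N' 1 0 < N' 1 1 := by
  intro n
  induction n with
  | zero =>
    intro B C N hR hN hd hs
    exfalso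
    have h00 := hN 0 0
    have h01 := hN 0 1
    have h10 := hN 1 0
    have h11 := hN 1 1
    have e0 : N 0 0 = 0 := by push_cast at hs; omega
    have e1 : N 0 1 = 0 := by push_cast at hs; omega
    rw [det_fin_two, e0, e1] at hd
    simp at hd
  | succ n ih =>
    intro B C N hR hN hd hs
    have h00 := hN 0 0
    have h01 := hN 0 1
    have h10 := hN 1 0
    have h11 := hN 1 1
    have hd' := hd
    rw [det_fin_two] at hd'
    -- one step
    have step : ∀ (B' C' : Matrix (Fin 2) (Fin 2) ℕ) (N' : Matrix (Fin 2) (Fin 2) ℤ),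
        Eqv t D B C N B' C' N' → (∀ i j, 0 ≤ N' i j) → N'.det = N.det →
        N' 0 0 + N' 0 1 + N' 1 0 + N' 1 1 < N 0 0 + N 0 1 + N 1 0 + N 1 1 →
        ∃ B' C' N', Eqv t D B C N B' C' N' ∧ (∀ i j, 0 ≤ N' i j) ∧ N'.det = N.det ∧
          N' 0 1 < N' 0 0 ∧ N' 1 0 < N' 0 0 ∧ N' 0 1 < N' 1 1 ∧ N' 1 0 < N' 1 1 := by
      intro B' C' N' hE hN' hd' hlt
      obtain ⟨B'', C'', N'', hE', hN'', hd'', hrest⟩ := ih B' C' N' (Eqv.rel h hR hE) hN'
        (by rw [hd']; exact hd) (by push_cast at hs; omega)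
      exact ⟨B'', C'', N'', Eqv.trans h hE hE', hN'', hd''.trans hd', hrest⟩
    have p01 : 0 < N 0 0 := by
      rcases h00.lt_or_eq with h | h
      · exact h
      · exfalso
        rw [← h] at hd'
        have := mul_nonneg h01 h10
        linarith
    have p11 : 0 < N 1 1 := by
      rcases h11.lt_or_eq with h | h
      · exact h
      · exfalso
        rw [← h] at hd'
        have := mul_nonneg h01 h10
        linarith
    by_cases c1 : N 0 1 ≤ N 0 0 ∧ N 1 1 ≤ N 1 0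
    · obtain ⟨c1, c2⟩ := c1
      have hne : N 0 0 - N 0 1 ≠ 0 ∨ N 1 0 - N 1 1 ≠ 0 := by
        by_contra hc
        push Not at hc
        obtain ⟨e0, e1⟩ := hc
        have e0' : N 0 0 = N 0 1 := by omega
        have e1' : N 1 0 = N 1 1 := by omega
        rw [e0', e1'] at hd'
        linarith
      obtain ⟨B', hE⟩ := mv_ER h hR (tau_lt h hR c1 c2 hne)
      refine step _ _ _ hE ?_ ?_ ?_
      · intro i j
        fin_cases i <;> fin_cases j <;> simp <;> omega
      · rw [det_fin_two, det_fin_two]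
        simp
        ring
      · simp
        omega
    by_cases c2 : N 0 0 ≤ N 0 1 ∧ N 1 0 ≤ N 1 1
    · obtain ⟨c1, c2⟩ := c2
      have hne : N 0 1 - N 0 0 ≠ 0 ∨ N 1 1 - N 1 0 ≠ 0 := by
        by_contra hc
        push Not at hc
        obtain ⟨e0, e1⟩ := hc
        have e0' : N 0 0 = N 0 1 := by omega
        have e1' : N 1 0 = N 1 1 := by omega
        rw [e0', e1'] at hd'
        linarith
      obtain ⟨B', hE⟩ := mv_EU h hR (tau_lt h hR c1 c2 hne)
      refine step _ _ _ hE ?_ ?_ ?_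
      · intro i j
        fin_cases i <;> fin_cases j <;> simp <;> omega
      · rw [det_fin_two, det_fin_two]
        simp
        ring
      · simp
        omega
    by_cases c3 : N 1 0 ≤ N 0 0 ∧ N 1 1 ≤ N 0 1
    · obtain ⟨c1, c2⟩ := c3
      have hne : N 0 0 - N 1 0 ≠ 0 ∨ N 0 1 - N 1 1 ≠ 0 := by
        by_contra hc
        push Not at hc
        obtain ⟨e0, e1⟩ := hc
        have e0' : N 0 0 = N 1 0 := by omega
        have e1' : N 0 1 = N 1 1 := by omega
        rw [e0', e1'] at hd'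
        linarith
      obtain ⟨B', hE⟩ := mv_FU' h hR (rho_lt h hR c1 c2 hne)
      refine step _ _ _ hE ?_ ?_ ?_
      · intro i j
        fin_cases i <;> fin_cases j <;> simp <;> omega
      · rw [det_fin_two, det_fin_two]
        simp
        ring
      · simp
        omega
    by_cases c4 : N 0 0 ≤ N 1 0 ∧ N 0 1 ≤ N 1 1
    · obtain ⟨c1, c2⟩ := c4
      have hne : N 1 0 - N 0 0 ≠ 0 ∨ N 1 1 - N 0 1 ≠ 0 := by
        by_contra hc
        push Not at hc
        obtain ⟨e0, e1⟩ := hc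
        have e0' : N 0 0 = N 1 0 := by omega
        have e1' : N 0 1 = N 1 1 := by omega
        rw [e0', e1'] at hd'
        linarith
      obtain ⟨B', hE⟩ := mv_FR' h hR (rho_lt h hR c1 c2 hne)
      refine step _ _ _ hE ?_ ?_ ?_
      · intro i j
        fin_cases i <;> fin_cases j <;> simp <;> omega
      · rw [det_fin_two, det_fin_two]
        simp
        ring
      · simp
        omega
    -- none of the four
    have a1 : N 0 1 < N 0 0 := by
      by_contra hc
      push Not at hc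
      have h' : N 1 1 < N 1 0 := by
        by_contra hc'
        push Not at hc'
        exact c2 ⟨hc, hc'⟩
      have := mul_le_mul hc h'.le h11 h01
      linarith
    have a2 : N 1 0 < N 1 1 := by
      by_contra hc
      push Not at hc
      exact c1 ⟨a1.le, hc⟩
    have a3 : N 1 0 < N 0 0 := by
      by_contra hc
      push Not at hc
      have h' : N 1 1 < N 0 1 := by
        by_contra hc'
        push Not at hc'
        exact c4 ⟨hc, hc'⟩
      have := mul_le_mul hc h'.le h11 h10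
      linarith [mul_comm (N 0 1) (N 1 0)]
    have a4 : N 0 1 < N 1 1 := by
      by_contra hc
      push Not at hc
      exact c3 ⟨a3.le, hc⟩
    exact ⟨B, C, N, Eqv.refl h hR, hN, rfl, a1, a3, a4, a2⟩

theorem exists_db (h : Irr t D) (hR : Rel t D B C N) (hN : ∀ i j, 0 ≤ N i j) (hd : 0 < N.det) :
    ∃ B' C' N', Eqv t D B C N B' C' N' ∧ (∀ i j, 0 ≤ N' i j) ∧ N'.det = N.det ∧
      N' 0 1 < N' 0 0 ∧ N' 1 0 < N' 0 0 ∧ N' 0 1 < N' 1 1 ∧ N' 1 0 < N' 1 1 := by
  refine red_aux h (N 0 0 + N 0 1 + N 1 0 + N 1 1).toNat B C N hR hN hd ?_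
  rw [Int.toNat_of_nonneg]
  have h00 := hN 0 0
  have h01 := hN 0 1
  have h10 := hN 1 0
  have h11 := hN 1 1
  omega

end Pool.Agent.DimRep.TB2
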