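import Pool.Agent.Lib.MP_5f1e54_an.TB2.Cls
import Pool.Agent.Lib.MP_5f1e54_an.TB2.Base

/-!
# TB-Same: oriented unimodular changes of basis are links

`lnk_nn`: `S ≥ 0`, `det S = ± 1`: induction on the sum of the entries. If the first column dominates the second
(`S 0 1 ≤ S 0 0`, `S 1 1 ≤ S 1 0`): by `Rel.eq_tau`, `κ (τ_0 - τ_1) = τC_0 (S00 - S01) + τC_1 (S10 - S11) > 0` (not both zero as
`det S ≠ 0`), so `tau B 1 < tau B 0`, that is `l - a < c`, so `l < a + c`, `(l - a)(l - d) = b c` gives `b < l - d`, so `b + d < l < a + c`,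
and `b ≤ a` (from `a d > b c`: if `a < b` then `c < d`...: `b + d < a + c < b + c`; `d < c`, `a d < b c`). So `base_right` gives
`Lnk B B1 E`, `E = !![1, 0; 1, 1]`; `Rel B B1 E` (`rel_of`), `S1 = S E⁻¹ = !![S00 - S01, S01; S10 - S11, S11]`, `Rel B1 C S1` (from
`Rel.inv`, `Rel.trans`), induction, `Lnk.trans`. The second column dominates: the same with `base_up`, `E = !![1, 1; 0, 1]`.
No column dominates: `S = 1` (then `B = C`, `Lnk.refl`) or `S = !![0, 1; 1, 0]` (`Lnk.swap`).
`lnk_uni`: `S` or its inverse is `≥ 0` (`rows`: `S i 0 ρ_0 + S i 1 ρ_1 > 0`; `columns`: `τ_0 S 0 j + τ_1 S 1 j > 0`; the same for the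
inverse): see the paper; then `lnk_nn` and `Lnk.symm`.
SIGNS: det S = 1: if S00 < 0 then S01 > 0, S10 > 0 so S00 S11 = 1 + S01 S10 > 0, S11 < 0, and the inverse `!![S11, -S01; -S10, S00]` has
a row with both entries `≤ 0`, contradiction (Rel.inv, eq_rho). So S00 ≥ 0, S11 ≥ 0. If S01 < 0: S01 S10 = S00 S11 - 1 with S00, S11 ≥ 1
(row 0, column 1 positivity), so S10 ≤ 0 and the inverse is ≥ 0. det S = -1: compose with the exchange of the rows.
-/

open Matrix

namespace Pool.Agent.DimRep.TB2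

variable {t : ℕ} {D : ℤ} {B C : Matrix (Fin 2) (Fin 2) ℕ} {S S' : Matrix (Fin 2) (Fin 2) ℤ}

private theorem zswap : (zQ !![0, 1; 1, 0] : Matrix (Fin 2) (Fin 2) ℚ) = !![0, 1; 1, 0] := by
  ext i j
  fin_cases i <;> fin_cases j <;> simp [zQ]

/-- the exchange of the basis vectors -/
theorem exists_swap (h : Irr t D) (hB : Cls t D B) :
    ∃ B' : Matrix (Fin 2) (Fin 2) ℕ, Rel t D B B' !![0, 1; 1, 0] ∧ Lnk B B' (zQ !![0, 1; 1, 0]) ∧
      rho t D B' 0 * rho t D B 0 = rho t D B' 1 * rho t D B 1 ∧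
      tau t D B' 0 * tau t D B 0 = tau t D B' 1 * tau t D B 1 := by
  obtain ⟨-, -, key⟩ := hB.lam_lt h
  have hρ1 := rho_pos h hB 1
  refine ⟨!![B 1 1, B 1 0; B 0 1, B 0 0], ⟨hB, ?_, ?_, ?_, ?_⟩, ?_, ?_, ?_⟩
  · obtain ⟨h1, h2⟩ := hB
    refine ⟨?_, ?_⟩
    · show B 1 1 + B 0 0 = t
      omega
    · show (B 1 1 : ℤ) * B 0 0 = B 1 0 * B 0 1 + D
      linarith
  · ext i j
    fin_cases i <;> fin_cases j <;> simp [toZ, Matrix.mul_apply, Fin.sum_univ_two]
  · simp [Matrix.det_fin_two]
  · simpa using hρ1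
  · rw [zswap]
    have h1 := Lnk.swap (B 0 0) (B 0 1) (B 1 0) (B 1 1)
    rw [← Matrix.eta_fin_two B] at h1
    exact h1
  · show ((B 1 0 : ℕ) : ℝ) * (B 0 1 : ℝ) = (lam t D - (B 1 1 : ℕ)) * (lam t D - B 0 0)
    rw [mul_comm (lam t D - (B 1 1 : ℕ)), key]
    ring
  · show ((B 0 1 : ℕ) : ℝ) * (B 1 0 : ℝ) = (lam t D - (B 1 1 : ℕ)) * (lam t D - B 0 0)
    rw [mul_comm (lam t D - (B 1 1 : ℕ)), key]

private theorem zE1 : (zQ !![1, 0; 1, 1] : Matrix (Fin 2) (Fin 2) ℚ) = !![1, 0; 1, 1] := by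
  ext i j
  fin_cases i <;> fin_cases j <;> simp [zQ]

private theorem zE2 : (zQ !![1, 1; 0, 1] : Matrix (Fin 2) (Fin 2) ℚ) = !![1, 1; 0, 1] := by
  ext i j
  fin_cases i <;> fin_cases j <;> simp [zQ]

/-- the only use of `D ≥ -t` -/
private theorem no_small (h : Irr t D) (hB : Cls t D B)
    (hc : (B 0 0 + 1) * (B 1 1 + 1) ≤ B 0 1 * B 1 0) : False := by
  have h1 : ((B 0 0 : ℤ) + 1) * (B 1 1 + 1) ≤ B 0 1 * B 1 0 := by exact_mod_cast hc
  have h2 : (B 0 0 : ℤ) + B 1 1 = t := by exact_mod_cast hB.1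
  have h3 := hB.2
  have h4 := h.1.2
  nlinarith

/-- the first column dominates -/
private theorem step1 (h : Irr t D) (hB : Cls t D B) (hτ : tau t D B 1 < tau t D B 0) :
    ∃ B1, Rel t D B B1 !![1, 0; 1, 1] ∧ Lnk B B1 (zQ !![1, 0; 1, 1]) := by
  obtain ⟨e2, e3⟩ := hB.entries h
  obtain ⟨l1, l2, key⟩ := hB.lam_lt h
  have hρ := rho_pos h hB 0
  obtain ⟨h1, h2⟩ := id hB
  have hτ' : lam t D - B 0 0 < B 1 0 := hτ
  have ec : (0 : ℝ) < B 1 0 := by exact_mod_cast e3
  have hb : (B 0 1 : ℝ) < lam t D - B 1 1 := by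
    by_contra hc
    have hc' : lam t D - B 1 1 ≤ B 0 1 := not_lt.1 hc
    have p : 0 < lam t D - B 1 1 := by linarith
    have q : 0 < lam t D - B 0 0 := by linarith
    nlinarith
  have hlt : B 0 1 + B 1 1 < B 0 0 + B 1 0 := by
    have : ((B 0 1 : ℝ) + B 1 1) < B 0 0 + B 1 0 := by linarith
    exact_mod_cast this
  have hba : B 0 1 ≤ B 0 0 := by
    by_contra hc
    have hc1 : B 0 0 + 1 ≤ B 0 1 := by omega
    have hc2 : B 1 1 + 1 ≤ B 1 0 := by omega
    exact no_small h hB (Nat.mul_le_mul hc1 hc2)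
  refine ⟨!![B 0 0 - B 0 1, B 0 1; B 0 0 + B 1 0 - (B 0 1 + B 1 1), B 0 1 + B 1 1],
    ⟨hB, ⟨?_, ?_⟩, ?_, ?_, ?_⟩, ?_⟩
  · show B 0 0 - B 0 1 + (B 0 1 + B 1 1) = t
    omega
  · show ((B 0 0 - B 0 1 : ℕ) : ℤ) * ((B 0 1 + B 1 1 : ℕ) : ℤ)
      = (B 0 1 : ℤ) * ((B 0 0 + B 1 0 - (B 0 1 + B 1 1) : ℕ) : ℤ) + D
    rw [Nat.cast_sub hba, Nat.cast_sub hlt.le]
    push_cast
    linear_combination h2
  · have q1 : ((B 0 0 - B 0 1 : ℕ) : ℤ) = B 0 0 - B 0 1 := by omega
    have q2 : ((B 0 0 + B 1 0 - (B 0 1 + B 1 1) : ℕ) : ℤ) = B 0 0 + B 1 0 - (B 0 1 + B 1 1) := by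
      omega
    ext i j
    fin_cases i <;> fin_cases j <;> simp [toZ, Matrix.mul_apply, Fin.sum_univ_two, q1, q2]
  · simp [Matrix.det_fin_two]
  · simpa using hρ
  · rw [zE1]
    have h3 := base_right (B 0 0) (B 0 1) (B 1 0) (B 1 1) e3 hba hlt
    rw [← Matrix.eta_fin_two B] at h3
    exact h3

/-- the second column dominates -/
private theorem step2 (h : Irr t D) (hB : Cls t D B) (hτ : tau t D B 0 < tau t D B 1) :
    ∃ B1, Rel t D B B1 !![1, 1; 0, 1] ∧ Lnk B B1 (zQ !![1, 1; 0, 1]) := by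
  obtain ⟨e2, e3⟩ := hB.entries h
  obtain ⟨l1, l2, key⟩ := hB.lam_lt h
  have hρ := rho_pos h hB 0
  have hρ' := rho_pos h hB 1
  obtain ⟨h1, h2⟩ := id hB
  have hτ' : (B 1 0 : ℝ) < lam t D - B 0 0 := hτ
  have ec : (0 : ℝ) < B 1 0 := by exact_mod_cast e3
  have hb : lam t D - B 1 1 < (B 0 1 : ℝ) := by
    by_contra hc
    have hc' : (B 0 1 : ℝ) ≤ lam t D - B 1 1 := not_lt.1 hc
    have p : 0 < lam t D - B 1 1 := by linarith
    have eb : (0 : ℝ) < B 0 1 := by exact_mod_cast e2
    nlinarith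
  have hlt : B 0 0 + B 1 0 < B 0 1 + B 1 1 := by
    have : (B 0 0 : ℝ) + B 1 0 < B 0 1 + B 1 1 := by linarith
    exact_mod_cast this
  have hcd : B 1 0 ≤ B 1 1 := by
    by_contra hc
    have hc1 : B 1 1 + 1 ≤ B 1 0 := by omega
    have hc2 : B 0 0 + 1 ≤ B 0 1 := by omega
    exact no_small h hB (Nat.mul_le_mul hc2 hc1)
  refine ⟨!![B 0 0 + B 1 0, B 0 1 + B 1 1 - (B 0 0 + B 1 0); B 1 0, B 1 1 - B 1 0],
    ⟨hB, ⟨?_, ?_⟩, ?_, ?_, ?_⟩, ?_⟩
  · show B 0 0 + B 1 0 + (B 1 1 - B 1 0) = t
    omega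
  · show ((B 0 0 + B 1 0 : ℕ) : ℤ) * ((B 1 1 - B 1 0 : ℕ) : ℤ)
      = ((B 0 1 + B 1 1 - (B 0 0 + B 1 0) : ℕ) : ℤ) * (B 1 0 : ℤ) + D
    rw [Nat.cast_sub hcd, Nat.cast_sub hlt.le]
    push_cast
    linear_combination h2
  · have q1 : ((B 1 1 - B 1 0 : ℕ) : ℤ) = B 1 1 - B 1 0 := by omega
    have q2 : ((B 0 1 + B 1 1 - (B 0 0 + B 1 0) : ℕ) : ℤ) = B 0 1 + B 1 1 - (B 0 0 + B 1 0) := by
      omega
    ext i j
    fin_cases i <;> fin_cases j <;> simp [toZ, Matrix.mul_apply, Fin.sum_univ_two, q1, q2]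
  · simp [Matrix.det_fin_two]
  · show 0 < ((1 : ℤ) : ℝ) * rho t D B 0 + ((1 : ℤ) : ℝ) * rho t D B 1
    push_cast
    linarith
  · rw [zE2]
    have h3 := base_up (B 0 0) (B 0 1) (B 1 0) (B 1 1) e2 hcd hlt
    rw [← Matrix.eta_fin_two B] at h3
    exact h3

private theorem det_pm (hS : S * S' = 1) : S.det = 1 ∨ S.det = -1 := by
  have h1 := congrArg Matrix.det hS
  rw [Matrix.det_mul, Matrix.det_one] at h1
  exact Int.isUnit_iff.1 (IsUnit.of_mul_eq_one _ h1)

private theorem glue (h : Irr t D) {B1 : Matrix (Fin 2) (Fin 2) ℕ} {E E' : Matrix (Fin 2) (Fin 2) ℤ}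
    (hE : E * E' = 1) (hR : Rel t D B C S) (hR1 : Rel t D B B1 E) (hL : Lnk B B1 (zQ E))
    (hL' : Rel t D B1 C (S * E') → Lnk B1 C (zQ (S * E'))) : Lnk B C (zQ S) := by
  have h1 := (hR1.inv h hE).trans h hR
  have h2 := hL.trans (hL' h1)
  rw [← zQ_mul, Matrix.mul_assoc, mul_eq_one_comm.mp hE, Matrix.mul_one] at h2
  exact h2

private theorem nn_aux (h : Irr t D) (n : ℕ) : ∀ (B C : Matrix (Fin 2) (Fin 2) ℕ)
    (S S' : Matrix (Fin 2) (Fin 2) ℤ), Rel t D B C S → S * S' = 1 → (∀ i j, 0 ≤ S i j) →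
    S 0 0 + S 0 1 + S 1 0 + S 1 1 ≤ n → Lnk B C (zQ S) := by
  induction n with
  | zero =>
    intro B C S S' hR hS hn hs
    exfalso
    have a := hn 0 0
    have b := hn 0 1
    have c := hn 1 0
    have d := hn 1 1
    push_cast at hs
    have hd := det_pm hS
    rw [Matrix.det_fin_two] at hd
    have a' : S 0 0 = 0 := by omega
    have b' : S 0 1 = 0 := by omega
    rw [a', b'] at hd
    simp at hd
  | succ n ih =>
    intro B C S S' hR hS hn hs
    have hd := det_pm hS
    rw [Matrix.det_fin_two] at hd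
    have a := hn 0 0
    have b := hn 0 1
    have c := hn 1 0
    have d := hn 1 1
    obtain ⟨κ, hκ, hκ'⟩ := hR.eq_tau h
    have hB := hR.1
    have hC := hR.2.1
    have t0 := tau_pos h hC 0
    have t1 := tau_pos h hC 1
    have k0 := hκ' 0
    have k1 := hκ' 1
    by_cases h1 : S 0 1 ≤ S 0 0 ∧ S 1 1 ≤ S 1 0
    · -- the first column dominates
      obtain ⟨u, v⟩ := h1
      have hlt : tau t D B 1 < tau t D B 0 := by
        have u' : (S 0 1 : ℝ) ≤ S 0 0 := by exact_mod_cast u
        have v' : (S 1 1 : ℝ) ≤ S 1 0 := by exact_mod_cast v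
        have hk : 0 < κ * (tau t D B 0 - tau t D B 1) := by
          have e : κ * (tau t D B 0 - tau t D B 1)
              = tau t D C 0 * ((S 0 0 : ℝ) - S 0 1) + tau t D C 1 * ((S 1 0 : ℝ) - S 1 1) := by
            linear_combination k1 - k0
          rw [e]
          rcases lt_or_eq_of_le u' with u2 | u2
          · have := mul_pos t0 (sub_pos.2 u2)
            have := mul_nonneg t1.le (sub_nonneg.2 v')
            linarith
          · rcases lt_or_eq_of_le v' with v2 | v2
            · have := mul_pos t1 (sub_pos.2 v2)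
              rw [u2, sub_self, mul_zero]
              linarith
            · exfalso
              have u3 : S 0 1 = S 0 0 := by exact_mod_cast u2
              have v3 : S 1 1 = S 1 0 := by exact_mod_cast v2
              rw [u3, v3] at hd
              have : S 0 0 * S 1 0 - S 0 0 * S 1 0 = 0 := by ring
              omega
        have := (mul_pos_iff_of_pos_left hκ).1 hk
        linarith
      obtain ⟨B1, hR1, hL1⟩ := step1 h hB hlt
      have hE : (!![1, 0; 1, 1] : Matrix (Fin 2) (Fin 2) ℤ) * !![1, 0; -1, 1] = 1 := by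
        ext i j
        fin_cases i <;> fin_cases j <;> simp [Matrix.mul_apply, Fin.sum_univ_two]
      refine glue h hE hR hR1 hL1 fun hR2 => ?_
      have s00 : (S * (!![1, 0; -1, 1] : Matrix (Fin 2) (Fin 2) ℤ)) 0 0 = S 0 0 - S 0 1 := by
        simp [Matrix.mul_apply, Fin.sum_univ_two]; ring
      have s01 : (S * (!![1, 0; -1, 1] : Matrix (Fin 2) (Fin 2) ℤ)) 0 1 = S 0 1 := by
        simp [Matrix.mul_apply, Fin.sum_univ_two]
      have s10 : (S * (!![1, 0; -1, 1] : Matrix (Fin 2) (Fin 2) ℤ)) 1 0 = S 1 0 - S 1 1 := by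
        simp [Matrix.mul_apply, Fin.sum_univ_two]; ring
      have s11 : (S * (!![1, 0; -1, 1] : Matrix (Fin 2) (Fin 2) ℤ)) 1 1 = S 1 1 := by
        simp [Matrix.mul_apply, Fin.sum_univ_two]
      refine ih B1 C _ (!![1, 0; 1, 1] * S') hR2 ?_ ?_ ?_
      · rw [Matrix.mul_assoc, ← Matrix.mul_assoc !![1, 0; -1, 1], mul_eq_one_comm.mp hE,
          Matrix.one_mul, hS]
      · intro i j
        fin_cases i <;> fin_cases j
        · show 0 ≤ (S * (!![1, 0; -1, 1] : Matrix (Fin 2) (Fin 2) ℤ)) 0 0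
          rw [s00]; omega
        · show 0 ≤ (S * (!![1, 0; -1, 1] : Matrix (Fin 2) (Fin 2) ℤ)) 0 1
          rw [s01]; omega
        · show 0 ≤ (S * (!![1, 0; -1, 1] : Matrix (Fin 2) (Fin 2) ℤ)) 1 0
          rw [s10]; omega
        · show 0 ≤ (S * (!![1, 0; -1, 1] : Matrix (Fin 2) (Fin 2) ℤ)) 1 1
          rw [s11]; omega
      · rw [s00, s01, s10, s11]
        push_cast at hs
        have hpos : 0 < S 0 1 + S 1 1 := by
          by_contra hc
          have e1 : S 0 1 = 0 := by omega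
          have e2 : S 1 1 = 0 := by omega
          rw [e1, e2] at hd
          simp at hd
        omega
    · by_cases h2 : S 0 0 ≤ S 0 1 ∧ S 1 0 ≤ S 1 1
      · -- the second column dominates
        obtain ⟨u, v⟩ := h2
        have hlt : tau t D B 0 < tau t D B 1 := by
          have u' : (S 0 0 : ℝ) ≤ S 0 1 := by exact_mod_cast u
          have v' : (S 1 0 : ℝ) ≤ S 1 1 := by exact_mod_cast v
          have hk : 0 < κ * (tau t D B 1 - tau t D B 0) := by
            have e : κ * (tau t D B 1 - tau t D B 0)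
                = tau t D C 0 * ((S 0 1 : ℝ) - S 0 0) + tau t D C 1 * ((S 1 1 : ℝ) - S 1 0) := by
              linear_combination k0 - k1
            rw [e]
            rcases lt_or_eq_of_le u' with u2 | u2
            · have := mul_pos t0 (sub_pos.2 u2)
              have := mul_nonneg t1.le (sub_nonneg.2 v')
              linarith
            · rcases lt_or_eq_of_le v' with v2 | v2
              · have := mul_pos t1 (sub_pos.2 v2)
                rw [u2, sub_self, mul_zero]
                linarith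
              · exfalso
                have u3 : S 0 0 = S 0 1 := by exact_mod_cast u2
                have v3 : S 1 0 = S 1 1 := by exact_mod_cast v2
                rw [u3, v3] at hd
                have : S 0 1 * S 1 1 - S 0 1 * S 1 1 = 0 := by ring
                omega
          have := (mul_pos_iff_of_pos_left hκ).1 hk
          linarith
        obtain ⟨B1, hR1, hL1⟩ := step2 h hB hlt
        have hE : (!![1, 1; 0, 1] : Matrix (Fin 2) (Fin 2) ℤ) * !![1, -1; 0, 1] = 1 := by
          ext i j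
          fin_cases i <;> fin_cases j <;> simp [Matrix.mul_apply, Fin.sum_univ_two]
        refine glue h hE hR hR1 hL1 fun hR2 => ?_
        have s00 : (S * (!![1, -1; 0, 1] : Matrix (Fin 2) (Fin 2) ℤ)) 0 0 = S 0 0 := by
          simp [Matrix.mul_apply, Fin.sum_univ_two]
        have s01 : (S * (!![1, -1; 0, 1] : Matrix (Fin 2) (Fin 2) ℤ)) 0 1 = S 0 1 - S 0 0 := by
          simp [Matrix.mul_apply, Fin.sum_univ_two]; ring
        have s10 : (S * (!![1, -1; 0, 1] : Matrix (Fin 2) (Fin 2) ℤ)) 1 0 = S 1 0 := by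
          simp [Matrix.mul_apply, Fin.sum_univ_two]
        have s11 : (S * (!![1, -1; 0, 1] : Matrix (Fin 2) (Fin 2) ℤ)) 1 1 = S 1 1 - S 1 0 := by
          simp [Matrix.mul_apply, Fin.sum_univ_two]; ring
        refine ih B1 C _ (!![1, 1; 0, 1] * S') hR2 ?_ ?_ ?_
        · rw [Matrix.mul_assoc, ← Matrix.mul_assoc !![1, -1; 0, 1], mul_eq_one_comm.mp hE,
            Matrix.one_mul, hS]
        · intro i j
          fin_cases i <;> fin_cases j
          · show 0 ≤ (S * (!![1, -1; 0, 1] : Matrix (Fin 2) (Fin 2) ℤ)) 0 0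
            rw [s00]; omega
          · show 0 ≤ (S * (!![1, -1; 0, 1] : Matrix (Fin 2) (Fin 2) ℤ)) 0 1
            rw [s01]; omega
          · show 0 ≤ (S * (!![1, -1; 0, 1] : Matrix (Fin 2) (Fin 2) ℤ)) 1 0
            rw [s10]; omega
          · show 0 ≤ (S * (!![1, -1; 0, 1] : Matrix (Fin 2) (Fin 2) ℤ)) 1 1
            rw [s11]; omega
        · rw [s00, s01, s10, s11]
          push_cast at hs
          have hpos : 0 < S 0 0 + S 1 0 := by
            by_contra hc
            have e1 : S 0 0 = 0 := by omega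
            have e2 : S 1 0 = 0 := by omega
            rw [e1, e2] at hd
            simp at hd
          omega
      · -- no column dominates
        have h3 : (S 0 0 < S 0 1 ∧ S 1 1 < S 1 0) ∨ (S 0 1 < S 0 0 ∧ S 1 0 < S 1 1) := by omega
        rcases h3 with ⟨u, v⟩ | ⟨u, v⟩
        · have hm : (S 0 0 + 1) * (S 1 1 + 1) ≤ S 0 1 * S 1 0 :=
            mul_le_mul (by omega) (by omega) (by omega) b
          have e0 : S 0 0 = 0 := by rcases hd with hd | hd <;> linarith
          have e1 : S 1 1 = 0 := by rcases hd with hd | hd <;> linarith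
          have e2 : S 0 1 * S 1 0 = 1 := by
            rw [e0, e1] at hd
            have : 0 ≤ S 0 1 * S 1 0 := mul_nonneg b c
            omega
          have e3 : S 0 1 = 1 := by
            have := Int.eq_one_or_neg_one_of_mul_eq_one e2
            omega
          have e4 : S 1 0 = 1 := by
            rw [e3, one_mul] at e2
            exact e2
          have eS : S = !![0, 1; 1, 0] := by
            rw [Matrix.eta_fin_two S, e0, e1, e3, e4]
          have hmat : S * toZ B = toZ C * S := hR.2.2.1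
          have hC' : C = !![B 1 1, B 1 0; B 0 1, B 0 0] := by
            rw [eS] at hmat
            have m00 := congrFun (congrFun hmat 0) 0
            have m01 := congrFun (congrFun hmat 0) 1
            have m10 := congrFun (congrFun hmat 1) 0
            have m11 := congrFun (congrFun hmat 1) 1
            simp [toZ, Matrix.mul_apply, Fin.sum_univ_two] at m00 m01 m10 m11
            ext i j
            fin_cases i <;> fin_cases j <;> simp <;> omega
          obtain ⟨B', hr, hl, -⟩ := exists_swap h hB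
          have hB' : B' = C := by
            have hmat' : !![0, 1; 1, 0] * toZ B = toZ B' * !![0, 1; 1, 0] := hr.2.2.1
            rw [hC']
            have m00 := congrFun (congrFun hmat' 0) 0
            have m01 := congrFun (congrFun hmat' 0) 1
            have m10 := congrFun (congrFun hmat' 1) 0
            have m11 := congrFun (congrFun hmat' 1) 1
            simp [toZ, Matrix.mul_apply, Fin.sum_univ_two] at m00 m01 m10 m11
            ext i j
            fin_cases i <;> fin_cases j <;> simp <;> omega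
          rw [eS, ← hB']
          exact hl
        · have hm : (S 0 1 + 1) * (S 1 0 + 1) ≤ S 0 0 * S 1 1 :=
            mul_le_mul (by omega) (by omega) (by omega) a
          have e0 : S 0 1 = 0 := by rcases hd with hd | hd <;> linarith
          have e1 : S 1 0 = 0 := by rcases hd with hd | hd <;> linarith
          have e2 : S 0 0 * S 1 1 = 1 := by
            rw [e0, e1] at hd
            have : 0 ≤ S 0 0 * S 1 1 := mul_nonneg a d
            omega
          have e3 : S 0 0 = 1 := by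
            have := Int.eq_one_or_neg_one_of_mul_eq_one e2
            omega
          have e4 : S 1 1 = 1 := by
            rw [e3, one_mul] at e2
            exact e2
          have eS : S = 1 := by
            rw [Matrix.eta_fin_two S, e0, e1, e3, e4]
            ext i j
            fin_cases i <;> fin_cases j <;> simp
          have hmat : S * toZ B = toZ C * S := hR.2.2.1
          have hCB : C = B := by
            rw [eS, Matrix.one_mul, Matrix.mul_one] at hmat
            ext i j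
            have := congrFun (congrFun hmat i) j
            simp [toZ] at this
            exact this.symm
          rw [eS, hCB]
          have h4 : (zQ (1 : Matrix (Fin 2) (Fin 2) ℤ)) = 1 := zQ_one
          rw [h4]
          exact Lnk.refl

theorem lnk_nn (h : Irr t D) (hR : Rel t D B C S) (hS : S * S' = 1) (hn : ∀ i j, 0 ≤ S i j) :
    Lnk B C (zQ S) :=
  nn_aux h (S 0 0 + S 0 1 + S 1 0 + S 1 1).toNat B C S S' hR hS hn (Int.self_le_toNat _)

private theorem uni_one (h : Irr t D) (hR : Rel t D B C S) (hS : S * S' = 1) (hd : S.det = 1) :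
    Lnk B C (zQ S) := by
  have hB := hR.1
  have hC := hR.2.1
  have hRi := hR.inv h hS
  have hS'S : S' * S = 1 := mul_eq_one_comm.mp hS
  have hadj : S' = !![S 1 1, -S 0 1; -S 1 0, S 0 0] := by
    have h1 : S.adjugate * (S * S') = S.adjugate := by rw [hS, Matrix.mul_one]
    rw [← Matrix.mul_assoc, Matrix.adjugate_mul, hd, one_smul, Matrix.one_mul,
      Matrix.adjugate_fin_two] at h1
    exact h1
  rw [Matrix.det_fin_two] at hd
  have r0 := rho_pos h hB 0
  have r1 := rho_pos h hB 1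
  have t0 := tau_pos h hC 0
  have t1 := tau_pos h hC 1
  have u0 := rho_pos h hC 0
  have u1 := rho_pos h hC 1
  obtain ⟨κ, hκ, hκ'⟩ := hR.eq_rho h
  obtain ⟨ν, hν, hν'⟩ := hR.eq_tau h
  obtain ⟨μ, hμ, hμ'⟩ := hRi.eq_rho h
  -- not both entries of a row, a column are `≤ 0`
  have rowS : ∀ i, 0 < S i 0 ∨ 0 < S i 1 := by
    intro i
    by_contra hc
    push Not at hc
    obtain ⟨c0, c1⟩ := hc
    have c0' : (S i 0 : ℝ) ≤ 0 := by exact_mod_cast c0
    have c1' : (S i 1 : ℝ) ≤ 0 := by exact_mod_cast c1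
    have e := hκ' i
    have p := mul_pos hκ (rho_pos h hC i)
    have := mul_nonpos_of_nonpos_of_nonneg c0' r0.le
    have := mul_nonpos_of_nonpos_of_nonneg c1' r1.le
    linarith
  have colS : ∀ j, 0 < S 0 j ∨ 0 < S 1 j := by
    intro j
    by_contra hc
    push Not at hc
    obtain ⟨c0, c1⟩ := hc
    have c0' : (S 0 j : ℝ) ≤ 0 := by exact_mod_cast c0
    have c1' : (S 1 j : ℝ) ≤ 0 := by exact_mod_cast c1
    have e := hν' j
    have p := mul_pos hν (tau_pos h hB j)
    have := mul_nonpos_of_nonneg_of_nonpos t0.le c0'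
    have := mul_nonpos_of_nonneg_of_nonpos t1.le c1'
    linarith
  have rowS' : ∀ i, 0 < S' i 0 ∨ 0 < S' i 1 := by
    intro i
    by_contra hc
    push Not at hc
    obtain ⟨c0, c1⟩ := hc
    have c0' : (S' i 0 : ℝ) ≤ 0 := by exact_mod_cast c0
    have c1' : (S' i 1 : ℝ) ≤ 0 := by exact_mod_cast c1
    have e := hμ' i
    have p := mul_pos hμ (rho_pos h hB i)
    have := mul_nonpos_of_nonpos_of_nonneg c0' u0.le
    have := mul_nonpos_of_nonpos_of_nonneg c1' u1.le
    linarith
  have e00 : S' 0 0 = S 1 1 := by rw [hadj]; rfl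
  have e01 : S' 0 1 = -S 0 1 := by rw [hadj]; rfl
  have e10 : S' 1 0 = -S 1 0 := by rw [hadj]; rfl
  have e11 : S' 1 1 = S 0 0 := by rw [hadj]; rfl
  have a0 : 0 ≤ S 0 0 := by
    by_contra hc
    have hc' : S 0 0 < 0 := not_le.1 hc
    have b : 0 < S 0 1 := by rcases rowS 0 with q | q <;> omega
    have c : 0 < S 1 0 := by rcases colS 0 with q | q <;> omega
    have p : 0 < S 0 1 * S 1 0 := mul_pos b c
    have q : S 1 1 < 0 := by
      by_contra hq
      have := mul_nonpos_of_nonpos_of_nonneg hc'.le (not_lt.1 hq)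
      linarith
    rcases rowS' 0 with w | w
    · rw [e00] at w; omega
    · rw [e01] at w; omega
  have d0 : 0 ≤ S 1 1 := by
    by_contra hc
    have hc' : S 1 1 < 0 := not_le.1 hc
    have c : 0 < S 1 0 := by rcases rowS 1 with q | q <;> omega
    have b : 0 < S 0 1 := by rcases colS 1 with q | q <;> omega
    have p : 0 < S 0 1 * S 1 0 := mul_pos b c
    have := mul_nonpos_of_nonneg_of_nonpos a0 hc'.le
    linarith
  have inv_case : 0 ≤ -S 0 1 → 0 ≤ -S 1 0 → Lnk B C (zQ S) := by
    intro b c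
    have hnn : ∀ i j, 0 ≤ S' i j := by
      intro i j
      fin_cases i <;> fin_cases j
      · show 0 ≤ S' 0 0
        rw [e00]; exact d0
      · show 0 ≤ S' 0 1
        rw [e01]; exact b
      · show 0 ≤ S' 1 0
        rw [e10]; exact c
      · show 0 ≤ S' 1 1
        rw [e11]; exact a0
    have h1 := (lnk_nn h hRi hS'S hnn).symm
    have h2 : (zQ S')⁻¹ = zQ S := by
      apply Matrix.inv_eq_left_inv
      rw [← zQ_mul, hS, zQ_one]
    rw [h2] at h1
    exact h1
  by_cases b : 0 ≤ S 0 1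
  · by_cases c : 0 ≤ S 1 0
    · refine lnk_nn h hR hS ?_
      intro i j
      fin_cases i <;> fin_cases j <;> assumption
    · have c' : S 1 0 < 0 := not_le.1 c
      have d1 : 0 < S 1 1 := by rcases rowS 1 with q | q <;> omega
      have a1 : 0 < S 0 0 := by rcases colS 0 with q | q <;> omega
      have hb : S 0 1 ≤ 0 := by
        by_contra hq
        have := mul_neg_of_pos_of_neg (not_le.1 hq) c'
        have := mul_pos a1 d1
        linarith
      exact inv_case (by omega) (by omega)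
  · have b' : S 0 1 < 0 := not_le.1 b
    have a1 : 0 < S 0 0 := by rcases rowS 0 with q | q <;> omega
    have d1 : 0 < S 1 1 := by rcases colS 1 with q | q <;> omega
    have hc : S 1 0 ≤ 0 := by
      by_contra hq
      have := mul_neg_of_neg_of_pos b' (not_le.1 hq)
      have := mul_pos a1 d1
      linarith
    exact inv_case (by omega) (by omega)

theorem lnk_uni (h : Irr t D) (hR : Rel t D B C S) (hS : S * S' = 1) : Lnk B C (zQ S) := by
  rcases det_pm hS with hd | hd
  · exact uni_one h hR hS hd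
  · obtain ⟨C', hr, hl, -⟩ := exists_swap h hR.2.1
    have hW : (!![0, 1; 1, 0] : Matrix (Fin 2) (Fin 2) ℤ) * !![0, 1; 1, 0] = 1 := by
      ext i j
      fin_cases i <;> fin_cases j <;> simp [Matrix.mul_apply, Fin.sum_univ_two]
    have h1 := hR.trans h hr
    have h2 : ((!![0, 1; 1, 0] : Matrix (Fin 2) (Fin 2) ℤ) * S) * (S' * !![0, 1; 1, 0]) = 1 := by
      rw [Matrix.mul_assoc, ← Matrix.mul_assoc S, hS, Matrix.one_mul, hW]
    have h3 : ((!![0, 1; 1, 0] : Matrix (Fin 2) (Fin 2) ℤ) * S).det = 1 := by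
      rw [Matrix.det_mul, hd]
      simp [Matrix.det_fin_two]
    have h4 := uni_one h h1 h2 h3
    have h5 := hl.symm
    have h6 : (zQ (!![0, 1; 1, 0] : Matrix (Fin 2) (Fin 2) ℤ))⁻¹ = zQ !![0, 1; 1, 0] := by
      apply Matrix.inv_eq_left_inv
      rw [← zQ_mul, hW, zQ_one]
    rw [h6] at h5
    have h7 := h4.trans h5
    rw [← zQ_mul, ← Matrix.mul_assoc, hW, Matrix.one_mul] at h7
    exact h7

end Pool.Agent.DimRep.TB2
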