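import Pool.Agent.Lib.MP_5f1e54_an.TB2.Mov

/-!
# TB-Side: the next pair of bases on the side of the eigenvector

`colred`: reduction of the columns: strong induction on `N 0 1`: if `N 0 1 < N 0 0` done. Otherwise `N 0 0 ≤ N 0 1` and
`N 1 0 ≤ N 1 1` (as `N00 N11 = det + N01 N10 > N00 N10`), by `Rel.eq_tau` `τ_0 < τ_1`: `mv_EU`, which keeps `N 0 0`, `N 1 0`, the
determinant and the signs (`N11 - N10 ≥ 0`).
`farey`: `N = !![r0, r1; -l0, l1]`, `r0, l0 > 0`, `r1 ≥ 0`, `l1 > 0`, `det N > 0`: strong induction on `r0 + l0`. `Rel.eq_tau` for the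
column 0: `τC_0 r0 - τC_1 l0 > 0`. If `r0 ≤ l0`: so `τC_1 < τC_0`: `mv_FR`: the second row becomes `(r0 - l0, r1 + l1)`: if `r0 = l0` done
(`0 = r0 - l0 < r0`), otherwise induction (`l0 - r0 < l0`). If `l0 < r0`: `tau_ne`; if `τC_1 < τC_0`: `mv_FR`, done with `0 < r0 - l0 < r0`;
if `τC_0 < τC_1`: `mv_FU`: the first row becomes `(r0 - l0, r1 + l1)`, induction.
`side`: `mv_ER` (the condition is `hs`): `N1 = !![N00 - N01, N01; N10 - N11, N11]`, same determinant; `farey` (with `r0 = N00 - N01`,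
`l0 = N11 - N10`), then `colred`. The determinant in `mv_ER`, `mv_FR`, `mv_FU`, `mv_EU` does not change (`Matrix.det_fin_two_of`).
-/

open Matrix

namespace Pool.Agent.DimRep.TB2

variable {t : ℕ} {D : ℤ} {B C : Matrix (Fin 2) (Fin 2) ℕ} {N : Matrix (Fin 2) (Fin 2) ℤ}

theorem colred (h : Irr t D) (hR : Rel t D B C N) (hd : 0 < N.det) (h0 : 0 < N 0 0) (h1 : 0 ≤ N 0 1)
    (h2 : 0 ≤ N 1 0) (h3 : 0 ≤ N 1 1) :
    ∃ B' N', Eqv t D B C N B' C N' ∧ N'.det = N.det ∧ N' 0 0 = N 0 0 ∧ N' 1 0 = N 1 0 ∧ 0 ≤ N' 0 1 ∧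
      N' 0 1 < N' 0 0 ∧ 0 ≤ N' 1 1 := by
  obtain ⟨n, hn⟩ : ∃ n : ℕ, (N 0 1).toNat = n := ⟨_, rfl⟩
  induction n using Nat.strong_induction_on generalizing B N with
  | _ n ih =>
    rcases lt_or_ge (N 0 1) (N 0 0) with hlt | hge
    · exact ⟨B, N, Eqv.refl h hR, rfl, rfl, rfl, h1, hlt, h3⟩
    · have hd' := hd
      rw [Matrix.det_fin_two] at hd'
      have h4 : N 1 0 ≤ N 1 1 := by
        by_contra hc
        have hc' : N 1 1 < N 1 0 := not_le.1 hc
        nlinarith [mul_le_mul hge hc'.le h3 h1]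
      have hC := hR.2.1
      have hτ : tau t D B 0 < tau t D B 1 := by
        obtain ⟨κ, hκ, hκ'⟩ := hR.eq_tau h
        have k0 := hκ' 0
        have k1 := hκ' 1
        have t0 := tau_pos h hC 0
        have t1 := tau_pos h hC 1
        have a0 : (0 : ℝ) ≤ (N 0 1 : ℝ) - N 0 0 := by
          have : ((N 0 0 : ℤ) : ℝ) ≤ N 0 1 := by exact_mod_cast hge
          linarith
        have a1 : (0 : ℝ) ≤ (N 1 1 : ℝ) - N 1 0 := by
          have : ((N 1 0 : ℤ) : ℝ) ≤ N 1 1 := by exact_mod_cast h4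
          linarith
        have a2 : 0 < ((N 0 1 : ℝ) - N 0 0) + ((N 1 1 : ℝ) - N 1 0) := by
          rcases lt_or_eq_of_le hge with hl | he
          · have : ((N 0 0 : ℤ) : ℝ) < N 0 1 := by exact_mod_cast hl
            linarith
          · rcases lt_or_eq_of_le h4 with hl | he'
            · have : ((N 1 0 : ℤ) : ℝ) < N 1 1 := by exact_mod_cast hl
              linarith
            · rw [← he, ← he'] at hd'
              nlinarith
        have a3 : κ * (tau t D B 1 - tau t D B 0)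
            = tau t D C 0 * ((N 0 1 : ℝ) - N 0 0) + tau t D C 1 * ((N 1 1 : ℝ) - N 1 0) := by
          linear_combination k0 - k1
        have a4 : 0 < tau t D C 0 * ((N 0 1 : ℝ) - N 0 0) + tau t D C 1 * ((N 1 1 : ℝ) - N 1 0) := by
          rcases lt_or_eq_of_le a0 with hl | he
          · have := mul_pos t0 hl
            have := mul_nonneg t1.le a1
            linarith
          · rw [← he] at a2 ⊢
            have := mul_pos t1 (by linarith : (0 : ℝ) < (N 1 1 : ℝ) - N 1 0)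
            linarith
        rw [← a3] at a4
        by_contra hc
        have := mul_nonneg hκ.le (sub_nonneg.2 (not_lt.1 hc))
        linarith
      obtain ⟨B1, hE⟩ := mv_EU h hR hτ
      have hdet : (!![N 0 0, N 0 1 - N 0 0; N 1 0, N 1 1 - N 1 0] : Matrix (Fin 2) (Fin 2) ℤ).det
          = N.det := by
        rw [Matrix.det_fin_two, Matrix.det_fin_two]
        simp
        ring
      obtain ⟨B', N', g1, g2, g3, g4, g5, g6, g7⟩ := ih (N 0 1 - N 0 0).toNat (by omega)
        (hE.rel h hR) (by rw [hdet]; exact hd) (by simpa using h0) (by simpa using hge)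
        (by simpa using h2) (by simpa using h4) (by simp)
      refine ⟨B', N', hE.trans h g1, g2.trans hdet, ?_, ?_, g5, g6, g7⟩
      · rw [g3]; simp
      · rw [g4]; simp

theorem farey (h : Irr t D) (hR : Rel t D B C N) (hd : 0 < N.det) (h0 : 0 < N 0 0) (h1 : 0 ≤ N 0 1)
    (h2 : N 1 0 < 0) (h3 : 0 < N 1 1) :
    ∃ C' N', Eqv t D B C N B C' N' ∧ N'.det = N.det ∧ 0 < N' 0 0 ∧ N' 0 0 ≤ N 0 0 ∧ 0 ≤ N' 0 1 ∧
      0 ≤ N' 1 0 ∧ N' 1 0 < N' 0 0 ∧ 0 ≤ N' 1 1 := by
  obtain ⟨n, hn⟩ : ∃ n : ℕ, (N 0 0 - N 1 0).toNat = n := ⟨_, rfl⟩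
  induction n using Nat.strong_induction_on generalizing C N with
  | _ n ih =>
    have hB := hR.1
    have hC := hR.2.1
    -- the column 0
    obtain ⟨κ, hκ, hκ'⟩ := hR.eq_tau h
    have k0 := hκ' 0
    have hpos : 0 < tau t D C 0 * (N 0 0 : ℝ) + tau t D C 1 * (N 1 0 : ℝ) := by
      rw [k0]
      exact mul_pos hκ (tau_pos h hB 0)
    have t0 := tau_pos h hC 0
    have t1 := tau_pos h hC 1
    have hdR : (!![N 0 0, N 0 1; N 0 0 + N 1 0, N 0 1 + N 1 1] : Matrix (Fin 2) (Fin 2) ℤ).det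
        = N.det := by
      rw [Matrix.det_fin_two, Matrix.det_fin_two]
      simp
      ring
    have hdU : (!![N 0 0 + N 1 0, N 0 1 + N 1 1; N 1 0, N 1 1] : Matrix (Fin 2) (Fin 2) ℤ).det
        = N.det := by
      rw [Matrix.det_fin_two, Matrix.det_fin_two]
      simp
      ring
    rcases le_or_gt (N 0 0 + N 1 0) 0 with hle | hgt
    · -- `r0 ≤ l0`
      have hτ : tau t D C 1 < tau t D C 0 := by
        by_contra hc
        have hc' := not_lt.1 hc
        have hle' : (N 0 0 : ℝ) + N 1 0 ≤ 0 := by exact_mod_cast hle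
        have h2' : (N 1 0 : ℝ) < 0 := by exact_mod_cast h2
        have h0' : (0 : ℝ) < N 0 0 := by exact_mod_cast h0
        have : tau t D C 0 * (N 0 0 : ℝ) ≤ tau t D C 1 * (N 0 0 : ℝ) :=
          mul_le_mul_of_nonneg_right hc' h0'.le
        have := mul_nonpos_of_nonneg_of_nonpos t1.le hle'
        linarith
      obtain ⟨C1, hE⟩ := mv_FR h hR hτ
      rcases lt_or_eq_of_le hle with hlt | heq
      · obtain ⟨C', N', g1, g2, g3, g4, g5, g6, g7, g8⟩ := ih
          (N 0 0 - (N 0 0 + N 1 0)).toNat (by omega) (hE.rel h hR) (by rw [hdR]; exact hd)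
          (by simpa using h0) (by simpa using h1) (by simpa using hlt)
          (by simpa using add_pos_of_nonneg_of_pos h1 h3) (by simp)
        exact ⟨C', N', hE.trans h g1, g2.trans hdR, g3, by simpa using g4, g5, g6, g7, g8⟩
      · refine ⟨C1, _, hE, hdR, by simpa using h0, by simp, by simpa using h1, ?_, ?_, ?_⟩
        · simp [heq]
        · simp [heq, h0]
        · simpa using add_nonneg h1 h3.le
    · -- `l0 < r0`
      rcases lt_or_gt_of_ne (tau_ne h hC) with hτ | hτ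
      · obtain ⟨C1, hE⟩ := mv_FU h hR hτ
        obtain ⟨C', N', g1, g2, g3, g4, g5, g6, g7, g8⟩ := ih
          (N 0 0 + N 1 0 - N 1 0).toNat (by omega) (hE.rel h hR) (by rw [hdU]; exact hd)
          (by simpa using hgt) (by simpa using add_nonneg h1 h3.le) (by simpa using h2)
          (by simpa using h3) (by simp)
        refine ⟨C', N', hE.trans h g1, g2.trans hdU, g3, ?_, g5, g6, g7, g8⟩
        have g4' : N' 0 0 ≤ N 0 0 + N 1 0 := by simpa using g4
        linarith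
      · obtain ⟨C1, hE⟩ := mv_FR h hR hτ
        refine ⟨C1, _, hE, hdR, by simpa using h0, by simp, by simpa using h1, ?_, ?_, ?_⟩
        · simpa using hgt.le
        · simpa using h2
        · simpa using add_nonneg h1 h3.le

theorem side (h : Irr t D) (hR : Rel t D B C N) (hd : 0 < N.det) (h0 : 0 ≤ N 0 1) (h1 : N 0 1 < N 0 0)
    (h2 : 0 ≤ N 1 0) (h3 : N 1 0 < N 1 1) (hs : tau t D B 1 < tau t D B 0) :
    ∃ B' C' N', Eqv t D B C N B' C' N' ∧ (∀ i j, 0 ≤ N' i j) ∧ N'.det = N.det ∧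
      N' 0 1 < N 0 0 - N 0 1 ∧ N' 1 0 < N 0 0 - N 0 1 := by
  obtain ⟨B1, hE⟩ := mv_ER h hR hs
  have hdet : (!![N 0 0 - N 0 1, N 0 1; N 1 0 - N 1 1, N 1 1] : Matrix (Fin 2) (Fin 2) ℤ).det
      = N.det := by
    rw [Matrix.det_fin_two, Matrix.det_fin_two]
    simp
    ring
  have hR1 := hE.rel h hR
  obtain ⟨C2, N2, g1, g2, g3, g4, g5, g6, g7, g8⟩ := farey h hR1 (by rw [hdet]; exact hd)
    (by simpa using h1) (by simpa using h0) (by simpa using h3)
    (by simpa using lt_of_le_of_lt h2 h3)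
  have hR2 := g1.rel h hR1
  obtain ⟨B3, N3, k1, k2, k3, k4, k5, k6, k7⟩ := colred h hR2 (by rw [g2, hdet]; exact hd) g3 g5 g6 g8
  have g4' : N2 0 0 ≤ N 0 0 - N 0 1 := by simpa using g4
  refine ⟨B3, C2, N3, (hE.trans h g1).trans h k1, ?_, by rw [k2, g2, hdet], ?_, ?_⟩
  · intro i j
    fin_cases i <;> fin_cases j
    · show 0 ≤ N3 0 0
      omega
    · exact k5
    · show 0 ≤ N3 1 0
      omega
    · exact k7
  · omega
  · omega

end Pool.Agent.DimRep.TB2
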