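import Pool.Agent.Lib.MP_5f1e54_an.TB2.Pos
import Pool.Agent.Lib.MP_5f1e54_an.TB2.Red
import Pool.Agent.Lib.MP_5f1e54_an.TB2.Side
import Pool.Agent.Lib.MP_5f1e54_an.TB2.Direct

/-!
# TB-Step: the steps of index `p` with `mu (⌊√p⌋ - 1) ≤ p`

`N` is made nonnegative (`exists_nonneg`), its determinant positive (`mv_swap`), and doubly balanced (`exists_db`).
Let `s = ⌊√p⌋`. If `N01, N10 < s` the direct step applies. Otherwise `N00 - N01 ≤ s` and `N11 - N10 ≤ s`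
(`p = N01 y + N10 x + x y` with `x = N00 - N01`, `y = N11 - N10`), and `side` (after an exchange of both bases if
necessary) gives a nonnegative matrix with off-diagonal entries `< s`.
For `mu < 0` (so `-1 < mu < 0`) every doubly balanced matrix gives a direct step: `N00, N11 ≤ p`.
-/

open Matrix

namespace Pool.Agent.DimRep.TB2

variable {t : ℕ} {D : ℤ}

/-- the direct step with small off-diagonal entries -/
private theorem step_small (h : Irr t D) (hmu : 0 ≤ mu t D) {p : ℕ} (hp : 1 ≤ p)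
    (hm : mu t D * ((Nat.sqrt p : ℝ) - 1) ≤ p) {B C : Matrix (Fin 2) (Fin 2) ℕ}
    {N : Matrix (Fin 2) (Fin 2) ℤ} (hR : Rel t D B C N) (hN : ∀ i j, 0 ≤ N i j)
    (hdet : N.det = p) (hdiv : ∃ R : Matrix (Fin 2) (Fin 2) ℤ, toZ B = R * N)
    (h1 : N 0 1 < (Nat.sqrt p : ℤ)) (h2 : N 1 0 < (Nat.sqrt p : ℤ)) : Lnk B C (zQ N) := by
  have a1 : (N 0 1 : ℝ) ≤ (Nat.sqrt p : ℝ) - 1 := by
    have : N 0 1 ≤ (Nat.sqrt p : ℤ) - 1 := by omega
    have h3 : ((N 0 1 : ℤ) : ℝ) ≤ (((Nat.sqrt p : ℤ) - 1 : ℤ) : ℝ) := by exact_mod_cast this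
    push_cast at h3
    exact h3
  have a2 : (N 1 0 : ℝ) ≤ (Nat.sqrt p : ℝ) - 1 := by
    have : N 1 0 ≤ (Nat.sqrt p : ℤ) - 1 := by omega
    have h3 : ((N 1 0 : ℤ) : ℝ) ≤ (((Nat.sqrt p : ℤ) - 1 : ℤ) : ℝ) := by exact_mod_cast this
    push_cast at h3
    exact h3
  have hp0 : (0 : ℝ) ≤ p := Nat.cast_nonneg p
  have c0 : 0 ≤ mu t D * (N 0 0 : ℝ) := mul_nonneg hmu (by exact_mod_cast hN 0 0)
  have c1 : 0 ≤ mu t D * (N 1 1 : ℝ) := mul_nonneg hmu (by exact_mod_cast hN 1 1)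
  exact direct h hR hN (by omega) hdet ((mul_le_mul_of_nonneg_left a1 hmu).trans hm)
    ((mul_le_mul_of_nonneg_left a2 hmu).trans hm) (by linarith) (by linarith) hdiv

/-- the direct step for `mu < 0` -/
private theorem step_neg (h : Irr t D) (hmu : mu t D < 0) {p : ℕ} (hp : 1 ≤ p)
    {B C : Matrix (Fin 2) (Fin 2) ℕ}
    {N : Matrix (Fin 2) (Fin 2) ℤ} (hR : Rel t D B C N) (hN : ∀ i j, 0 ≤ N i j)
    (hdet : N.det = p) (hdiv : ∃ R : Matrix (Fin 2) (Fin 2) ℤ, toZ B = R * N)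
    (b1 : N 0 1 < N 0 0) (b2 : N 1 0 < N 0 0) (b3 : N 0 1 < N 1 1) (b4 : N 1 0 < N 1 1) :
    Lnk B C (zQ N) := by
  obtain ⟨-, -, hm0, -⟩ := lam_facts h hR.1
  have hdet' := hdet
  rw [det_fin_two] at hdet'
  have h00 := hN 0 0
  have h01 := hN 0 1
  have h10 := hN 1 0
  have h11 := hN 1 1
  have hp0 : (0 : ℝ) ≤ p := Nat.cast_nonneg p
  have k : N 0 1 * N 1 0 ≤ (N 1 1 - 1) * (N 0 0 - 1) :=
    mul_le_mul (by omega) (by omega) h10 (by omega)
  have k0 : N 0 0 ≤ p := by nlinarith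
  have k1 : N 1 1 ≤ p := by nlinarith
  have k0' : (N 0 0 : ℝ) ≤ p := by exact_mod_cast k0
  have k1' : (N 1 1 : ℝ) ≤ p := by exact_mod_cast k1
  have h00' : (0 : ℝ) ≤ N 0 0 := by exact_mod_cast h00
  have h01' : (0 : ℝ) ≤ N 0 1 := by exact_mod_cast h01
  have h10' : (0 : ℝ) ≤ N 1 0 := by exact_mod_cast h10
  have h11' : (0 : ℝ) ≤ N 1 1 := by exact_mod_cast h11
  refine direct h hR hN (by omega) hdet ?_ ?_ ?_ ?_ hdiv
  · have := mul_nonpos_of_nonpos_of_nonneg hmu.le h01'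
    linarith
  · have := mul_nonpos_of_nonpos_of_nonneg hmu.le h10'
    linarith
  · have := mul_le_mul_of_nonneg_right hm0.le h00'
    linarith
  · have := mul_le_mul_of_nonneg_right hm0.le h11'
    linarith

/-- the arithmetic of the second case -/
private theorem step_arith {a b c d s p : ℤ} (hs : 0 ≤ s) (hb : 0 ≤ b) (hc : 0 ≤ c) (hba : b < a)
    (hca : c < a) (hbd : b < d) (hcd : c < d) (hp : a * d - b * c = p) (hps : p < (s + 1) * (s + 1))
    (hbig : s ≤ b ∨ s ≤ c) : a - b ≤ s ∧ d - c ≤ s := by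
  obtain ⟨x, rfl⟩ : ∃ x, a = b + x := ⟨a - b, by ring⟩
  obtain ⟨y, rfl⟩ : ∃ y, d = c + y := ⟨d - c, by ring⟩
  have hx : 1 ≤ x := by omega
  have hy : 1 ≤ y := by omega
  have e : (b + x) * (c + y) - b * c = b * y + c * x + x * y := by ring
  rw [e] at hp
  constructor
  · by_contra hcon
    have hx1 : s + 1 ≤ x := by omega
    rcases hbig with hbig | hbig
    · -- `x d ≥ (s + 1) (s + 1)`
      have hd : s + 1 ≤ c + y := by omega
      have h1 : (s + 1) * (s + 1) ≤ x * (c + y) := mul_le_mul hx1 hd (by omega) (by omega)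
      have h2 : 0 ≤ b * y := mul_nonneg hb (by omega)
      nlinarith
    · have h1 : s * (s + 1) ≤ c * x := mul_le_mul hbig hx1 (by omega) hc
      have h2 : (s + 1) * 1 ≤ x * y := mul_le_mul hx1 hy (by norm_num) (by omega)
      have h3 : 0 ≤ b * y := mul_nonneg hb (by omega)
      nlinarith
  · by_contra hcon
    have hy1 : s + 1 ≤ y := by omega
    rcases hbig with hbig | hbig
    · have h1 : s * (s + 1) ≤ b * y := mul_le_mul hbig hy1 (by omega) hb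
      have h2 : 1 * (s + 1) ≤ x * y := mul_le_mul hx hy1 (by omega) (by omega)
      have h3 : 0 ≤ c * x := mul_nonneg hc (by omega)
      nlinarith
    · have hd : s + 1 ≤ b + x := by omega
      have h1 : (s + 1) * (s + 1) ≤ (b + x) * y := mul_le_mul hd hy1 (by omega) (by omega)
      have h2 : 0 ≤ c * x := mul_nonneg hc (by omega)
      nlinarith

/-- the doubly balanced case -/
private theorem step_db (h : Irr t D) {p : ℕ} (hp : 1 ≤ p)
    (hm : mu t D * ((Nat.sqrt p : ℝ) - 1) ≤ p) {B C : Matrix (Fin 2) (Fin 2) ℕ}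
    {N : Matrix (Fin 2) (Fin 2) ℤ} (hR : Rel t D B C N) (hN : ∀ i j, 0 ≤ N i j)
    (hdet : N.det = p) (hdiv : ∃ R : Matrix (Fin 2) (Fin 2) ℤ, toZ B = R * N)
    (b1 : N 0 1 < N 0 0) (b2 : N 1 0 < N 0 0) (b3 : N 0 1 < N 1 1) (b4 : N 1 0 < N 1 1) :
    Lnk B C (zQ N) := by
  rcases lt_or_ge (mu t D) 0 with hmu | hmu
  · exact step_neg h hmu hp hR hN hdet hdiv b1 b2 b3 b4
  by_cases hc : N 0 1 < (Nat.sqrt p : ℤ) ∧ N 1 0 < (Nat.sqrt p : ℤ)
  · exact step_small h hmu hp hm hR hN hdet hdiv hc.1 hc.2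
  have hbig : (Nat.sqrt p : ℤ) ≤ N 0 1 ∨ (Nat.sqrt p : ℤ) ≤ N 1 0 := by omega
  have hsp : (p : ℤ) < ((Nat.sqrt p : ℤ) + 1) * ((Nat.sqrt p : ℤ) + 1) := by
    exact_mod_cast Nat.lt_succ_sqrt p
  have hdet' := hdet
  rw [det_fin_two] at hdet'
  obtain ⟨x1, x2⟩ := step_arith (by positivity) (hN 0 1) (hN 1 0) b1 b2 b3 b4 hdet' hsp hbig
  have hd0 : 0 < N.det := by rw [hdet]; exact_mod_cast hp
  rcases lt_or_gt_of_ne (tau_ne h hR.1) with hτ | hτ
  · -- exchange of both bases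
    obtain ⟨B1, C1, hE, hτ1⟩ := mv_swap2 h hR
    have hR1 := hE.rel h hR
    have hdet1 : (!![N 1 1, N 1 0; N 0 1, N 0 0] : Matrix (Fin 2) (Fin 2) ℤ).det = N.det := by
      rw [Matrix.det_fin_two, Matrix.det_fin_two]
      simp
      ring
    obtain ⟨B2, C2, N2, hE2, hN2, hdet2, y1, y2⟩ := side h hR1 (by rw [hdet1]; exact hd0)
      (by simpa using hN 1 0) (by simpa using b4) (by simpa using hN 0 1) (by simpa using b1)
      (hτ1 hτ)
    have hE3 := hE.trans h hE2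
    refine hE3.lnk h (step_small h hmu hp hm (hE3.rel h hR) hN2 (by rw [hdet2, hdet1, hdet])
      (hE3.div hdiv) ?_ ?_)
    · have : N2 0 1 < N 1 1 - N 1 0 := by simpa using y1
      omega
    · have : N2 1 0 < N 1 1 - N 1 0 := by simpa using y2
      omega
  · obtain ⟨B2, C2, N2, hE2, hN2, hdet2, y1, y2⟩ := side h hR hd0 (hN 0 1) b1 (hN 1 0) b4 hτ
    refine hE2.lnk h (step_small h hmu hp hm (hE2.rel h hR) hN2 (by rw [hdet2, hdet])
      (hE2.div hdiv) ?_ ?_)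
    · omega
    · omega

/-- the nonnegative case with positive determinant -/
private theorem step_nn (h : Irr t D) {p : ℕ} (hp : 1 ≤ p)
    (hm : mu t D * ((Nat.sqrt p : ℝ) - 1) ≤ p) {B C : Matrix (Fin 2) (Fin 2) ℕ}
    {N : Matrix (Fin 2) (Fin 2) ℤ} (hR : Rel t D B C N) (hN : ∀ i j, 0 ≤ N i j)
    (hdet : N.det = p) (hdiv : ∃ R : Matrix (Fin 2) (Fin 2) ℤ, toZ B = R * N) :
    Lnk B C (zQ N) := by
  obtain ⟨B', C', N', hE, hN', hd', b1, b2, b3, b4⟩ := exists_db h hR hN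
    (by rw [hdet]; exact_mod_cast hp)
  exact hE.lnk h (step_db h hp hm (hE.rel h hR) hN' (hd'.trans hdet) (hE.div hdiv) b1 b2 b3 b4)

theorem step_ok (h : Irr t D) {p : ℕ} (hp : 1 ≤ p) (hm : mu t D * ((Nat.sqrt p : ℝ) - 1) ≤ p) :
    OKp t D p := by
  intro B C N hR hdet hdiv
  obtain ⟨B', N', hE, hN'⟩ := exists_nonneg h hR
  have hR' := hE.rel h hR
  have hdet' : N'.det.natAbs = p := hE.det.trans hdet
  refine hE.lnk h ?_
  rcases le_or_gt 0 N'.det with hd | hd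
  · exact step_nn h hp hm hR' hN' (by omega) (hE.div hdiv)
  · obtain ⟨C1, hE1⟩ := mv_swap h hR'
    have hdet1 : (!![N' 1 0, N' 1 1; N' 0 0, N' 0 1] : Matrix (Fin 2) (Fin 2) ℤ).det = - N'.det := by
      rw [Matrix.det_fin_two, Matrix.det_fin_two]
      simp
      ring
    refine hE1.lnk h (step_nn h hp hm (hE1.rel h hR') ?_ (by rw [hdet1]; omega)
      (hE1.div (hE.div hdiv)))
    intro i j
    fin_cases i <;> fin_cases j <;> simp [hN']

end Pool.Agent.DimRep.TB2
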